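import Mathlib

/-!
Combinatorics of cyclic towers for the weakly homoclinic group problem (MP_20f905_an).
A stage is a cyclic group `ZMod h` (the levels of a cyclic tower, the transformation being `+1`)
with a permutation `σ` of the levels.
-/

open Finset

namespace Pool.Agent.H44.WH

/-- number of levels whose label changes under `T^{-n} S T^n`. -/
def eN {H : ℕ} [NeZero H] (σ : Equiv.Perm (ZMod H)) (ζ : ZMod H → ℕ) (n : ZMod H) : ℕ :=
  (univ.filter fun l : ZMod H => ζ (σ l - n) ≠ ζ (l - n)).card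

/-- number of levels `m` whose label changes under translation by `s`. -/
def cN {H : ℕ} [NeZero H] (ζ : ZMod H → ℕ) (s : ZMod H) : ℕ :=
  (univ.filter fun m : ZMod H => ζ (m + s) ≠ ζ m).card

/-- total number of label changes over a full period. -/
def QN {H : ℕ} [NeZero H] (σ : Equiv.Perm (ZMod H)) (ζ : ZMod H → ℕ) : ℕ :=
  ∑ j : ZMod H, cN ζ (σ j - j)

/-- break set of a label map. -/
def Bset {h H : ℕ} [NeZero H] (π : ZMod H → ZMod h) : Finset (ZMod H) :=
  univ.filter fun l => π (l + 1) ≠ π l + 1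

lemma card_pre_le {H : ℕ} [NeZero H] (B : Finset (ZMod H)) (g : ZMod H → ZMod H)
    (hg : Function.Injective g) : (univ.filter fun l => g l ∈ B).card ≤ B.card := by
  apply Finset.card_le_card_of_injOn g
  · intro l hl
    simpa using hl
  · exact hg.injOn

lemma card_exists_le {H : ℕ} [NeZero H] (B : Finset (ZMod H)) (n : ℕ)
    (g : ℕ → ZMod H → ZMod H) (hg : ∀ i, Function.Injective (g i)) :
    (univ.filter fun l => ∃ i < n, g i l ∈ B).card ≤ n * B.card := by
  have hsub : (univ.filter fun l => ∃ i < n, g i l ∈ B) ⊆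
      (range n).biUnion fun i => univ.filter fun l => g i l ∈ B := by
    intro l hl
    simp only [mem_filter, mem_univ, true_and] at hl
    obtain ⟨i, hi, h⟩ := hl
    simp only [mem_biUnion, mem_range, mem_filter, mem_univ, true_and]
    exact ⟨i, hi, h⟩
  calc _ ≤ ((range n).biUnion fun i => univ.filter fun l => g i l ∈ B).card := card_le_card hsub
    _ ≤ ∑ i ∈ range n, (univ.filter fun l => g i l ∈ B).card := card_biUnion_le
    _ ≤ ∑ _i ∈ range n, B.card := sum_le_sum fun i _ => card_pre_le B (g i) (hg i)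
    _ = n * B.card := by simp

lemma pi_sub {h H : ℕ} [NeZero H] (π : ZMod H → ZMod h) (l : ZMod H) (n : ℕ)
    (hb : ∀ i < n, l - ((i : ZMod H) + 1) ∉ Bset π) : π (l - n) = π l - n := by
  induction n with
  | zero => simp
  | succ n ih =>
    have h1 := ih fun i hi => hb i (Nat.lt_succ_of_lt hi)
    have h2 := hb n (Nat.lt_succ_self n)
    simp only [Bset, mem_filter, mem_univ, true_and, not_not] at h2
    have h3 : l - ((n : ZMod H) + 1) + 1 = l - n := by ring
    rw [h3, h1] at h2
    push_cast
    rw [eq_sub_iff_add_eq, ← sub_eq_iff_eq_add.mpr h2]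
    ring

lemma pi_add {h H : ℕ} [NeZero H] (π : ZMod H → ZMod h) (l : ZMod H) (n : ℕ)
    (hb : ∀ i < n, l + (i : ZMod H) ∉ Bset π) : π (l + n) = π l + n := by
  induction n with
  | zero => simp
  | succ n ih =>
    have h1 := ih fun i hi => hb i (Nat.lt_succ_of_lt hi)
    have h2 := hb n (Nat.lt_succ_self n)
    simp only [Bset, mem_filter, mem_univ, true_and, not_not] at h2
    push_cast
    rw [← add_assoc, h2, h1]
    ring

/-- sum over a balanced map -/
lemma sum_balanced {h H : ℕ} [NeZero h] [NeZero H] (π : ZMod H → ZMod h) (q : ℕ)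
    (hbal : ∀ j, (univ.filter fun l => π l = j).card = q) (f : ZMod h → ℕ) :
    ∑ l : ZMod H, f (π l) = q * ∑ j : ZMod h, f j := by
  rw [← Finset.sum_fiberwise_of_maps_to (s := univ) (t := univ) (g := π) (fun _ _ => mem_univ _),
    Finset.mul_sum]
  refine sum_congr rfl fun j _ => ?_
  rw [← hbal j, card_eq_sum_ones, sum_mul]
  refine sum_congr rfl fun l hl => ?_
  simp only [mem_filter, mem_univ, true_and] at hl
  rw [hl, one_mul]

lemma card_balanced {h H : ℕ} [NeZero h] [NeZero H] (π : ZMod H → ZMod h) (q : ℕ)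
    (hbal : ∀ j, (univ.filter fun l => π l = j).card = q) (p : ZMod h → Prop) [DecidablePred p] :
    (univ.filter fun l => p (π l)).card = q * (univ.filter fun j => p j).card := by
  have := sum_balanced π q hbal (fun j => if p j then 1 else 0)
  rw [card_filter, card_filter]
  exact this

/-- short time estimate -/
lemma short_time {h H : ℕ} [NeZero h] [NeZero H] (π : ZMod H → ZMod h) (q : ℕ)
    (hbal : ∀ j, (univ.filter fun l => π l = j).card = q)
    (σ : Equiv.Perm (ZMod h)) (σ' : Equiv.Perm (ZMod H)) (ζ : ZMod h → ℕ) (n : ℕ) :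
    eN σ' (fun l => ζ (π l)) n ≤ q * eN σ ζ n +
      (univ.filter fun l => π (σ' l) ≠ σ (π l)).card + 2 * n * (Bset π).card := by
  classical
  set A0 := univ.filter fun l : ZMod H => ζ (π (σ' l - n)) ≠ ζ (π (l - n)) with hA0
  set A1 := univ.filter fun l : ZMod H => ζ (σ (π l) - n) ≠ ζ (π l - n) with hA1
  set A2 := univ.filter fun l : ZMod H => π (σ' l) ≠ σ (π l) with hA2
  set A3 := univ.filter fun l : ZMod H => ∃ i < n, l - ((i : ZMod H) + 1) ∈ Bset π with hA3
  set A4 := univ.filter fun l : ZMod H => ∃ i < n, σ' l - ((i : ZMod H) + 1) ∈ Bset π with hA4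
  have hsub : A0 ⊆ ((A1 ∪ A2) ∪ A3) ∪ A4 := by
    intro l hl
    simp only [hA0, mem_filter, mem_univ, true_and] at hl
    simp only [hA1, hA2, hA3, hA4, mem_union, mem_filter, mem_univ, true_and]
    by_contra hcon
    push Not at hcon
    obtain ⟨⟨⟨h1, h2⟩, h3⟩, h4⟩ := hcon
    have e1 := pi_sub π l n h3
    have e2 := pi_sub π (σ' l) n h4
    apply hl
    rw [e1, e2, h2, h1]
  have c1 : A1.card = q * eN σ ζ n :=
    card_balanced π q hbal (fun j => ζ (σ j - n) ≠ ζ (j - n))
  have c3 : A3.card ≤ n * (Bset π).card :=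
    card_exists_le (Bset π) n (fun i l => l - ((i : ZMod H) + 1)) fun i => sub_left_injective
  have c4 : A4.card ≤ n * (Bset π).card :=
    card_exists_le (Bset π) n (fun i l => σ' l - ((i : ZMod H) + 1)) fun i =>
      (sub_left_injective).comp σ'.injective
  have h0 : eN σ' (fun l => ζ (π l)) n = A0.card := rfl
  have hc := card_le_card hsub
  have u1 := card_union_le ((A1 ∪ A2) ∪ A3) A4
  have u2 := card_union_le (A1 ∪ A2) A3
  have u3 := card_union_le A1 A2
  rw [h0, mul_assoc, two_mul]
  omega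

/-- integer representative of the displacement of `σ` at `j`. -/
def dsp {h : ℕ} (σ : Equiv.Perm (ZMod h)) (j : ZMod h) : ℤ := ((σ j).val : ℤ) - (j.val : ℤ)

lemma dsp_cast {h : ℕ} [NeZero h] (σ : Equiv.Perm (ZMod h)) (j : ZMod h) :
    ((dsp σ j : ℤ) : ZMod h) = σ j - j := by
  simp [dsp]

lemma dsp_lt {h : ℕ} [NeZero h] (σ : Equiv.Perm (ZMod h)) (j : ZMod h) : dsp σ j < h := by
  have h1 := ZMod.val_lt (σ j)
  have h2 := (ZMod.val_lt j)
  unfold dsp
  omega

lemma neg_lt_dsp {h : ℕ} [NeZero h] (σ : Equiv.Perm (ZMod h)) (j : ZMod h) : -(h : ℤ) < dsp σ j := by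
  have h1 := ZMod.val_lt (σ j)
  have h2 := (ZMod.val_lt j)
  unfold dsp
  omega

/-- label after a small integer displacement, away from breaks -/
lemma pi_add_int {h H : ℕ} [NeZero H] (π : ZMod H → ZMod h) (m : ZMod H) (w : ℕ) (s : ℤ)
    (h1 : s < w) (h2 : -(w : ℤ) < s)
    (hf : ∀ i < w, m + (i : ZMod H) ∉ Bset π)
    (hb : ∀ i < w, m - ((i : ZMod H) + 1) ∉ Bset π) : π (m + s) = π m + s := by
  rcases le_or_gt 0 s with h0 | h0
  · obtain ⟨n, rfl⟩ := Int.eq_ofNat_of_zero_le h0
    have := pi_add π m n fun i hi => hf i (by omega)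
    simpa using this
  · obtain ⟨n, hn⟩ := Int.eq_ofNat_of_zero_le (by omega : 0 ≤ -s)
    have hs : s = -(n : ℤ) := by omega
    subst hs
    have := pi_sub π m n fun i hi => hb i (by omega)
    simpa [sub_eq_add_neg] using this

/-- long time estimate over a window of length `h` -/
lemma long_time {h H : ℕ} [NeZero h] [NeZero H] (π : ZMod H → ZMod h) (q : ℕ)
    (hbal : ∀ j, (univ.filter fun l => π l = j).card = q)
    (σ : Equiv.Perm (ZMod h)) (σ' : Equiv.Perm (ZMod H)) (ζ : ZMod h → ℕ)
    (G : Finset (ZMod H)) (hG : ∀ l ∈ G, σ' l = l + ((dsp σ (π l) : ℤ) : ZMod H)) (a : ℕ) :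
    ∑ i ∈ range h, eN σ' (fun l => ζ (π l)) (((a + i : ℕ) : ZMod H)) ≤
      h * (Gᶜ).card + q * QN σ ζ + 3 * h * h * (Bset π).card := by
  classical
  -- the reduction to G and change of variables
  set P : ZMod H → ℕ → Prop := fun m i =>
    ζ (π (m + ((dsp σ (π (m + ((a + i : ℕ) : ZMod H))) : ℤ) : ZMod H))) ≠ ζ (π m) with hP
  have step1 : ∀ i, eN σ' (fun l => ζ (π l)) (((a + i : ℕ) : ZMod H)) ≤
      (Gᶜ).card + (univ.filter fun m => P m i).card := by
    intro i
    set n : ZMod H := ((a + i : ℕ) : ZMod H) with hn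
    set A0 := univ.filter fun l : ZMod H => ζ (π (σ' l - n)) ≠ ζ (π (l - n)) with hA0
    have h0 : eN σ' (fun l => ζ (π l)) n = A0.card := rfl
    have hsub : A0 ⊆ Gᶜ ∪ (A0 ∩ G) := by
      intro l hl
      by_cases hlG : l ∈ G
      · exact mem_union_right _ (mem_inter.mpr ⟨hl, hlG⟩)
      · exact mem_union_left _ (mem_compl.mpr hlG)
    have hinj : (A0 ∩ G).card ≤ (univ.filter fun m => P m i).card := by
      apply Finset.card_le_card_of_injOn (fun l => l - n)
      · intro l hl
        have hl' := mem_inter.mp (Finset.mem_coe.mp hl)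
        have hl1 : ζ (π (σ' l - n)) ≠ ζ (π (l - n)) := by
          have := hl'.1
          rw [hA0] at this
          simpa using this
        have hl2 := hG l hl'.2
        simp only [coe_filter, mem_univ, true_and, Set.mem_ofPred_eq, hP]
        have e1 : l - n + n = l := by ring
        rw [← hn, e1]
        have e2 : l - n + ((dsp σ (π l) : ℤ) : ZMod H) = σ' l - n := by rw [hl2]; ring
        rw [e2]
        exact hl1
      · exact (sub_left_injective).injOn
    have := card_le_card hsub
    have u := card_union_le (Gᶜ) (A0 ∩ G)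
    rw [h0]
    omega
  -- the bad set
  set bad := univ.filter fun m : ZMod H => (∃ i < h, m + (i : ZMod H) ∈ Bset π) ∨
    (∃ i < h, m - ((i : ZMod H) + 1) ∈ Bset π) ∨
    (∃ i < h, m + (a : ZMod H) + (i : ZMod H) ∈ Bset π) with hbad
  have hbadcard : bad.card ≤ 3 * h * (Bset π).card := by
    have c1 : (univ.filter fun m : ZMod H => ∃ i < h, m + (i : ZMod H) ∈ Bset π).card
        ≤ h * (Bset π).card :=
      card_exists_le (Bset π) h (fun i l => l + (i : ZMod H)) fun i => add_left_injective _
    have c2 : (univ.filter fun m : ZMod H => ∃ i < h, m - ((i : ZMod H) + 1) ∈ Bset π).card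
        ≤ h * (Bset π).card :=
      card_exists_le (Bset π) h (fun i l => l - ((i : ZMod H) + 1)) fun i => sub_left_injective
    have c3 : (univ.filter fun m : ZMod H => ∃ i < h, m + (a : ZMod H) + (i : ZMod H) ∈
        Bset π).card ≤ h * (Bset π).card :=
      card_exists_le (Bset π) h (fun i l => l + (a : ZMod H) + (i : ZMod H)) fun i =>
        (add_left_injective _).comp (add_left_injective _)
    have hb : bad = (univ.filter fun m : ZMod H => ∃ i < h, m + (i : ZMod H) ∈ Bset π) ∪
        ((univ.filter fun m : ZMod H => ∃ i < h, m - ((i : ZMod H) + 1) ∈ Bset π) ∪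
        (univ.filter fun m : ZMod H => ∃ i < h, m + (a : ZMod H) + (i : ZMod H) ∈ Bset π)) := by
      rw [hbad, filter_or, filter_or]
    rw [hb]
    have u1 := card_union_le (univ.filter fun m : ZMod H => ∃ i < h, m + (i : ZMod H) ∈ Bset π)
        ((univ.filter fun m : ZMod H => ∃ i < h, m - ((i : ZMod H) + 1) ∈ Bset π) ∪
        (univ.filter fun m : ZMod H => ∃ i < h, m + (a : ZMod H) + (i : ZMod H) ∈ Bset π))
    have u2 := card_union_le
        (univ.filter fun m : ZMod H => ∃ i < h, m - ((i : ZMod H) + 1) ∈ Bset π)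
        (univ.filter fun m : ZMod H => ∃ i < h, m + (a : ZMod H) + (i : ZMod H) ∈ Bset π)
    rw [mul_assoc]
    omega
  -- pointwise bound
  set f : ZMod h → ℕ := fun j' => (univ.filter fun j : ZMod h => ζ (j' + (σ j - j)) ≠ ζ j').card
    with hf
  have step2 : ∀ m : ZMod H, ((range h).filter fun i => P m i).card ≤
      f (π m) + (if m ∈ bad then h else 0) := by
    intro m
    by_cases hm : m ∈ bad
    · rw [if_pos hm]
      have : ((range h).filter fun i => P m i).card ≤ h := by
        calc _ ≤ (range h).card := card_filter_le _ _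
          _ = h := card_range h
      omega
    · rw [if_neg hm, add_zero]
      rw [hbad] at hm
      simp only [mem_filter, mem_univ, true_and, not_or, not_exists, not_and] at hm
      obtain ⟨g1, g2, g3⟩ := hm
      have hfm : f (π m) = (univ.filter fun j : ZMod h =>
        ζ (π m + (σ j - j)) ≠ ζ (π m)).card := rfl
      rw [hfm]
      apply Finset.card_le_card_of_injOn (fun i : ℕ => π (m + (a : ZMod H)) + (i : ZMod h))
      · intro i hi
        have hi' := mem_filter.mp (Finset.mem_coe.mp hi)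
        have hi1 : i < h := mem_range.mp hi'.1
        have hi2 := hi'.2
        simp only [hP] at hi2
        have e1 : m + ((a + i : ℕ) : ZMod H) = m + (a : ZMod H) + (i : ZMod H) := by
          push_cast; ring
        have e2 : π (m + (a : ZMod H) + (i : ZMod H)) = π (m + (a : ZMod H)) + (i : ZMod h) :=
          pi_add π (m + (a : ZMod H)) i fun i' hi' => g3 i' (by omega)
        rw [e1, e2] at hi2
        set j : ZMod h := π (m + (a : ZMod H)) + (i : ZMod h) with hj
        have e3 := pi_add_int π m h (dsp σ j) (dsp_lt σ j) (neg_lt_dsp σ j) g1 g2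
        rw [e3, dsp_cast] at hi2
        simp only [coe_filter, mem_univ, true_and, Set.mem_ofPred_eq]
        exact hi2
      · intro i hi i' hi' heq
        have h1 : i < h := mem_range.mp (mem_filter.mp (Finset.mem_coe.mp hi)).1
        have h2 : i' < h := mem_range.mp (mem_filter.mp (Finset.mem_coe.mp hi')).1
        have h3 : (i : ZMod h) = (i' : ZMod h) := add_left_cancel heq
        have h4 := congrArg ZMod.val h3
        rwa [ZMod.val_natCast_of_lt h1, ZMod.val_natCast_of_lt h2] at h4
  -- summation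
  have swap : ∑ i ∈ range h, (univ.filter fun m => P m i).card =
      ∑ m : ZMod H, ((range h).filter fun i => P m i).card := by
    simp_rw [card_filter]
    exact sum_comm
  have sumf : ∑ m : ZMod H, f (π m) = q * QN σ ζ := by
    rw [sum_balanced π q hbal f]
    congr 1
    unfold QN cN
    simp_rw [hf, card_filter]
    exact sum_comm
  calc ∑ i ∈ range h, eN σ' (fun l => ζ (π l)) (((a + i : ℕ) : ZMod H))
      ≤ ∑ i ∈ range h, ((Gᶜ).card + (univ.filter fun m => P m i).card) :=
        sum_le_sum fun i _ => step1 i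
    _ = h * (Gᶜ).card + ∑ m : ZMod H, ((range h).filter fun i => P m i).card := by
        rw [sum_add_distrib, sum_const, card_range, smul_eq_mul, swap]
    _ ≤ h * (Gᶜ).card + ∑ m : ZMod H, (f (π m) + (if m ∈ bad then h else 0)) :=
        Nat.add_le_add_left (sum_le_sum fun m _ => step2 m) _
    _ = h * (Gᶜ).card + (q * QN σ ζ + bad.card * h) := by
        rw [sum_add_distrib, sumf, sum_ite_mem, univ_inter, sum_const, smul_eq_mul]
    _ ≤ h * (Gᶜ).card + q * QN σ ζ + 3 * h * h * (Bset π).card := by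
        have : bad.card * h ≤ 3 * h * h * (Bset π).card := by
          calc bad.card * h ≤ 3 * h * (Bset π).card * h := Nat.mul_le_mul_right _ hbadcard
            _ = 3 * h * h * (Bset π).card := by ring
        omega

lemma sum_zmod {H : ℕ} [NeZero H] (F : ZMod H → ℕ) :
    ∑ n : ZMod H, F n = ∑ i ∈ range H, F (i : ZMod H) := by
  symm
  apply sum_bij (fun (i : ℕ) _ => (i : ZMod H))
  · intro i _
    exact mem_univ _
  · intro i hi i' hi' heq
    have h4 := congrArg ZMod.val heq
    rwa [ZMod.val_natCast_of_lt (mem_range.mp hi), ZMod.val_natCast_of_lt (mem_range.mp hi')] at h4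
  · intro n _
    exact ⟨n.val, mem_range.mpr (ZMod.val_lt n), ZMod.natCast_zmod_val n⟩
  · intro i _
    rfl

lemma QN_eq_sum {H : ℕ} [NeZero H] (σ : Equiv.Perm (ZMod H)) (ζ : ZMod H → ℕ) :
    QN σ ζ = ∑ n : ZMod H, eN σ ζ n := by
  unfold QN cN eN
  simp_rw [card_filter]
  rw [sum_comm (s := (univ : Finset (ZMod H))) (t := (univ : Finset (ZMod H)))
    (f := fun n l => if ζ (σ l - n) ≠ ζ (l - n) then 1 else 0)]
  refine sum_congr rfl fun l _ => ?_
  apply Finset.sum_equiv (Equiv.subLeft l)
  · intro i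
    simp
  · intro m _
    simp only [Equiv.subLeft_apply]
    have e1 : σ l - (l - m) = m + (σ l - l) := by ring
    have e2 : l - (l - m) = m := by ring
    rw [e1, e2]

lemma window_sum (F : ℕ → ℕ) (h W : ℕ) (hW : ∀ a, ∑ i ∈ range h, F (a + i) ≤ W) (b : ℕ) :
    ∑ i ∈ range (b * h), F i ≤ b * W := by
  induction b with
  | zero => simp
  | succ b ih =>
    rw [Nat.succ_mul, sum_range_add, Nat.succ_mul]
    exact Nat.add_le_add ih (hW _)

/-- full-period estimate for an extension -/
lemma QN_ext {h H : ℕ} [NeZero h] [NeZero H] (π : ZMod H → ZMod h) (q : ℕ) (hH : H = q * h)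
    (hbal : ∀ j, (univ.filter fun l => π l = j).card = q)
    (σ : Equiv.Perm (ZMod h)) (σ' : Equiv.Perm (ZMod H)) (ζ : ZMod h → ℕ)
    (G : Finset (ZMod H)) (hG : ∀ l ∈ G, σ' l = l + ((dsp σ (π l) : ℤ) : ZMod H)) :
    QN σ' (fun l => ζ (π l)) ≤
      q * (h * (Gᶜ).card + q * QN σ ζ + 3 * h * h * (Bset π).card) := by
  rw [QN_eq_sum, sum_zmod]
  have := window_sum (fun n => eN σ' (fun l => ζ (π l)) ((n : ℕ) : ZMod H)) h _
    (fun a => long_time π q hbal σ σ' ζ G hG a) q
  have e : range H = range (q * h) := by rw [← hH]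
  rw [e]
  exact this

/-- long partial sums for an extension -/
lemma sum_ext {h H : ℕ} [NeZero h] [NeZero H] (π : ZMod H → ZMod h) (q : ℕ)
    (hbal : ∀ j, (univ.filter fun l => π l = j).card = q)
    (σ : Equiv.Perm (ZMod h)) (σ' : Equiv.Perm (ZMod H)) (ζ : ZMod h → ℕ)
    (G : Finset (ZMod H)) (hG : ∀ l ∈ G, σ' l = l + ((dsp σ (π l) : ℤ) : ZMod H)) (N : ℕ) :
    ∑ n ∈ range (N + 1), eN σ' (fun l => ζ (π l)) ((n : ℕ) : ZMod H) ≤
      (N / h + 1) * (h * (Gᶜ).card + q * QN σ ζ + 3 * h * h * (Bset π).card) := by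
  have := window_sum (fun n => eN σ' (fun l => ζ (π l)) ((n : ℕ) : ZMod H)) h _
    (fun a => long_time π q hbal σ σ' ζ G hG a) (N / h + 1)
  refine le_trans (sum_le_sum_of_subset ?_) this
  apply range_subset_range.mpr
  have hh : 0 < h := NeZero.pos h
  have := Nat.lt_div_mul_add hh (a := N)
  rw [Nat.succ_mul]
  omega

end Pool.Agent.H44.WH
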