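import Pool.Agent.H44.WH.Main

/-!
From small averages to density one.
-/

open MeasureTheory Set Filter Topology
open scoped ENNReal symmDiff

namespace Pool.Agent.H44.WH

lemma density_one (d : ℕ → ℝ) (hd : ∀ m, 0 ≤ d m)
    (h : ∀ η : ℝ, 0 < η → ∃ M : ℕ, ∀ N ≥ M, ∑ m ∈ Finset.Icc 1 N, d m ≤ η * N)
    (ε : ℝ) (hε : 0 < ε) (P : ℕ → Prop) [DecidablePred P] (hP : ∀ m, P m ↔ d m < ε) :
    Tendsto (fun N : ℕ => (((Finset.Icc 1 N).filter P).card : ℝ) / (N : ℝ)) atTop (𝓝 1) := by
  classical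
  rw [Metric.tendsto_atTop]
  intro δ hδ
  obtain ⟨M, hM⟩ := h (ε * (δ / 2)) (by positivity)
  refine ⟨max M 1, fun N hN => ?_⟩
  have hN1 : 0 < N := lt_of_lt_of_le one_pos (le_trans (le_max_right _ _) hN)
  have hNr : (0 : ℝ) < N := by exact_mod_cast hN1
  have h1 := hM N (le_trans (le_max_left _ _) hN)
  have h2 : (((Finset.Icc 1 N).filter fun m => ¬ P m).card : ℝ) * ε ≤
      ∑ m ∈ Finset.Icc 1 N, d m := by
    calc (((Finset.Icc 1 N).filter fun m => ¬ P m).card : ℝ) * ε
        = ∑ _m ∈ (Finset.Icc 1 N).filter fun m => ¬ P m, ε := by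
          rw [Finset.sum_const, nsmul_eq_mul]
      _ ≤ ∑ m ∈ (Finset.Icc 1 N).filter fun m => ¬ P m, d m := by
          apply Finset.sum_le_sum
          intro m hm
          have h3 := (Finset.mem_filter.mp hm).2
          rw [hP, not_lt] at h3
          exact h3
      _ ≤ ∑ m ∈ Finset.Icc 1 N, d m := by
          apply Finset.sum_le_sum_of_subset_of_nonneg (Finset.filter_subset _ _)
          intro m _ _
          exact hd m
  have h3 : (((Finset.Icc 1 N).filter P).card : ℝ) +
      (((Finset.Icc 1 N).filter fun m => ¬ P m).card : ℝ) = N := by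
    have h4 := Finset.card_filter_add_card_filter_not (s := Finset.Icc 1 N) P
    rw [Nat.card_Icc, Nat.add_sub_cancel] at h4
    exact_mod_cast h4
  have h5 : (((Finset.Icc 1 N).filter fun m => ¬ P m).card : ℝ) ≤ δ / 2 * N := by
    have h6 := le_trans h2 h1
    have h7 : (((Finset.Icc 1 N).filter fun m => ¬ P m).card : ℝ) * ε ≤ (δ / 2 * N) * ε := by
      linarith
    exact le_of_mul_le_mul_right h7 hε
  have h8 : (((Finset.Icc 1 N).filter P).card : ℝ) / (N : ℝ) - 1 =
      - ((((Finset.Icc 1 N).filter fun m => ¬ P m).card : ℝ) / N) := by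
    have h9 : (((Finset.Icc 1 N).filter P).card : ℝ) =
        N - (((Finset.Icc 1 N).filter fun m => ¬ P m).card : ℝ) := by linarith
    rw [h9, sub_div, div_self hNr.ne']
    ring
  rw [Real.dist_eq, h8, abs_neg, abs_of_nonneg (by positivity), div_lt_iff₀ hNr]
  nlinarith

end Pool.Agent.H44.WH
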