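import Pool.Agent.H44.WH.Topo

/-!
Density of cyclic interval permutations in the weak topology.
-/

set_option linter.unusedSectionVars false

open MeasureTheory Set Filter Topology
open scoped ENNReal symmDiff

namespace Pool.Agent.H44.WH

lemma ae_mem_Ico : ∀ᵐ x ∂mu, x ∈ Set.Ico (0 : ℝ) 1 := by
  rw [mu_eq_Ico]
  exact ae_restrict_mem measurableSet_Ico

/-- Lusin type approximation of a finite labelling by functions of interval labels -/
lemma exists_step_approx {n : ℕ} [NeZero n] (L : ℝ → Fin n) (hL : Measurable L) (ε : ℝ)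
    (hε : 0 < ε) : ∃ N₀ : ℕ, ∀ N : ℕ, ∀ [NeZero N], N₀ ≤ N → ∃ g : Fin N → Fin n,
      mu.real {x | g (lab N x) ≠ L x} ≤ ε := by
  classical
  have hn := hpos n
  have hB : ∀ b : Fin n, MeasurableSet (L ⁻¹' {b}) := fun b => hL (measurableSet_singleton b)
  have hε' : ENNReal.ofReal (ε / n) ≠ 0 := by
    rw [ne_eq, ENNReal.ofReal_eq_zero, not_le]; positivity
  have h1 : ∀ b : Fin n, ∃ K, K ⊆ L ⁻¹' {b} ∧ IsCompact K ∧
      mu ((L ⁻¹' {b}) \ K) < ENNReal.ofReal (ε / n) := fun b =>
    (hB b).exists_isCompact_sdiff_lt (μ := mu) (measure_ne_top _ _) hε'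
  choose K hK1 hK2 hK3 using h1
  have h2 : ∀ p : Fin n × Fin n, ∃ δ : ℝ, 0 < δ ∧ (p.1 ≠ p.2 →
      Metric.thickening δ (K p.1) ⊆ (K p.2)ᶜ) := by
    intro p
    by_cases hp : p.1 = p.2
    · exact ⟨1, one_pos, fun h => absurd hp h⟩
    · have hsub : K p.1 ⊆ (K p.2)ᶜ := by
        intro x hx hx'
        have a := hK1 _ hx
        have b := hK1 _ hx'
        exact hp (Eq.trans (Eq.symm a) b)
      obtain ⟨δ, hδ, hδ'⟩ := (hK2 p.1).exists_thickening_subset_open
        (hK2 p.2).isClosed.isOpen_compl hsub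
      exact ⟨δ, hδ, fun _ => hδ'⟩
  choose δ hδ0 hδ using h2
  have hne : (Finset.univ : Finset (Fin n × Fin n)).Nonempty := Finset.univ_nonempty
  set d := Finset.univ.inf' hne δ with hd
  have hdpos : 0 < d := by
    rw [hd, Finset.lt_inf'_iff]
    exact fun p _ => hδ0 p
  have hdle : ∀ p, d ≤ δ p := fun p => Finset.inf'_le _ (Finset.mem_univ p)
  obtain ⟨N₀, hN₀⟩ := exists_nat_gt (1 / d)
  refine ⟨N₀, fun N _ hN => ?_⟩
  have hNpos := hpos N
  have hNd : 1 / (N : ℝ) < d := by
    rw [div_lt_comm₀ hNpos hdpos]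
    calc 1 / d < N₀ := hN₀
      _ ≤ N := by exact_mod_cast hN
  set g : Fin N → Fin n := fun i => if hi : ∃ b, (K b ∩ Iv N i).Nonempty then hi.choose else 0
    with hg
  refine ⟨g, ?_⟩
  have hgood : ∀ x ∈ Set.Ico (0 : ℝ) 1, ∀ b, x ∈ K b → g (lab N x) = b := by
    intro x hx b hxb
    have hi : ∃ b, (K b ∩ Iv N (lab N x)).Nonempty := ⟨b, x, hxb, mem_Iv_lab hx⟩
    have hgi : g (lab N x) = hi.choose := by simp only [hg, dif_pos hi]
    rw [hgi]
    obtain ⟨y, hy1, hy2⟩ := hi.choose_spec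
    by_contra hne
    have hth := hδ (b, hi.choose) (fun h => hne h.symm)
    have hyth : y ∈ Metric.thickening (δ (b, hi.choose)) (K b) := by
      rw [Metric.mem_thickening_iff]
      refine ⟨x, hxb, ?_⟩
      rw [Real.dist_eq]
      have hx2 := mem_Iv_lab (h := N) hx
      unfold Iv at hx2 hy2
      rw [Set.mem_Ico, add_div] at hx2 hy2
      refine lt_of_lt_of_le ?_ (hdle _)
      refine lt_trans ?_ hNd
      rw [abs_lt]
      constructor
      · linarith [hx2.1, hx2.2, hy2.1, hy2.2]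
      · linarith [hx2.1, hx2.2, hy2.1, hy2.2]
    exact hth hyth hy1
  have hsub : {x | g (lab N x) ≠ L x} ⊆
      (⋃ b : Fin n, (L ⁻¹' {b}) \ K b) ∪ (Set.Ico (0 : ℝ) 1)ᶜ := by
    intro x hx
    by_contra hcon
    simp only [mem_union, mem_iUnion, mem_compl_iff, not_or, not_not] at hcon
    obtain ⟨h1, h2⟩ := hcon
    push Not at h1
    have h3 := h1 (L x)
    have hxK : x ∈ K (L x) := by
      by_contra hc
      exact h3 ⟨rfl, hc⟩
    exact hx (hgood x h2 _ hxK)
  have hIco : mu.real (Set.Ico (0 : ℝ) 1)ᶜ = 0 := by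
    rw [measureReal_eq_zero_iff]
    exact ae_mem_Ico
  calc mu.real {x | g (lab N x) ≠ L x} ≤ _ := measureReal_mono hsub
    _ ≤ mu.real (⋃ b : Fin n, (L ⁻¹' {b}) \ K b) + mu.real (Set.Ico (0 : ℝ) 1)ᶜ :=
        measureReal_union_le _ _
    _ ≤ ∑ b : Fin n, mu.real ((L ⁻¹' {b}) \ K b) + 0 := by
        rw [hIco]
        gcongr
        exact measureReal_iUnion_fintype_le _
    _ ≤ ∑ _b : Fin n, ε / n + 0 := by
        gcongr with b _
        exact ((lt_ofReal_iff _ _).mp (hK3 b)).le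
    _ = ε := by
        rw [Finset.sum_const, Finset.card_univ, Fintype.card_fin, nsmul_eq_mul]
        field_simp
        ring

/-- realise approximately a labelling by a bijection -/
lemma exists_equiv_of_labels {n q : ℕ} (g : Fin (n * q) → Fin n) (s : ℕ)
    (hg : ∀ b, (Finset.univ.filter fun i => g i = b).card ≤ q + s) :
    ∃ ρ : Fin (n * q) ≃ Fin n × Fin q,
      (Finset.univ.filter fun i => (ρ i).1 ≠ g i).card ≤ n * s := by
  classical
  have h1 : ∀ b : Fin n, ∃ G : Finset (Fin (n * q)), G ⊆ (Finset.univ.filter fun i => g i = b) ∧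
      G.card = min ((Finset.univ.filter fun i => g i = b).card) q := fun b =>
    Finset.exists_subset_card_eq (min_le_left _ _)
  choose G hG1 hG2 using h1
  have h2 : ∀ b : Fin n, ∃ φ : Fin (n * q) → Fin n × Fin q, Set.InjOn φ (G b) ∧
      ∀ i, i ∈ G b → (φ i).1 = b := by
    intro b
    rcases Nat.eq_zero_or_pos q with hq | hq
    · subst hq
      have : IsEmpty (Fin (n * 0)) := by simpa using Fin.isEmpty
      exact ⟨fun i => (IsEmpty.false i).elim, fun i _ => (IsEmpty.false i).elim,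
        fun i => (IsEmpty.false i).elim⟩
    · have hc : Fintype.card (G b) ≤ Fintype.card (Fin q) := by
        rw [Fintype.card_coe, Fintype.card_fin, hG2]
        exact min_le_right _ _
      obtain ⟨f⟩ := Function.Embedding.nonempty_of_card_le hc
      refine ⟨fun i => (b, if hi : i ∈ G b then f ⟨i, hi⟩ else ⟨0, hq⟩), ?_, fun i _ => rfl⟩
      intro i hi j hj hij
      have hi' : i ∈ G b := hi
      have hj' : j ∈ G b := hj
      simp only [hi', hj', dif_pos, Prod.mk.injEq, true_and] at hij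
      have := f.injective hij
      exact congrArg Subtype.val this
  choose φ hφ1 hφ2 using h2
  set S : Finset (Fin (n * q)) := Finset.univ.filter fun i => i ∈ G (g i) with hS
  have hinj : Set.InjOn (fun i => φ (g i) i) S := by
    intro i hi j hj hij
    have hi' : i ∈ G (g i) := by
      have := Finset.mem_coe.mp hi
      rw [hS] at this
      exact (Finset.mem_filter.mp this).2
    have hj' : j ∈ G (g j) := by
      have := Finset.mem_coe.mp hj
      rw [hS] at this
      exact (Finset.mem_filter.mp this).2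
    have hij' : φ (g i) i = φ (g j) j := hij
    have e1 := hφ2 (g i) i hi'
    have e2 := hφ2 (g j) j hj'
    have e3 : g i = g j := by rw [← e1, ← e2, hij']
    rw [← e3] at hij' hj'
    exact hφ1 (g i) hi' hj' hij'
  obtain ⟨ρ, hρ⟩ := Finset.exists_equiv_extend_of_card_eq (α := Fin (n * q))
    (t := (Finset.univ : Finset (Fin n × Fin q)))
    (by rw [Finset.card_univ, Fintype.card_prod, Fintype.card_fin, Fintype.card_fin,
      Fintype.card_fin]) (s := S) (f := fun i => φ (g i) i) (Finset.subset_univ _) hinj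
  refine ⟨ρ.trans (Equiv.subtypeUnivEquiv (fun x => Finset.mem_univ x)), ?_⟩
  have hsub : (Finset.univ.filter fun i =>
      ((ρ.trans (Equiv.subtypeUnivEquiv (fun x => Finset.mem_univ x))) i).1 ≠ g i) ⊆
      Finset.univ.biUnion fun b => (Finset.univ.filter fun i => g i = b) \ G b := by
    intro i hi
    simp only [Finset.mem_filter, Finset.mem_univ, true_and] at hi
    simp only [Finset.mem_biUnion, Finset.mem_univ, true_and, Finset.mem_sdiff,
      Finset.mem_filter]
    refine ⟨g i, rfl, ?_⟩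
    intro hc
    apply hi
    have : i ∈ S := by
      rw [hS]
      exact Finset.mem_filter.mpr ⟨Finset.mem_univ _, hc⟩
    have h3 := hρ i this
    change ((ρ i : Fin n × Fin q)).1 = g i
    rw [h3]
    exact hφ2 _ _ hc
  calc _ ≤ _ := Finset.card_le_card hsub
    _ ≤ ∑ b : Fin n, ((Finset.univ.filter fun i => g i = b) \ G b).card :=
        Finset.card_biUnion_le
    _ ≤ ∑ _b : Fin n, s := by
        apply Finset.sum_le_sum
        intro b _
        rw [Finset.card_sdiff_of_subset (hG1 b), hG2]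
        have := hg b
        omega
    _ = n * s := by rw [Finset.sum_const, Finset.card_univ, Fintype.card_fin, smul_eq_mul]

/-- `ZMod H ≃ Fin H` -/
def zf (H : ℕ) [NeZero H] : ZMod H ≃ Fin H where
  toFun l := ⟨l.val, ZMod.val_lt l⟩
  invFun i := ((i : ℕ) : ZMod H)
  left_inv l := ZMod.natCast_zmod_val l
  right_inv i := by
    apply Fin.ext
    exact ZMod.val_natCast_of_lt i.2

/-- paths of a permutation -/
def pathE {N K : ℕ} (ρ : Equiv.Perm (Fin N)) : Fin N × Fin K ≃ Fin N × Fin K where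
  toFun p := ((ρ ^ (p.2 : ℕ)) p.1, p.2)
  invFun p := ((ρ ^ (p.2 : ℕ))⁻¹ p.1, p.2)
  left_inv p := by simp
  right_inv p := by simp

/-- cyclic enumeration following a permutation for `K` steps from each point -/
def cycE {N K : ℕ} [NeZero (N * K)] (ρ : Equiv.Perm (Fin N)) : ZMod (N * K) ≃ Fin (N * K) :=
  ((zf (N * K)).trans finProdFinEquiv.symm).trans ((pathE ρ).trans finProdFinEquiv)

lemma cycE_val_div {N K : ℕ} [NeZero (N * K)] (ρ : Equiv.Perm (Fin N)) (hK : 0 < K)
    (l : ZMod (N * K)) (i : Fin N) (c : ℕ) (hc : c < K) (hl : l.val = i * K + c) :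
    (cycE (K := K) ρ l).val / K = ((ρ ^ c) i).val := by
  have e1 : finProdFinEquiv.symm ((zf (N * K)) l) = (i, ⟨c, hc⟩) := by
    rw [Equiv.symm_apply_eq]
    apply Fin.ext
    simp only [zf, Equiv.coe_fn_mk, finProdFinEquiv_apply_val]
    rw [hl]
    ring
  unfold cycE
  simp only [Equiv.trans_apply]
  rw [e1]
  simp only [pathE, Equiv.coe_fn_mk, finProdFinEquiv_apply_val]
  rw [Nat.add_mul_div_left _ _ hK, Nat.div_eq_of_lt hc, zero_add]

lemma cycE_break {N K : ℕ} [NeZero (N * K)] (ρ : Equiv.Perm (Fin N)) (hK : 0 < K)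
    (hKN : ∀ i : Fin (N * K), i.val / K < N) :
    (Finset.univ.filter fun l : ZMod (N * K) => (cycE (K := K) ρ (l + 1)).val / K ≠
      (ρ ⟨(cycE (K := K) ρ l).val / K, hKN _⟩).val).card ≤ N := by
  have key : ∀ l : ZMod (N * K), l.val % K + 1 < K → (cycE (K := K) ρ (l + 1)).val / K =
      (ρ ⟨(cycE (K := K) ρ l).val / K, hKN _⟩).val := by
    intro l hl
    have hlt : l.val < N * K := ZMod.val_lt l
    have hi : l.val / K < N := by rwa [Nat.div_lt_iff_lt_mul hK]
    have h1 : l.val = (⟨l.val / K, hi⟩ : Fin N) * K + l.val % K := (Nat.div_add_mod' _ _).symm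
    have h2 := cycE_val_div ρ hK l ⟨l.val / K, hi⟩ (l.val % K) (Nat.mod_lt _ hK) h1
    have hlt' : l.val + 1 < N * K := by
      have h3 : (l.val / K + 1) * K ≤ N * K := Nat.mul_le_mul_right _ hi
      have h4 : l.val = l.val / K * K + l.val % K := h1
      rw [Nat.succ_mul] at h3
      omega
    have hval : (l + 1).val = l.val + 1 := by
      have e : l + 1 = ((l.val + 1 : ℕ) : ZMod (N * K)) := by
        push_cast
        rw [ZMod.natCast_zmod_val]
      rw [e, ZMod.val_natCast_of_lt hlt']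
    have h3 : (l + 1).val = (⟨l.val / K, hi⟩ : Fin N) * K + (l.val % K + 1) := by
      rw [hval, ← add_assoc, ← h1]
    have h4 := cycE_val_div ρ hK (l + 1) ⟨l.val / K, hi⟩ (l.val % K + 1) hl h3
    rw [h4, pow_succ', Equiv.Perm.mul_apply]
    congr 2
    apply Fin.ext
    exact h2.symm
  have hle : (Finset.univ.filter fun l : ZMod (N * K) => (cycE (K := K) ρ (l + 1)).val / K ≠
      (ρ ⟨(cycE (K := K) ρ l).val / K, hKN _⟩).val).card ≤ (Finset.range N).card := by
    apply Finset.card_le_card_of_injOn (fun l => l.val / K)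
    · intro l _
      simp only [Finset.coe_range, Set.mem_Iio]
      rw [Nat.div_lt_iff_lt_mul hK]
      exact ZMod.val_lt l
    · intro l1 hl1 l2 hl2 heq
      have b1 : ¬ l1.val % K + 1 < K := fun hc =>
        (Finset.mem_filter.mp (Finset.mem_coe.mp hl1)).2 (key l1 hc)
      have b2 : ¬ l2.val % K + 1 < K := fun hc =>
        (Finset.mem_filter.mp (Finset.mem_coe.mp hl2)).2 (key l2 hc)
      have m1 := Nat.mod_lt l1.val hK
      have m2 := Nat.mod_lt l2.val hK
      have heq' : l1.val / K = l2.val / K := heq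
      apply ZMod.val_injective
      rw [← Nat.div_add_mod l1.val K, ← Nat.div_add_mod l2.val K, heq']
      omega
  simpa using hle

lemma lab_div {h H K : ℕ} [NeZero h] [NeZero H] (hH : H = h * K) (hK : 0 < K) {x : ℝ}
    (hx : x ∈ Set.Ico (0 : ℝ) 1) : (lab h x).val = (lab H x).val / K := by
  rw [lab_val hx, lab_val hx, ← Nat.floor_div_natCast]
  congr 1
  rw [hH]
  have : (K : ℝ) ≠ 0 := by exact_mod_cast hK.ne'
  push_cast
  field_simp

lemma abs_sub_lt_of_lab {n : ℕ} [NeZero n] {y z : ℝ} (hy : y ∈ Set.Ico (0 : ℝ) 1)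
    (hz : z ∈ Set.Ico (0 : ℝ) 1) (h : lab n y = lab n z) : |y - z| < 1 / n := by
  have h1 := mem_Iv_lab (h := n) hy
  have h2 := mem_Iv_lab (h := n) hz
  rw [← h] at h2
  unfold Iv at h1 h2
  rw [Set.mem_Ico, add_div] at h1 h2
  rw [abs_lt]
  constructor
  · linarith [h1.1, h1.2, h2.1, h2.2]
  · linarith [h1.1, h1.2, h2.1, h2.2]

/-- the cyclic permutation of levels in the enumeration `e` -/
def cyc {H : ℕ} (e : ZMod H ≃ Fin H) : Equiv.Perm (Fin H) := e.permCongr (Equiv.addRight 1)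

lemma cyc_apply {H : ℕ} (e : ZMod H ≃ Fin H) (i : Fin H) : cyc e i = e (e.symm i + 1) := rfl

lemma mu_real_compl_Ico : mu.real (Set.Ico (0 : ℝ) 1)ᶜ = 0 := by
  rw [measureReal_eq_zero_iff]
  exact ae_mem_Ico

lemma mu_real_preimage_compl_Ico {T : ℝ → ℝ} (hT : MeasurePreserving T mu mu) :
    mu.real (T ⁻¹' (Set.Ico (0 : ℝ) 1)ᶜ) = 0 := by
  rw [measureReal_preimage hT measurableSet_Ico.compl, mu_real_compl_Ico]

/-- Density of cyclic interval permutations. -/
theorem density (T₀ : AutT) (η : ℝ) (hη : 0 < η) (n₀ : ℕ) (hn₀ : 0 < n₀) :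
    ∃ (H : ℕ) (_ : NeZero H) (e : ZMod H ≃ Fin H), n₀ ∣ H ∧
      mu.real {x | η ≤ |iv (cyc e) x - T₀.1 x|} ≤ η := by
  classical
  obtain ⟨m, hm⟩ := exists_nat_gt (1 / η)
  have hmpos : 0 < m := by
    have : (0 : ℝ) < m := lt_trans (by positivity) hm
    exact_mod_cast this
  set n := n₀ * m with hn
  have hnpos : 0 < n := Nat.mul_pos hn₀ hmpos
  have : NeZero n := ⟨hnpos.ne'⟩
  have hnr := hpos n
  have hnη : 1 / (n : ℝ) < η := by
    rw [div_lt_comm₀ hnr hη]
    refine lt_of_lt_of_le hm ?_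
    exact_mod_cast Nat.le_mul_of_pos_left m hn₀
  -- approximation of labels
  set L : ℝ → Fin n := fun x => lab n (T₀.1 x) with hL
  have hLm : Measurable L := measurable_lab.comp T₀.1.measurable
  set ε₁ : ℝ := η / (4 * n) with hε₁
  have hε₁pos : 0 < ε₁ := by positivity
  obtain ⟨N₀, hN₀⟩ := exists_step_approx L hLm ε₁ hε₁pos
  set q := N₀ + 1 with hq
  have hqpos : 0 < q := by omega
  have hNpos : 0 < n * q := Nat.mul_pos hnpos hqpos
  have : NeZero (n * q) := ⟨hNpos.ne'⟩
  have hNr := hpos (n * q)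
  have hNN₀ : N₀ ≤ n * q := by
    calc N₀ ≤ q := by omega
      _ ≤ n * q := Nat.le_mul_of_pos_left q hnpos
  obtain ⟨g, hg⟩ := hN₀ (n * q) hNN₀
  -- counting
  set s : ℕ := ⌊ε₁ * (n * q : ℕ)⌋₊ with hs
  have hcount : ∀ b, (Finset.univ.filter fun i => g i = b).card ≤ q + s := by
    intro b
    have h1 : mu.real {x | g (lab (n * q) x) = b} =
        ((Finset.univ.filter fun i => g i = b).card : ℝ) / (n * q : ℕ) :=
      mu_lab (fun i => g i = b)
    have h2 : mu.real {x | L x = b} = 1 / n := by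
      have h3 : {x | L x = b} = T₀.1 ⁻¹' {y | lab n y = b} := rfl
      have h4 : MeasurableSet {y | lab n y = b} := measurable_lab (measurableSet_singleton b)
      rw [h3, measureReal_preimage T₀.2 h4, mu_lab (fun i => i = b)]
      congr 1
      have : (Finset.univ.filter fun i : Fin n => i = b) = {b} := by
        ext i; simp
      rw [this]; simp
    have h4 : mu.real {x | g (lab (n * q) x) = b} ≤ mu.real {x | L x = b} +
        mu.real {x | g (lab (n * q) x) ≠ L x} := by
      refine le_trans (measureReal_mono ?_) (measureReal_union_le _ _)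
      intro x hx
      by_cases hc : g (lab (n * q) x) = L x
      · left
        rw [mem_ofPred_eq, ← hc]
        exact hx
      · right
        exact hc
    rw [h1, h2] at h4
    have h5 : ((Finset.univ.filter fun i => g i = b).card : ℝ) ≤
        (1 / n + ε₁) * (n * q : ℕ) := by
      rw [div_le_iff₀ hNr] at h4
      refine le_trans h4 ?_
      gcongr
    have h6 : (1 / (n : ℝ) + ε₁) * (n * q : ℕ) = q + ε₁ * (n * q : ℕ) := by
      rw [add_mul]
      congr 1
      push_cast
      field_simp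
    rw [h6] at h5
    rcases Nat.le_total ((Finset.univ.filter fun i => g i = b).card) q with hle | hle
    · omega
    · obtain ⟨t, ht⟩ := Nat.exists_eq_add_of_le hle
      rw [ht] at h5 ⊢
      push_cast at h5
      have h7 : (t : ℝ) ≤ ε₁ * (n * q : ℕ) := by push_cast; linarith
      have h8 : t ≤ s := Nat.le_floor h7
      omega
  obtain ⟨ρ, hρ⟩ := exists_equiv_of_labels g s hcount
  set ρ' : Equiv.Perm (Fin (n * q)) := ρ.trans finProdFinEquiv with hρ'
  have hρ'div : ∀ i, (ρ' i).val / q = (ρ i).1.val := by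
    intro i
    rw [hρ']
    simp only [Equiv.trans_apply, finProdFinEquiv_apply_val]
    rw [Nat.add_mul_div_left _ _ hqpos, Nat.div_eq_of_lt (ρ i).2.2, zero_add]
  -- the cyclic enumeration
  obtain ⟨K, hK⟩ := exists_nat_gt (4 / η)
  have hKr : (0 : ℝ) < K := lt_trans (by positivity) hK
  have hKpos : 0 < K := by exact_mod_cast hKr
  have : NeZero ((n * q) * K) := ⟨(Nat.mul_pos hNpos hKpos).ne'⟩
  have hHr := hpos ((n * q) * K)
  have hKN : ∀ i : Fin ((n * q) * K), i.val / K < n * q := fun i => by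
    rw [Nat.div_lt_iff_lt_mul hKpos]; exact i.2
  have hbreak := cycE_break (K := K) ρ' hKpos hKN
  set e := cycE (K := K) ρ' with he
  refine ⟨(n * q) * K, inferInstance, e, ?_, ?_⟩
  · exact Dvd.dvd.mul_right (Dvd.dvd.mul_right (Dvd.intro _ rfl) _) _
  -- failing sets
  set FB : Set ℝ := {x | (e (e.symm (lab ((n * q) * K) x) + 1)).val / K ≠
    (ρ' ⟨(e (e.symm (lab ((n * q) * K) x))).val / K, hKN _⟩).val} with hFB
  have hFBm : mu.real FB ≤ η / 4 := by
    rw [hFB, mu_lab (fun i : Fin ((n * q) * K) => (e (e.symm i + 1)).val / K ≠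
      (ρ' ⟨(e (e.symm i)).val / K, hKN _⟩).val)]
    have hc : (Finset.univ.filter fun i : Fin ((n * q) * K) => (e (e.symm i + 1)).val / K ≠
      (ρ' ⟨(e (e.symm i)).val / K, hKN _⟩).val).card ≤ n * q := by
      refine le_trans ?_ hbreak
      apply Finset.card_le_card_of_injOn e.symm
      · intro i hi
        have := (Finset.mem_filter.mp (Finset.mem_coe.mp hi)).2
        apply Finset.mem_coe.mpr
        exact Finset.mem_filter.mpr ⟨Finset.mem_univ _, this⟩
      · exact e.symm.injective.injOn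
    rw [div_le_iff₀ hHr]
    have hc' : ((Finset.univ.filter fun i : Fin ((n * q) * K) => (e (e.symm i + 1)).val / K ≠
      (ρ' ⟨(e (e.symm i)).val / K, hKN _⟩).val).card : ℝ) ≤ (n * q : ℕ) := by
      exact_mod_cast hc
    refine le_trans hc' ?_
    have h1 : (1 : ℝ) ≤ η / 4 * K := by
      rw [div_lt_iff₀ hη] at hK
      linarith
    calc ((n * q : ℕ) : ℝ) = (n * q : ℕ) * 1 := (mul_one _).symm
      _ ≤ (n * q : ℕ) * (η / 4 * K) := by gcongr
      _ = η / 4 * ((n * q * K : ℕ) : ℝ) := by push_cast; ring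
  set FC : Set ℝ := {x | (ρ (lab (n * q) x)).1 ≠ g (lab (n * q) x)} with hFC
  have hFCm : mu.real FC ≤ η / 4 := by
    rw [hFC, mu_lab (fun i : Fin (n * q) => (ρ i).1 ≠ g i), div_le_iff₀ hNr]
    have h1 : ((Finset.univ.filter fun i => (ρ i).1 ≠ g i).card : ℝ) ≤ n * s := by
      exact_mod_cast hρ
    have h2 : (s : ℝ) ≤ ε₁ * (n * q : ℕ) := Nat.floor_le (by positivity)
    calc _ ≤ _ := h1
      _ ≤ n * (ε₁ * (n * q : ℕ)) := by gcongr
      _ = η / 4 * (n * q : ℕ) := by
        rw [hε₁]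
        field_simp
  set FA : Set ℝ := {x | g (lab (n * q) x) ≠ L x} with hFA
  have hFAm : mu.real FA ≤ η / 4 := by
    refine le_trans hg ?_
    rw [hε₁, div_le_div_iff₀ (by positivity) (by norm_num)]
    have : (1 : ℝ) ≤ n := by exact_mod_cast hnpos
    nlinarith
  have hsub : {x | η ≤ |iv (cyc e) x - T₀.1 x|} ⊆
      (((FA ∪ FB) ∪ FC) ∪ (Set.Ico (0 : ℝ) 1)ᶜ) ∪ (T₀.1 ⁻¹' (Set.Ico (0 : ℝ) 1)ᶜ) := by
    intro x hx
    by_contra hcon
    simp only [mem_union, mem_compl_iff, mem_preimage, not_or, not_not] at hcon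
    obtain ⟨⟨⟨⟨hA, hB⟩, hC⟩, hx0⟩, hTx0⟩ := hcon
    have hA' : g (lab (n * q) x) = L x := not_not.mp hA
    have hB' : (e (e.symm (lab ((n * q) * K) x) + 1)).val / K =
      (ρ' ⟨(e (e.symm (lab ((n * q) * K) x))).val / K, hKN _⟩).val := not_not.mp hB
    have hC' : (ρ (lab (n * q) x)).1 = g (lab (n * q) x) := not_not.mp hC
    have hy0 : iv (cyc e) x ∈ Set.Ico (0 : ℝ) 1 := ivF_mem _ hx0
    have hlabH : lab ((n * q) * K) (iv (cyc e) x) = e (e.symm (lab ((n * q) * K) x) + 1) :=
      lab_ivF _ hx0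
    have e1 : (lab (n * q) (iv (cyc e) x)).val = (ρ' (lab (n * q) x)).val := by
      rw [lab_div rfl hKpos hy0, hlabH, hB']
      congr 2
      apply Fin.ext
      rw [Equiv.apply_symm_apply]
      exact (lab_div rfl hKpos hx0).symm
    have e2 : lab n (iv (cyc e) x) = lab n (T₀.1 x) := by
      apply Fin.ext
      rw [lab_div rfl hqpos hy0, e1, hρ'div, hC', hA']
    have := abs_sub_lt_of_lab hy0 hTx0 e2
    have h2 : η ≤ |iv (cyc e) x - T₀.1 x| := hx
    linarith
  calc mu.real {x | η ≤ |iv (cyc e) x - T₀.1 x|} ≤ _ := measureReal_mono hsub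
    _ ≤ mu.real (((FA ∪ FB) ∪ FC) ∪ (Set.Ico (0 : ℝ) 1)ᶜ) +
        mu.real (T₀.1 ⁻¹' (Set.Ico (0 : ℝ) 1)ᶜ) := measureReal_union_le _ _
    _ ≤ (mu.real ((FA ∪ FB) ∪ FC) + mu.real (Set.Ico (0 : ℝ) 1)ᶜ) + 0 := by
        rw [mu_real_preimage_compl_Ico T₀.2]
        gcongr
        exact measureReal_union_le _ _
    _ ≤ ((mu.real (FA ∪ FB) + mu.real FC) + 0) + 0 := by
        rw [mu_real_compl_Ico]
        gcongr
        exact measureReal_union_le _ _
    _ ≤ (((mu.real FA + mu.real FB) + mu.real FC) + 0) + 0 := by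
        gcongr
        exact measureReal_union_le _ _
    _ ≤ η := by linarith

end Pool.Agent.H44.WH
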