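import Pool.Agent.H44.WH.Comb

/-!
The improvement move.
-/

set_option linter.unusedSectionVars false

open Finset

namespace Pool.Agent.H44.WH

section
variable {h H : ℕ} [NeZero h] [NeZero H] (C R : ℕ)

/-- the phase of the run containing `l` -/
def phase (h : ℕ) {H : ℕ} (R : ℕ) (l : ZMod H) : ZMod h :=
  if l.val / (R * h) < h then ((l.val / (R * h) : ℕ) : ZMod h) else 0

/-- the label map of the improvement move -/
def piI (h : ℕ) {H : ℕ} (R : ℕ) (l : ZMod H) : ZMod h := (l.val : ZMod h) + phase h R l

lemma rho_add (hd : h ∣ H) (l m : ZMod H) :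
    (((l + m).val : ℕ) : ZMod h) = (l.val : ZMod h) + (m.val : ZMod h) := by
  have := map_add (ZMod.castHom hd (ZMod h)) l m
  simp only [ZMod.castHom_apply] at this
  rw [ZMod.cast_eq_val, ZMod.cast_eq_val, ZMod.cast_eq_val] at this
  exact this

lemma rho_natCast (hd : h ∣ H) (n : ℕ) :
    ((((n : ZMod H)).val : ℕ) : ZMod h) = (n : ZMod h) := by
  have := map_natCast (ZMod.castHom hd (ZMod h)) n
  simp only [ZMod.castHom_apply] at this
  rw [ZMod.cast_eq_val] at this
  exact this

lemma rho_intCast (hd : h ∣ H) (n : ℤ) :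
    ((((n : ZMod H)).val : ℕ) : ZMod h) = (n : ZMod h) := by
  have := map_intCast (ZMod.castHom hd (ZMod h)) n
  simp only [ZMod.castHom_apply] at this
  rw [ZMod.cast_eq_val] at this
  exact this

/-- the value of the new permutation, as a natural number -/
def gI (h : ℕ) {H : ℕ} (R : ℕ) (σ : Equiv.Perm (ZMod h)) (l : ZMod H) : ℕ :=
  if l.val / (R * h) < h then
    (((l.val / (R * h) : ℕ) : ZMod h) + (σ (piI h R l) - piI h R l)).val * (R * h)
      + l.val % (R * h)
  else (l.val / h) * h + (σ (piI h R l)).val

variable {C R}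

lemma card_val_lt {H : ℕ} [NeZero H] (a : ℕ) :
    (univ.filter fun l : ZMod H => l.val < a).card ≤ a := by
  have : (univ.filter fun l : ZMod H => l.val < a).card ≤ (range a).card := by
    apply Finset.card_le_card_of_injOn (fun l => l.val)
    · intro l hl
      have := (mem_filter.mp (Finset.mem_coe.mp hl)).2
      simpa using this
    · exact (ZMod.val_injective H).injOn
  simpa using this

lemma piI_of_not {l : ZMod H} (hl : ¬ l.val / (R * h) < h) : piI h R l = (l.val : ZMod h) := by
  simp [piI, phase, hl]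

lemma piI_of_lt {l : ZMod H} (hl : l.val / (R * h) < h) :
    piI h R l = (l.val : ZMod h) + ((l.val / (R * h) : ℕ) : ZMod h) := by
  simp [piI, phase, hl]

lemma gI_of_lt {l : ZMod H} (σ : Equiv.Perm (ZMod h)) (hl : l.val / (R * h) < h) :
    gI h R σ l = (((l.val / (R * h) : ℕ) : ZMod h) + (σ (piI h R l) - piI h R l)).val * (R * h)
      + l.val % (R * h) := by
  simp [gI, hl]

lemma gI_of_not {l : ZMod H} (σ : Equiv.Perm (ZMod h)) (hl : ¬ l.val / (R * h) < h) :
    gI h R σ l = (l.val / h) * h + (σ (piI h R l)).val := by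
  simp [gI, hl]

lemma gI_div_lt (hR : 0 < R) {l : ZMod H} (σ : Equiv.Perm (ZMod h))
    (hl : l.val / (R * h) < h) : gI h R σ l / (R * h) =
      (((l.val / (R * h) : ℕ) : ZMod h) + (σ (piI h R l) - piI h R l)).val := by
  have hRh : 0 < R * h := Nat.mul_pos hR (NeZero.pos h)
  rw [gI_of_lt σ hl, mul_comm, Nat.mul_add_div hRh, Nat.div_eq_of_lt (Nat.mod_lt _ hRh), add_zero]

lemma gI_div_not {l : ZMod H} (σ : Equiv.Perm (ZMod h))
    (hl : ¬ l.val / (R * h) < h) : gI h R σ l / (R * h) = l.val / (R * h) := by
  have hh : 0 < h := NeZero.pos h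
  rw [mul_comm R h, ← Nat.div_div_eq_div_mul, ← Nat.div_div_eq_div_mul]
  rw [gI_of_not σ hl, mul_comm, Nat.mul_add_div hh, Nat.div_eq_of_lt (ZMod.val_lt _), add_zero]

lemma gI_lt (hC : 0 < C) (hR : 0 < R) (hH : H = (C * h * R) * h) (σ : Equiv.Perm (ZMod h))
    (l : ZMod H) : gI h R σ l < H := by
  have hRh : 0 < R * h := Nat.mul_pos hR (NeZero.pos h)
  have hH' : H = (C * h) * (R * h) := by rw [hH]; ring
  have key : gI h R σ l / (R * h) < C * h := by
    by_cases hl : l.val / (R * h) < h
    · rw [gI_div_lt hR σ hl]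
      have := ZMod.val_lt (((l.val / (R * h) : ℕ) : ZMod h) + (σ (piI h R l) - piI h R l))
      nlinarith
    · rw [gI_div_not σ hl, Nat.div_lt_iff_lt_mul hRh, ← hH']
      exact ZMod.val_lt l
  rw [Nat.div_lt_iff_lt_mul hRh, ← hH'] at key
  exact key

/-- the new permutation as a function -/
def sI (h : ℕ) {H : ℕ} (R : ℕ) (σ : Equiv.Perm (ZMod h)) (l : ZMod H) : ZMod H :=
  (gI h R σ l : ZMod H)

lemma sI_val (hC : 0 < C) (hR : 0 < R) (hH : H = (C * h * R) * h) (σ : Equiv.Perm (ZMod h))
    (l : ZMod H) : (sI h R σ l).val = gI h R σ l :=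
  ZMod.val_natCast_of_lt (gI_lt hC hR hH σ l)

lemma rho_mod (v : ℕ) : ((v % (R * h) : ℕ) : ZMod h) = (v : ZMod h) := by
  have : v = (R * h) * (v / (R * h)) + v % (R * h) := (Nat.div_add_mod v (R * h)).symm
  conv_rhs => rw [this]
  push_cast
  simp

lemma piI_sI (hC : 0 < C) (hR : 0 < R) (hH : H = (C * h * R) * h) (σ : Equiv.Perm (ZMod h))
    (l : ZMod H) : piI h R (sI h R σ l) = σ (piI h R l) := by
  have hv := sI_val hC hR hH σ l
  by_cases hl : l.val / (R * h) < h
  · have hd := gI_div_lt hR σ hl
    have hl2 : (sI h R σ l).val / (R * h) < h := by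
      rw [hv, hd]; exact ZMod.val_lt _
    rw [piI_of_lt hl2, hv, hd, ZMod.natCast_zmod_val, gI_of_lt σ hl]
    push_cast
    rw [rho_mod, piI_of_lt hl]
    simp only [ZMod.natCast_self, mul_zero, zero_add]
    ring
  · have hd := gI_div_not σ hl
    have hl2 : ¬ (sI h R σ l).val / (R * h) < h := by
      rw [hv, hd]; exact hl
    rw [piI_of_not hl2, hv, gI_of_not σ hl]
    push_cast
    simp

lemma div_h_mul (v : ℕ) : v / h * h + v % h = v := Nat.div_add_mod' v h

lemma val_mod_of_not {l : ZMod H} (hl : ¬ l.val / (R * h) < h) :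
    l.val % h = (piI h R l).val := by
  rw [piI_of_not hl, ZMod.val_natCast]

lemma sI_injective (hC : 0 < C) (hR : 0 < R) (hH : H = (C * h * R) * h)
    (σ : Equiv.Perm (ZMod h)) : Function.Injective (sI h R σ : ZMod H → ZMod H) := by
  intro l1 l2 heq
  have hpi : piI h R l1 = piI h R l2 := by
    have := congrArg (piI h R) heq
    rw [piI_sI hC hR hH, piI_sI hC hR hH] at this
    exact σ.injective this
  have hg : gI h R σ l1 = gI h R σ l2 := by
    rw [← sI_val hC hR hH σ l1, ← sI_val hC hR hH σ l2, heq]
  have hRh : 0 < R * h := Nat.mul_pos hR (NeZero.pos h)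
  by_cases a1 : l1.val / (R * h) < h
  · by_cases a2 : l2.val / (R * h) < h
    · have d := congrArg (fun x => x / (R * h)) hg
      rw [gI_div_lt hR σ a1, gI_div_lt hR σ a2, hpi] at d
      have d2 := ZMod.val_injective h d
      have d3 : ((l1.val / (R * h) : ℕ) : ZMod h) = ((l2.val / (R * h) : ℕ) : ZMod h) :=
        add_right_cancel d2
      have d4 := congrArg ZMod.val d3
      rw [ZMod.val_natCast_of_lt a1, ZMod.val_natCast_of_lt a2] at d4
      have m := congrArg (fun x => x % (R * h)) hg
      rw [gI_of_lt σ a1, gI_of_lt σ a2, Nat.mul_add_mod_self_right, Nat.mul_add_mod_self_right,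
        Nat.mod_mod, Nat.mod_mod] at m
      apply ZMod.val_injective H
      rw [← Nat.div_add_mod l1.val (R * h), ← Nat.div_add_mod l2.val (R * h), d4, m]
    · exfalso
      have d := congrArg (fun x => x / (R * h)) hg
      rw [gI_div_lt hR σ a1, gI_div_not σ a2] at d
      apply a2
      rw [← d]
      exact ZMod.val_lt _
  · by_cases a2 : l2.val / (R * h) < h
    · exfalso
      have d := congrArg (fun x => x / (R * h)) hg
      rw [gI_div_not σ a1, gI_div_lt hR σ a2] at d
      apply a1
      rw [d]
      exact ZMod.val_lt _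
    · rw [gI_of_not σ a1, gI_of_not σ a2, hpi] at hg
      have e : l1.val / h * h = l2.val / h * h := by omega
      apply ZMod.val_injective H
      rw [← div_h_mul (h := h) l1.val, ← div_h_mul (h := h) l2.val, e, val_mod_of_not a1,
        val_mod_of_not a2, hpi]

lemma sI_of_not {l : ZMod H} (σ : Equiv.Perm (ZMod h)) (hl : ¬ l.val / (R * h) < h) :
    sI h R σ l = l + ((dsp σ (piI h R l) : ℤ) : ZMod H) := by
  unfold sI
  rw [gI_of_not σ hl]
  have e2 : l.val = l.val / h * h + (piI h R l).val := by
    rw [← val_mod_of_not hl, div_h_mul]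
  have e : (l : ZMod H) = ((l.val / h * h : ℕ) : ZMod H) + (((piI h R l).val : ℕ) : ZMod H) := by
    rw [← Nat.cast_add, ← e2, ZMod.natCast_zmod_val]
  generalize piI h R l = j at *
  generalize l.val / h * h = c at *
  rw [e]
  unfold dsp
  push_cast
  ring

/-- the new permutation -/
noncomputable def sIperm (hC : 0 < C) (hR : 0 < R) (hH : H = (C * h * R) * h)
    (σ : Equiv.Perm (ZMod h)) : Equiv.Perm (ZMod H) :=
  Equiv.ofBijective (sI h R σ) (Finite.injective_iff_bijective.mp (sI_injective hC hR hH σ))

lemma sIperm_apply (hC : 0 < C) (hR : 0 < R) (hH : H = (C * h * R) * h)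
    (σ : Equiv.Perm (ZMod h)) (l : ZMod H) : sIperm hC hR hH σ l = sI h R σ l := rfl

lemma div_div_Rh (v : ℕ) : v / (R * h) = v / h / R := by
  rw [mul_comm R h, Nat.div_div_eq_div_mul]

/-- `l` is determined by its cycle and its label. -/
lemma eq_of_cycle_label {l1 l2 : ZMod H} (h1 : l1.val / h = l2.val / h)
    (h2 : piI h R l1 = piI h R l2) : l1 = l2 := by
  have hp : phase h R l1 = phase h R l2 := by
    unfold phase
    rw [div_div_Rh, div_div_Rh, h1]
  unfold piI at h2
  rw [hp] at h2
  have h3 : (l1.val : ZMod h) = (l2.val : ZMod h) := add_right_cancel h2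
  rw [ZMod.natCast_eq_natCast_iff'] at h3
  apply ZMod.val_injective H
  rw [← div_h_mul (h := h) l1.val, ← div_h_mul (h := h) l2.val, h1, h3]

lemma piI_balanced (hH : H = (C * h * R) * h) (j : ZMod h) :
    (univ.filter fun l : ZMod H => piI h R l = j).card = C * h * R := by
  have hle : ∀ j ∈ (univ : Finset (ZMod h)),
      (univ.filter fun l : ZMod H => piI h R l = j).card ≤ C * h * R := by
    intro j _
    have : (univ.filter fun l : ZMod H => piI h R l = j).card ≤ (range (C * h * R)).card := by
      apply Finset.card_le_card_of_injOn (fun l => l.val / h)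
      · intro l _
        simp only [coe_range, Set.mem_Iio]
        rw [Nat.div_lt_iff_lt_mul (NeZero.pos h), ← hH]
        exact ZMod.val_lt l
      · intro l1 hl1 l2 hl2 heq
        have e1 := (mem_filter.mp (Finset.mem_coe.mp hl1)).2
        have e2 := (mem_filter.mp (Finset.mem_coe.mp hl2)).2
        exact eq_of_cycle_label heq (e1.trans e2.symm)
    simpa using this
  have hsum : ∑ j : ZMod h, (univ.filter fun l : ZMod H => piI h R l = j).card =
      ∑ _j : ZMod h, C * h * R := by
    rw [← card_eq_sum_card_fiberwise (f := fun l : ZMod H => piI h R l) (s := univ) (t := univ)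
      (fun _ _ => mem_univ _)]
    rw [card_univ, ZMod.card, sum_const, card_univ, ZMod.card, smul_eq_mul, hH]
    ring
  exact (sum_eq_sum_iff_of_le hle).mp hsum j (mem_univ j)

lemma card_nonactive (hH : H = (C * h * R) * h) (j : ZMod h) :
    (univ.filter fun l : ZMod H => ¬ l.val / (R * h) < h ∧ piI h R l = j).card
      ≤ (C * h - h) * R := by
  have : (univ.filter fun l : ZMod H => ¬ l.val / (R * h) < h ∧ piI h R l = j).card
      ≤ (Ico (h * R) (C * h * R)).card := by
    apply Finset.card_le_card_of_injOn (fun l => l.val / h)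
    · intro l hl
      have hl' := (mem_filter.mp (Finset.mem_coe.mp hl)).2
      simp only [coe_Ico, Set.mem_Ico]
      constructor
      · by_contra hcon
        push Not at hcon
        apply hl'.1
        rw [div_div_Rh]
        exact Nat.div_lt_of_lt_mul (by rw [mul_comm]; exact hcon)
      · rw [Nat.div_lt_iff_lt_mul (NeZero.pos h), ← hH]
        exact ZMod.val_lt l
    · intro l1 hl1 l2 hl2 heq
      have e1 := (mem_filter.mp (Finset.mem_coe.mp hl1)).2.2
      have e2 := (mem_filter.mp (Finset.mem_coe.mp hl2)).2.2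
      exact eq_of_cycle_label heq (e1.trans e2.symm)
  rw [Nat.card_Ico] at this
  rw [Nat.sub_mul]
  exact this

lemma card_active (hR : 0 < R) :
    (univ.filter fun l : ZMod H => l.val / (R * h) < h).card ≤ h * (R * h) := by
  have hRh : 0 < R * h := Nat.mul_pos hR (NeZero.pos h)
  have : (univ.filter fun l : ZMod H => l.val / (R * h) < h) =
      univ.filter fun l : ZMod H => l.val < h * (R * h) := by
    ext l
    simp only [mem_filter, mem_univ, true_and]
    rw [Nat.div_lt_iff_lt_mul hRh]
  rw [this]
  exact card_val_lt _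

lemma hdvd (hH : H = (C * h * R) * h) : h ∣ H := ⟨C * h * R, by rw [hH]; ring⟩

lemma Bset_piI (hR : 0 < R) (hH : H = (C * h * R) * h) :
    (Bset (piI h R : ZMod H → ZMod h)).card ≤ C * h := by
  have hRh : 0 < R * h := Nat.mul_pos hR (NeZero.pos h)
  have hH' : H = (C * h) * (R * h) := by rw [hH]; ring
  have hHpos : 0 < H := NeZero.pos H
  have key : ∀ l ∈ Bset (piI h R : ZMod H → ZMod h), (R * h) ∣ l.val + 1 := by
    intro l hl
    by_contra hnd
    simp only [Bset, mem_filter, mem_univ, true_and] at hl
    apply hl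
    have hne : l.val + 1 ≠ H := by
      intro he
      apply hnd
      rw [he, hH']
      exact Dvd.intro_left _ rfl
    have hlt : l.val + 1 < H := lt_of_le_of_ne (ZMod.val_lt l) hne
    have hval : (l + 1).val = l.val + 1 := by
      have e : l + 1 = ((l.val + 1 : ℕ) : ZMod H) := by
        push_cast
        rw [ZMod.natCast_zmod_val]
      rw [e, ZMod.val_natCast_of_lt hlt]
    have hdiv : (l + 1).val / (R * h) = l.val / (R * h) := by
      rw [hval, Nat.succ_div, if_neg hnd, add_zero]
    unfold piI phase
    rw [hdiv, hval]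
    push_cast
    ring
  have : (Bset (piI h R : ZMod H → ZMod h)).card ≤ (range (C * h)).card := by
    apply Finset.card_le_card_of_injOn (fun l => (l.val + 1) / (R * h) - 1)
    · intro l hl
      simp only [coe_range, Set.mem_Iio]
      obtain ⟨c, hc⟩ := key l (Finset.mem_coe.mp hl)
      rw [hc, Nat.mul_div_cancel_left _ hRh]
      have h1 : l.val + 1 ≤ H := ZMod.val_lt l
      rw [hc, hH', mul_comm] at h1
      have h2 := Nat.le_of_mul_le_mul_right h1 hRh
      have h3 : 0 < c := by
        rcases Nat.eq_zero_or_pos c with h0 | h0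
        · rw [h0] at hc; simp at hc
        · exact h0
      omega
    · intro l1 hl1 l2 hl2 heq
      obtain ⟨c1, hc1⟩ := key l1 (Finset.mem_coe.mp hl1)
      obtain ⟨c2, hc2⟩ := key l2 (Finset.mem_coe.mp hl2)
      have heq' : (l1.val + 1) / (R * h) - 1 = (l2.val + 1) / (R * h) - 1 := heq
      rw [hc1, hc2, Nat.mul_div_cancel_left _ hRh, Nat.mul_div_cancel_left _ hRh] at heq'
      have p1 : 0 < c1 := by
        rcases Nat.eq_zero_or_pos c1 with h0 | h0
        · rw [h0] at hc1; simp at hc1
        · exact h0
      have p2 : 0 < c2 := by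
        rcases Nat.eq_zero_or_pos c2 with h0 | h0
        · rw [h0] at hc2; simp at hc2
        · exact h0
      have : c1 = c2 := by omega
      apply ZMod.val_injective H
      rw [this] at hc1
      omega
  simpa using this

/-- change of label under a displacement by a multiple of the run length -/
lemma cN_active (hR : 0 < R) (hH : H = (C * h * R) * h) (ζ : ZMod h → ℕ) (k : ℤ) :
    cN (fun l : ZMod H => ζ (piI h R l)) ((k * ((R * h : ℕ) : ℤ) : ℤ) : ZMod H)
      ≤ 2 * (h * (R * h)) := by
  classical
  set τ : ZMod H := ((k * ((R * h : ℕ) : ℤ) : ℤ) : ZMod H) with hτ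
  have hA0 : cN (fun l : ZMod H => ζ (piI h R l)) τ =
    (univ.filter fun m : ZMod H => ζ (piI h R (m + τ)) ≠ ζ (piI h R m)).card := rfl
  rw [hA0]
  have hsub : (univ.filter fun m : ZMod H => ζ (piI h R (m + τ)) ≠ ζ (piI h R m)) ⊆
      (univ.filter fun l : ZMod H => l.val / (R * h) < h) ∪
      (univ.filter fun l : ZMod H => (l + τ).val / (R * h) < h) := by
    intro m hm
    simp only [mem_filter, mem_univ, true_and] at hm
    simp only [mem_union, mem_filter, mem_univ, true_and]
    by_contra hcon
    push Not at hcon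
    obtain ⟨h1, h2⟩ := hcon
    apply hm
    rw [piI_of_not (not_lt.mpr h1), piI_of_not (not_lt.mpr h2), rho_add (hdvd hH)]
    have : ((τ.val : ℕ) : ZMod h) = 0 := by
      rw [hτ, rho_intCast (hdvd hH)]
      push_cast
      simp
    rw [this, add_zero]
  have c1 := card_active (H := H) (h := h) hR
  have c2 : (univ.filter fun l : ZMod H => (l + τ).val / (R * h) < h).card ≤ h * (R * h) := by
    refine le_trans ?_ c1
    apply Finset.card_le_card_of_injOn (fun l => l + τ)
    · intro l hl
      simpa using hl
    · exact (add_left_injective τ).injOn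
  have c3 := card_le_card hsub
  have c4 := card_union_le (univ.filter fun l : ZMod H => l.val / (R * h) < h)
    (univ.filter fun l : ZMod H => (l + τ).val / (R * h) < h)
  omega

/-- change of label under a small displacement -/
lemma cN_small {π : ZMod H → ZMod h} {q : ℕ}
    (hbal : ∀ j, (univ.filter fun l => π l = j).card = q)
    (ζ : ZMod h → ℕ) (s : ℤ) (h1 : s < h) (h2 : -(h : ℤ) < s) :
    cN (fun l : ZMod H => ζ (π l)) (s : ZMod H) ≤
      q * cN ζ (s : ZMod h) + 2 * h * (Bset π).card := by
  classical
  set A0 := univ.filter fun m : ZMod H => ζ (π (m + s)) ≠ ζ (π m) with hA0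
  set A1 := univ.filter fun m : ZMod H => ζ (π m + s) ≠ ζ (π m) with hA1
  set A3 := univ.filter fun l : ZMod H => ∃ i < h, l + (i : ZMod H) ∈ Bset π with hA3
  set A4 := univ.filter fun l : ZMod H => ∃ i < h, l - ((i : ZMod H) + 1) ∈ Bset π with hA4
  have hsub : A0 ⊆ (A1 ∪ A3) ∪ A4 := by
    intro l hl
    simp only [hA0, mem_filter, mem_univ, true_and] at hl
    simp only [hA1, hA3, hA4, mem_union, mem_filter, mem_univ, true_and]
    by_contra hcon
    push Not at hcon
    obtain ⟨⟨g1, g3⟩, g4⟩ := hcon
    apply hl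
    rw [pi_add_int π l h s h1 h2 g3 g4, g1]
  have c1 : A1.card = q * cN ζ (s : ZMod h) :=
    card_balanced π q hbal (fun j => ζ (j + s) ≠ ζ j)
  have c3 : A3.card ≤ h * (Bset π).card :=
    card_exists_le (Bset π) h (fun i l => l + (i : ZMod H)) fun i => add_left_injective _
  have c4 : A4.card ≤ h * (Bset π).card :=
    card_exists_le (Bset π) h (fun i l => l - ((i : ZMod H) + 1)) fun i => sub_left_injective
  have h0 : cN (fun l : ZMod H => ζ (π l)) (s : ZMod H) = A0.card := rfl
  have hc := card_le_card hsub
  have u1 := card_union_le (A1 ∪ A3) A4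
  have u2 := card_union_le A1 A3
  rw [h0, mul_assoc, two_mul]
  omega

/-- the full-period estimate of the improvement move -/
lemma QN_imove (hC : 0 < C) (hR : 0 < R) (hH : H = (C * h * R) * h)
    (σ : Equiv.Perm (ZMod h)) (ζ : ZMod h → ℕ) :
    QN (sIperm hC hR hH σ) (fun l : ZMod H => ζ (piI h R l)) ≤
      (h * (R * h)) * (2 * (h * (R * h))) +
      (C * h - h) * R * ((C * h * R) * QN σ ζ + 2 * h * h * (C * h)) := by
  classical
  unfold QN
  rw [← sum_filter_add_sum_filter_not univ (fun l : ZMod H => l.val / (R * h) < h)]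
  apply Nat.add_le_add
  · -- active part
    calc _ ≤ ∑ l ∈ univ.filter (fun l : ZMod H => l.val / (R * h) < h), 2 * (h * (R * h)) := by
          apply sum_le_sum
          intro l hl
          have hl' := (mem_filter.mp hl).2
          rw [sIperm_apply]
          have e : sI h R σ l - l = (((((((l.val / (R * h) : ℕ) : ZMod h) +
              (σ (piI h R l) - piI h R l)).val : ℤ) - ((l.val / (R * h) : ℕ) : ℤ)) *
              ((R * h : ℕ) : ℤ) : ℤ) : ZMod H) := by
            have e1 : (l : ZMod H) = ((R * h * (l.val / (R * h)) + l.val % (R * h) : ℕ) :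
                ZMod H) := by
              rw [Nat.div_add_mod, ZMod.natCast_zmod_val]
            unfold sI
            rw [gI_of_lt σ hl']
            generalize (((l.val / (R * h) : ℕ) : ZMod h) + (σ (piI h R l) - piI h R l)).val = t'
              at *
            generalize l.val / (R * h) = t at *
            generalize l.val % (R * h) = u at *
            rw [e1]
            push_cast
            ring
          rw [e]
          exact cN_active hR hH ζ _
      _ = (univ.filter (fun l : ZMod H => l.val / (R * h) < h)).card * (2 * (h * (R * h))) := by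
          rw [sum_const, smul_eq_mul]
      _ ≤ _ := Nat.mul_le_mul_right _ (card_active hR)
  · -- non active part
    calc _ ≤ ∑ l ∈ univ.filter (fun l : ZMod H => ¬ l.val / (R * h) < h),
            ((C * h * R) * cN ζ (σ (piI h R l) - piI h R l) + 2 * h * (C * h)) := by
          apply sum_le_sum
          intro l hl
          have hl' := (mem_filter.mp hl).2
          rw [sIperm_apply, sI_of_not σ hl', add_sub_cancel_left]
          have h1 := cN_small (π := (piI h R : ZMod H → ZMod h)) (piI_balanced hH) ζ
            (dsp σ (piI h R l)) (dsp_lt _ _) (neg_lt_dsp _ _)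
          rw [dsp_cast] at h1
          have h2 := Bset_piI (H := H) hR hH
          calc _ ≤ _ := h1
            _ ≤ _ := Nat.add_le_add_left (Nat.mul_le_mul_left _ h2) _
      _ = ∑ j : ZMod h, ∑ l ∈ (univ.filter (fun l : ZMod H => ¬ l.val / (R * h) < h)).filter
            (fun l => piI h R l = j),
            ((C * h * R) * cN ζ (σ (piI h R l) - piI h R l) + 2 * h * (C * h)) := by
          rw [sum_fiberwise_of_maps_to (fun _ _ => mem_univ _)]
      _ = ∑ j : ZMod h, (univ.filter fun l : ZMod H => ¬ l.val / (R * h) < h ∧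
            piI h R l = j).card * ((C * h * R) * cN ζ (σ j - j) + 2 * h * (C * h)) := by
          refine sum_congr rfl fun j _ => ?_
          rw [filter_filter, card_eq_sum_ones, sum_mul]
          refine sum_congr rfl fun l hl => ?_
          rw [(mem_filter.mp hl).2.2, one_mul]
      _ ≤ ∑ j : ZMod h, (C * h - h) * R * ((C * h * R) * cN ζ (σ j - j) + 2 * h * (C * h)) :=
          sum_le_sum fun j _ => Nat.mul_le_mul_right _ (card_nonactive hH j)
      _ = _ := by
          rw [← mul_sum, sum_add_distrib, ← mul_sum, sum_const, card_univ, ZMod.card,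
            smul_eq_mul]
          ring

end

end Pool.Agent.H44.WH
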