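import Pool.Agent.H44.WH.Lift
import Pool.Agent.H44.WH.IMove

/-!
Real valued estimates for one step.
-/

set_option linter.unusedSectionVars false

open Finset

namespace Pool.Agent.H44.WH

/-- average proportion of changed labels over times `1..N`. -/
noncomputable def AE {H : ℕ} [NeZero H] (σ : Equiv.Perm (ZMod H)) (ζ : ZMod H → ℕ) (N : ℕ) : ℝ :=
  (∑ n ∈ Icc 1 N, (eN σ ζ (n : ZMod H) : ℝ)) / (N * H)

/-- average proportion of changed labels over a full period. -/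
noncomputable def QR {H : ℕ} [NeZero H] (σ : Equiv.Perm (ZMod H)) (ζ : ZMod H → ℕ) : ℝ :=
  (QN σ ζ : ℝ) / (H * H)

section
variable {h H : ℕ} [NeZero h] [NeZero H]

lemma cast_pos_of_neZero (h : ℕ) [NeZero h] : (0 : ℝ) < (h : ℝ) := by
  exact_mod_cast NeZero.pos h

lemma eN_le_card (σ : Equiv.Perm (ZMod H)) (ζ : ZMod H → ℕ) (n : ZMod H) : eN σ ζ n ≤ H := by
  unfold eN
  calc _ ≤ (univ : Finset (ZMod H)).card := card_filter_le _ _
    _ = H := by rw [card_univ, ZMod.card]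

lemma QR_le_one (σ : Equiv.Perm (ZMod H)) (ζ : ZMod H → ℕ) : QR σ ζ ≤ 1 := by
  unfold QR
  have hp := cast_pos_of_neZero H
  rw [div_le_one (by positivity), QN_eq_sum]
  have : ∑ n : ZMod H, eN σ ζ n ≤ H * H := by
    calc _ ≤ ∑ _n : ZMod H, H := sum_le_sum fun n _ => eN_le_card σ ζ n
      _ = H * H := by rw [sum_const, card_univ, ZMod.card, smul_eq_mul]
  exact_mod_cast this

lemma QR_nonneg (σ : Equiv.Perm (ZMod H)) (ζ : ZMod H → ℕ) : 0 ≤ QR σ ζ := by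
  unfold QR; positivity

lemma AE_nonneg (σ : Equiv.Perm (ZMod H)) (ζ : ZMod H → ℕ) (N : ℕ) : 0 ≤ AE σ ζ N := by
  unfold AE; positivity

/-- pointwise bound gives a bound of averages -/
lemma AE_le_of_pointwise (σ : Equiv.Perm (ZMod h)) (ζ : ZMod h → ℕ)
    (σ' : Equiv.Perm (ZMod H)) (ζ' : ZMod H → ℕ) (N : ℕ) (c : ℝ) (hc : 0 ≤ c)
    (hp : ∀ n ≤ N, (eN σ' ζ' (n : ZMod H) : ℝ) / H ≤ (eN σ ζ (n : ZMod h) : ℝ) / h + c) :
    AE σ' ζ' N ≤ AE σ ζ N + c := by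
  rcases Nat.eq_zero_or_pos N with h0 | h0
  · subst h0
    simp [AE, hc]
  have hN : (0 : ℝ) < N := by exact_mod_cast h0
  have hHp := cast_pos_of_neZero H
  have hhp := cast_pos_of_neZero h
  have e1 : AE σ' ζ' N = (∑ n ∈ Icc 1 N, (eN σ' ζ' (n : ZMod H) : ℝ) / H) / N := by
    unfold AE
    rw [← sum_div, div_div, mul_comm (H : ℝ)]
  have e2 : AE σ ζ N = (∑ n ∈ Icc 1 N, (eN σ ζ (n : ZMod h) : ℝ) / h) / N := by
    unfold AE
    rw [← sum_div, div_div, mul_comm (h : ℝ)]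
  rw [e1, e2, div_le_iff₀ hN, add_mul, div_mul_cancel₀ _ hN.ne']
  calc ∑ n ∈ Icc 1 N, (eN σ' ζ' (n : ZMod H) : ℝ) / H
      ≤ ∑ n ∈ Icc 1 N, ((eN σ ζ (n : ZMod h) : ℝ) / h + c) :=
        sum_le_sum fun n hn => hp n (mem_Icc.mp hn).2
    _ = ∑ n ∈ Icc 1 N, (eN σ ζ (n : ZMod h) : ℝ) / h + c * N := by
        rw [sum_add_distrib, sum_const, Nat.card_Icc, nsmul_eq_mul]
        simp
        ring

/-- real version of the short time estimate -/
lemma short_real (π : ZMod H → ZMod h) (q : ℕ) (hH : H = q * h)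
    (hbal : ∀ j, (univ.filter fun l => π l = j).card = q)
    (σ : Equiv.Perm (ZMod h)) (σ' : Equiv.Perm (ZMod H)) (ζ : ZMod h → ℕ) (n : ℕ) (β δ : ℝ)
    (hβ : ((Bset π).card : ℝ) ≤ β * H)
    (hδ : (((univ.filter fun l => π (σ' l) ≠ σ (π l)).card : ℕ) : ℝ) ≤ δ * H) :
    (eN σ' (fun l => ζ (π l)) (n : ZMod H) : ℝ) / H ≤
      (eN σ ζ (n : ZMod h) : ℝ) / h + (δ + 2 * n * β) := by
  have hHp := cast_pos_of_neZero H
  have hhp := cast_pos_of_neZero h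
  have h1 := short_time π q hbal σ σ' ζ n
  have h2 : (eN σ' (fun l => ζ (π l)) (n : ZMod H) : ℝ) ≤ q * (eN σ ζ (n : ZMod h) : ℝ) +
      (((univ.filter fun l => π (σ' l) ≠ σ (π l)).card : ℕ) : ℝ) +
      2 * n * ((Bset π).card : ℝ) := by exact_mod_cast h1
  rw [div_le_iff₀ hHp]
  have h3 : 2 * (n : ℝ) * ((Bset π).card : ℝ) ≤ 2 * n * (β * H) :=
    mul_le_mul_of_nonneg_left hβ (by positivity)
  have h4 : (H : ℝ) = q * h := by rw [hH]; push_cast; ring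
  have h5 : (eN σ ζ (n : ZMod h) : ℝ) / h * H = q * (eN σ ζ (n : ZMod h) : ℝ) := by
    rw [h4]; field_simp
  calc (eN σ' (fun l => ζ (π l)) (n : ZMod H) : ℝ) ≤ _ := h2
    _ ≤ q * (eN σ ζ (n : ZMod h) : ℝ) + δ * H + 2 * n * (β * H) := by linarith
    _ = _ := by rw [add_mul, h5]; ring

/-- real version of the long time estimate -/
lemma long_real (π : ZMod H → ZMod h) (q : ℕ) (hH : H = q * h)
    (hbal : ∀ j, (univ.filter fun l => π l = j).card = q)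
    (σ : Equiv.Perm (ZMod h)) (σ' : Equiv.Perm (ZMod H)) (ζ : ZMod h → ℕ)
    (G : Finset (ZMod H)) (hG : ∀ l ∈ G, σ' l = l + ((dsp σ (π l) : ℤ) : ZMod H))
    (N : ℕ) (hN : 0 < N) (β γ : ℝ) (hβ : ((Bset π).card : ℝ) ≤ β * H)
    (hγ : ((Gᶜ).card : ℝ) ≤ γ * H) :
    AE σ' (fun l => ζ (π l)) N ≤ (1 + h / N) * (γ + QR σ ζ + 3 * h * β) := by
  have hHp := cast_pos_of_neZero H
  have hhp := cast_pos_of_neZero h
  have hNp : (0 : ℝ) < N := by exact_mod_cast hN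
  have h1 := sum_ext π q hbal σ σ' ζ G hG N
  set W : ℕ := h * (Gᶜ).card + q * QN σ ζ + 3 * h * h * (Bset π).card with hW
  have h0 : ∑ n ∈ Icc 1 N, eN σ' (fun l => ζ (π l)) ((n : ℕ) : ZMod H) ≤
      ∑ n ∈ range (N + 1), eN σ' (fun l => ζ (π l)) ((n : ℕ) : ZMod H) := by
    apply sum_le_sum_of_subset
    intro n hn
    have := mem_Icc.mp hn
    exact mem_range.mpr (by omega)
  have h2 : (∑ n ∈ Icc 1 N, (eN σ' (fun l => ζ (π l)) ((n : ℕ) : ZMod H) : ℝ)) ≤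
      ((N / h : ℕ) + 1 : ℝ) * (W : ℝ) := by
    have := le_trans h0 h1
    exact_mod_cast this
  have h3 : ((N / h : ℕ) : ℝ) ≤ (N : ℝ) / h := Nat.cast_div_le
  have h4 : (H : ℝ) = q * h := by rw [hH]; push_cast; ring
  have hqp : (0 : ℝ) < q := by
    have : (0 : ℝ) < q * h := by rw [← h4]; exact hHp
    exact pos_of_mul_pos_left this hhp.le
  have hWr : (W : ℝ) ≤ h * (γ * H) + q * QR σ ζ * (h * h) + 3 * h * h * (β * H) := by
    rw [hW]
    push_cast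
    have e : (QN σ ζ : ℝ) = QR σ ζ * (h * h) := by
      unfold QR; field_simp
    rw [e]
    have a1 : (h : ℝ) * ((Gᶜ).card : ℝ) ≤ h * (γ * H) := mul_le_mul_of_nonneg_left hγ hhp.le
    have a2 : 3 * (h : ℝ) * h * ((Bset π).card : ℝ) ≤ 3 * h * h * (β * H) :=
      mul_le_mul_of_nonneg_left hβ (by positivity)
    linarith
  have hWeq : h * (γ * H) + q * QR σ ζ * (h * h) + 3 * h * h * (β * H)
      = (h * H) * (γ + QR σ ζ + 3 * h * β) := by
    rw [h4]; ring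
  rw [hWeq] at hWr
  unfold AE
  rw [div_le_iff₀ (by positivity)]
  calc _ ≤ ((N / h : ℕ) + 1 : ℝ) * (W : ℝ) := h2
    _ ≤ ((N : ℝ) / h + 1) * ((h * H) * (γ + QR σ ζ + 3 * h * β)) := by
        apply mul_le_mul (by linarith) hWr (by positivity) (by positivity)
    _ = _ := by field_simp

/-- real version of the full period estimate -/
lemma QR_ext (π : ZMod H → ZMod h) (q : ℕ) (hH : H = q * h)
    (hbal : ∀ j, (univ.filter fun l => π l = j).card = q)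
    (σ : Equiv.Perm (ZMod h)) (σ' : Equiv.Perm (ZMod H)) (ζ : ZMod h → ℕ)
    (G : Finset (ZMod H)) (hG : ∀ l ∈ G, σ' l = l + ((dsp σ (π l) : ℤ) : ZMod H))
    (β γ : ℝ) (hβ : ((Bset π).card : ℝ) ≤ β * H) (hγ : ((Gᶜ).card : ℝ) ≤ γ * H) :
    QR σ' (fun l => ζ (π l)) ≤ γ + QR σ ζ + 3 * h * β := by
  have hHp := cast_pos_of_neZero H
  have hhp := cast_pos_of_neZero h
  have h1 := QN_ext π q hH hbal σ σ' ζ G hG
  have h4 : (H : ℝ) = q * h := by rw [hH]; push_cast; ring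
  have hqp : (0 : ℝ) < q := by
    have : (0 : ℝ) < q * h := by rw [← h4]; exact hHp
    exact pos_of_mul_pos_left this hhp.le
  have h2 : (QN σ' (fun l => ζ (π l)) : ℝ) ≤
      q * (h * ((Gᶜ).card : ℝ) + q * QN σ ζ + 3 * h * h * ((Bset π).card : ℝ)) := by
    exact_mod_cast h1
  have e : (QN σ ζ : ℝ) = QR σ ζ * (h * h) := by
    unfold QR; field_simp
  rw [e] at h2
  have a1 : (h : ℝ) * ((Gᶜ).card : ℝ) ≤ h * (γ * H) := mul_le_mul_of_nonneg_left hγ hhp.le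
  have a2 : 3 * (h : ℝ) * h * ((Bset π).card : ℝ) ≤ 3 * h * h * (β * H) :=
    mul_le_mul_of_nonneg_left hβ (by positivity)
  have h3 : (QN σ' (fun l => ζ (π l)) : ℝ) ≤
      q * (h * (γ * H) + q * (QR σ ζ * (h * h)) + 3 * h * h * (β * H)) :=
    le_trans h2 (mul_le_mul_of_nonneg_left (by linarith) hqp.le)
  unfold QR
  rw [div_le_iff₀ (by positivity)]
  calc _ ≤ _ := h3
    _ = _ := by
      unfold QR
      rw [h4]
      field_simp

/-- real version of the full period estimate of the improvement move -/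
lemma QR_imove {C R : ℕ} (hC : 0 < C) (hR : 0 < R) (hH : H = (C * h * R) * h)
    (σ : Equiv.Perm (ZMod h)) (ζ : ZMod h → ℕ) :
    QR (sIperm hC hR hH σ) (fun l : ZMod H => ζ (piI h R l)) ≤
      (1 - 1 / C) * QR σ ζ + 2 / (C * C) + 2 / R := by
  have hHp := cast_pos_of_neZero H
  have hhp := cast_pos_of_neZero h
  have hCp : (0 : ℝ) < C := by exact_mod_cast hC
  have hRp : (0 : ℝ) < R := by exact_mod_cast hR
  have h1 := QN_imove hC hR hH σ ζ
  have hle : h ≤ C * h := Nat.le_mul_of_pos_left h hC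
  have h2 : (QN (sIperm hC hR hH σ) (fun l : ZMod H => ζ (piI h R l)) : ℝ) ≤
      ((h * (R * h)) * (2 * (h * (R * h))) : ℝ) +
      ((C * h - h : ℕ) : ℝ) * R * ((C * h * R) * (QN σ ζ : ℝ) + 2 * h * h * (C * h)) := by
    exact_mod_cast h1
  rw [Nat.cast_sub hle] at h2
  push_cast at h2
  have e : (QN σ ζ : ℝ) = QR σ ζ * (h * h) := by
    unfold QR; field_simp
  rw [e] at h2
  have h4 : (H : ℝ) = C * h * R * h := by rw [hH]; push_cast; ring
  unfold QR at h2 ⊢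
  rw [div_le_iff₀ (by positivity)]
  refine le_trans h2 ?_
  rw [h4]
  have hC1 : (1 : ℝ) ≤ C := by exact_mod_cast hC
  have key : ((1 - 1 / (C : ℝ)) * ((QN σ ζ : ℝ) / (h * h)) + 2 / (C * C) + 2 / R) *
      (C * h * R * h * (C * h * R * h)) -
      ((h * (R * h)) * (2 * (h * (R * h))) + (C * h - h) * R *
        (C * h * R * ((QN σ ζ : ℝ) / (h * h) * (h * h)) + 2 * h * h * (C * h))) =
      2 * C * R * h ^ 4 := by
    field_simp
    ring
  have : (0 : ℝ) ≤ 2 * C * R * h ^ 4 := by positivity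
  linarith

lemma mem_nonactive {C R : ℕ} (hC : 0 < C) (hR : 0 < R) (hH : H = (C * h * R) * h)
    (σ : Equiv.Perm (ZMod h)) :
    ∀ l ∈ (univ.filter fun l : ZMod H => ¬ l.val / (R * h) < h),
      sIperm hC hR hH σ l = l + ((dsp σ (piI h R l) : ℤ) : ZMod H) := by
  intro l hl
  rw [sIperm_apply]
  exact sI_of_not σ (mem_filter.mp hl).2

lemma card_nonactive_compl {C R : ℕ} (hC : 0 < C) (hR : 0 < R) (hH : H = (C * h * R) * h) :
    (((univ.filter fun l : ZMod H => ¬ l.val / (R * h) < h)ᶜ).card : ℝ) ≤ (1 / C) * H := by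
  have hhp := cast_pos_of_neZero h
  have hCp : (0 : ℝ) < C := by exact_mod_cast hC
  have h1 : (univ.filter fun l : ZMod H => ¬ l.val / (R * h) < h)ᶜ =
      univ.filter fun l : ZMod H => l.val / (R * h) < h := by
    ext l
    simp
  rw [h1]
  have h2 := card_active (H := H) (h := h) hR
  have h3 : (((univ.filter fun l : ZMod H => l.val / (R * h) < h).card : ℕ) : ℝ) ≤
      h * (R * h) := by exact_mod_cast h2
  refine le_trans h3 (le_of_eq ?_)
  rw [hH]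
  push_cast
  field_simp

lemma Bset_piI_real {C R : ℕ} (hC : 0 < C) (hR : 0 < R) (hH : H = (C * h * R) * h) :
    ((Bset (piI h R : ZMod H → ZMod h)).card : ℝ) ≤ (1 / (R * h)) * H := by
  have hhp := cast_pos_of_neZero h
  have hRp : (0 : ℝ) < R := by exact_mod_cast hR
  have h2 := Bset_piI (H := H) hR hH
  have h3 : ((Bset (piI h R : ZMod H → ZMod h)).card : ℝ) ≤ C * h := by exact_mod_cast h2
  refine le_trans h3 (le_of_eq ?_)
  rw [hH]
  push_cast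
  field_simp

/-- composition of label maps: breaks -/
lemma Bset_comp {H' : ℕ} [NeZero H'] (π₁ : ZMod H → ZMod h) (π₂ : ZMod H' → ZMod H) (q : ℕ)
    (hH' : H' = q * H) (hbal : ∀ j, (univ.filter fun l => π₂ l = j).card = q) (β₁ β₂ : ℝ)
    (h1 : ((Bset π₁).card : ℝ) ≤ β₁ * H) (h2 : ((Bset π₂).card : ℝ) ≤ β₂ * H') :
    ((Bset (fun l => π₁ (π₂ l))).card : ℝ) ≤ (β₁ + β₂) * H' := by
  classical
  have hsub : Bset (fun l => π₁ (π₂ l)) ⊆ (univ.filter fun l => π₂ l ∈ Bset π₁) ∪ Bset π₂ := by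
    intro l hl
    simp only [Bset, mem_filter, mem_univ, true_and, mem_union] at hl ⊢
    by_contra hcon
    push Not at hcon
    obtain ⟨a, b⟩ := hcon
    apply hl
    rw [b, a]
  have c1 : (univ.filter fun l => π₂ l ∈ Bset π₁).card = q * (Bset π₁).card := by
    have := card_balanced π₂ q hbal (fun j => j ∈ Bset π₁)
    rw [this]
    congr 1
    simp
  have c2 := le_trans (card_le_card hsub) (card_union_le _ _)
  rw [c1] at c2
  have c3 : ((Bset (fun l => π₁ (π₂ l))).card : ℝ) ≤ q * ((Bset π₁).card : ℝ) +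
      ((Bset π₂).card : ℝ) := by exact_mod_cast c2
  have hq : (0 : ℝ) ≤ q := Nat.cast_nonneg q
  have e : (H' : ℝ) = q * H := by rw [hH']; push_cast; ring
  calc _ ≤ _ := c3
    _ ≤ q * (β₁ * H) + β₂ * H' := add_le_add (mul_le_mul_of_nonneg_left h1 hq) h2
    _ = _ := by rw [add_mul, e]; ring

/-- composition of label maps: balance -/
lemma bal_comp {H' : ℕ} [NeZero H'] (π₁ : ZMod H → ZMod h) (π₂ : ZMod H' → ZMod H) (q₁ q₂ : ℕ)
    (h1 : ∀ j, (univ.filter fun l => π₁ l = j).card = q₁)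
    (h2 : ∀ j, (univ.filter fun l => π₂ l = j).card = q₂) (j : ZMod h) :
    (univ.filter fun l => π₁ (π₂ l) = j).card = q₂ * q₁ := by
  rw [card_balanced π₂ q₂ h2 (fun i => π₁ i = j), h1]

/-- composition of label maps: defects -/
lemma defect_comp {H' : ℕ} [NeZero H'] (π₁ : ZMod H → ZMod h) (π₂ : ZMod H' → ZMod H) (q : ℕ)
    (hH' : H' = q * H) (hbal : ∀ j, (univ.filter fun l => π₂ l = j).card = q)
    (σ : Equiv.Perm (ZMod h)) (σ₁ : Equiv.Perm (ZMod H)) (σ₂ : Equiv.Perm (ZMod H'))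
    (hσ₂ : ∀ l, π₂ (σ₂ l) = σ₁ (π₂ l)) (δ : ℝ)
    (h1 : (((univ.filter fun l => π₁ (σ₁ l) ≠ σ (π₁ l)).card : ℕ) : ℝ) ≤ δ * H) :
    (((univ.filter fun l => π₁ (π₂ (σ₂ l)) ≠ σ (π₁ (π₂ l))).card : ℕ) : ℝ) ≤ δ * H' := by
  have c1 : (univ.filter fun l => π₁ (π₂ (σ₂ l)) ≠ σ (π₁ (π₂ l))).card =
      q * (univ.filter fun l => π₁ (σ₁ l) ≠ σ (π₁ l)).card := by
    rw [← card_balanced π₂ q hbal (fun j => π₁ (σ₁ j) ≠ σ (π₁ j))]
    congr 1
    ext l
    simp only [mem_filter, mem_univ, true_and]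
    rw [hσ₂]
  rw [c1]
  have hq : (0 : ℝ) ≤ q := Nat.cast_nonneg q
  have e : (H' : ℝ) = q * H := by rw [hH']; push_cast; ring
  push_cast
  calc _ ≤ (q : ℝ) * (δ * H) := mul_le_mul_of_nonneg_left h1 hq
    _ = _ := by rw [e]; ring

/-- The combinatorial step: first lift `σ` to an arbitrary extension with few breaks, then apply
the improvement move with `C * H` runs of length `R * H`. -/
theorem comb_step (h : ℕ) [NeZero h] (σ : Equiv.Perm (ZMod h)) (C : ℕ) (hC : 2 ≤ C) (ε : ℝ)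
    (hε : 0 < ε) (hε1 : ε ≤ 1) (M : ℕ) (hM0 : 0 < M) (hM : (h : ℝ) ≤ (ε / 4) * M) :
    ∃ β : ℝ, 0 < β ∧ ∀ (H : ℕ) [NeZero H] (q₁ : ℕ) (_ : H = q₁ * h) (π₁ : ZMod H → ZMod h)
      (_ : ∀ j, (univ.filter fun l => π₁ l = j).card = q₁)
      (_ : ((Bset π₁).card : ℝ) ≤ β * H),
      ∃ R₀ : ℕ, ∀ R : ℕ, R₀ ≤ R → ∀ (hR : 0 < R) (H' : ℕ) [NeZero H'] (hC' : 0 < C)
        (hH' : H' = (C * H * R) * H),
        (((Bset (fun l : ZMod H' => π₁ (piI H R l))).card : ℝ) ≤ ε * H') ∧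
        ((((univ.filter fun l : ZMod H' =>
          π₁ (piI H R (sIperm hC' hR hH' (lift π₁ σ) l)) ≠ σ (π₁ (piI H R l))).card : ℕ) : ℝ)
            ≤ ε * H') ∧
        (∀ (ζ : ZMod h → ℕ) (N : ℕ), N ≤ M →
          AE (sIperm hC' hR hH' (lift π₁ σ)) (fun l : ZMod H' => ζ (π₁ (piI H R l))) N ≤
            AE σ ζ N + ε) ∧
        (∀ (ζ : ZMod h → ℕ) (N : ℕ), M ≤ N →
          AE (sIperm hC' hR hH' (lift π₁ σ)) (fun l : ZMod H' => ζ (π₁ (piI H R l))) N ≤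
            1 / C + QR σ ζ + ε) ∧
        (∀ (ζ : ZMod h → ℕ),
          QR (sIperm hC' hR hH' (lift π₁ σ)) (fun l : ZMod H' => ζ (π₁ (piI H R l))) ≤
            (1 - 1 / C) * QR σ ζ + 2 / (C * C) + ε) := by
  have hhp := cast_pos_of_neZero h
  have hMp : (0 : ℝ) < M := by exact_mod_cast hM0
  have hCp : (0 : ℝ) < C := by
    have : 0 < C := by omega
    exact_mod_cast this
  have hC2 : (2 : ℝ) ≤ C := by exact_mod_cast hC
  have hCinv : 1 / (C : ℝ) ≤ 1 / 2 := one_div_le_one_div_of_le (by norm_num) hC2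
  have hCinv0 : 0 < 1 / (C : ℝ) := by positivity
  set β : ℝ := ε / (80 * (h + M)) with hβdef
  have hβpos : 0 < β := by positivity
  have hβ1 : (h + M) * β = ε / 80 := by
    rw [hβdef]; field_simp
  have hβh : h * β ≤ ε / 80 := by nlinarith
  have hβM : M * β ≤ ε / 80 := by nlinarith
  have hβ0 : β ≤ ε / 80 := by
    have h1 : (1 : ℝ) ≤ h := by exact_mod_cast NeZero.one_le
    nlinarith
  refine ⟨β, hβpos, ?_⟩
  intro H _ q₁ hH π₁ hbal hB
  have hHp := cast_pos_of_neZero H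
  have hH1 : (1 : ℝ) ≤ H := by exact_mod_cast NeZero.one_le
  set M' : ℕ := ⌈4 * (H : ℝ) / ε⌉₊ with hM'
  have hM'1 : 4 * (H : ℝ) / ε ≤ M' := Nat.le_ceil _
  have hM'p : (0 : ℝ) < M' := lt_of_lt_of_le (by positivity) hM'1
  refine ⟨⌈(48 + 16 * (M : ℝ) + 16 * (M' : ℝ)) / ε⌉₊, ?_⟩
  intro R hR0 hR H' _ hC' hH'
  have hRp : (0 : ℝ) < R := by exact_mod_cast hR
  have hR1 : (48 + 16 * (M : ℝ) + 16 * (M' : ℝ)) / ε ≤ R :=
    le_trans (Nat.le_ceil _) (by exact_mod_cast hR0)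
  have hR2 : 48 + 16 * (M : ℝ) + 16 * (M' : ℝ) ≤ R * ε := by
    rwa [div_le_iff₀ hε] at hR1
  have hRi : 3 / (R : ℝ) ≤ ε / 16 := by
    rw [div_le_iff₀ hRp]; nlinarith
  have hRM : 2 * (M : ℝ) / R ≤ ε / 8 := by
    rw [div_le_iff₀ hRp]; nlinarith
  have hRM' : 2 * (M' : ℝ) / R ≤ ε / 8 := by
    rw [div_le_iff₀ hRp]; nlinarith
  have hR1' : 1 / (R : ℝ) ≤ ε / 48 := by
    rw [div_le_iff₀ hRp]; nlinarith
  have hH'p := cast_pos_of_neZero H'
  -- first extension data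
  set σ₁ := lift π₁ σ with hσ₁
  have hδ₁ : (((univ.filter fun l => π₁ (σ₁ l) ≠ σ (π₁ l)).card : ℕ) : ℝ) ≤ (2 * h * β) * H := by
    have h1 := card_defect_lift π₁ σ
    have h2 : (((univ.filter fun l => π₁ (σ₁ l) ≠ σ (π₁ l)).card : ℕ) : ℝ) ≤
      2 * h * ((Bset π₁).card : ℝ) := by exact_mod_cast h1
    calc _ ≤ _ := h2
      _ ≤ 2 * h * (β * H) := mul_le_mul_of_nonneg_left hB (by positivity)
      _ = _ := by ring
  have hγ₁ : (((Gset π₁)ᶜ.card : ℕ) : ℝ) ≤ (2 * h * β) * H := by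
    have h1 := card_Gset_compl π₁
    have h2 : (((Gset π₁)ᶜ.card : ℕ) : ℝ) ≤ 2 * h * ((Bset π₁).card : ℝ) := by
      exact_mod_cast h1
    calc _ ≤ _ := h2
      _ ≤ 2 * h * (β * H) := mul_le_mul_of_nonneg_left hB (by positivity)
      _ = _ := by ring
  have hG₁ : ∀ l ∈ Gset π₁, σ₁ l = l + ((dsp σ (π₁ l) : ℤ) : ZMod H) := fun l hl =>
    lift_good π₁ σ ((mem_Gset π₁).mp hl)
  have L1 : ∀ (ζ : ZMod h → ℕ) (n : ℕ), (eN σ₁ (fun l => ζ (π₁ l)) (n : ZMod H) : ℝ) / H ≤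
      (eN σ ζ (n : ZMod h) : ℝ) / h + (2 * h * β + 2 * n * β) := fun ζ n =>
    short_real π₁ q₁ hH hbal σ σ₁ ζ n β _ hB hδ₁
  have L2 : ∀ (ζ : ZMod h → ℕ) (N : ℕ), 0 < N → AE σ₁ (fun l => ζ (π₁ l)) N ≤
      (1 + h / N) * (2 * h * β + QR σ ζ + 3 * h * β) := fun ζ N hN =>
    long_real π₁ q₁ hH hbal σ σ₁ ζ (Gset π₁) hG₁ N hN β _ hB hγ₁
  have L3 : ∀ (ζ : ZMod h → ℕ), QR σ₁ (fun l => ζ (π₁ l)) ≤
      2 * h * β + QR σ ζ + 3 * h * β := fun ζ =>
    QR_ext π₁ q₁ hH hbal σ σ₁ ζ (Gset π₁) hG₁ β _ hB hγ₁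
  -- second extension data
  set σ₂ := sIperm hC' hR hH' σ₁ with hσ₂
  have hbal₂ : ∀ j, (univ.filter fun l : ZMod H' => piI H R l = j).card = C * H * R :=
    piI_balanced hH'
  have hB₂ : ((Bset (piI H R : ZMod H' → ZMod H)).card : ℝ) ≤ (1 / (R * H)) * H' :=
    Bset_piI_real hC' hR hH'
  have hdef₂ : ∀ l, piI H R (σ₂ l) = σ₁ (piI H R l) := fun l => by
    rw [hσ₂, sIperm_apply]
    exact piI_sI hC' hR hH' σ₁ l
  have hδ₂ : (((univ.filter fun l => piI H R (σ₂ l) ≠ σ₁ (piI H R l)).card : ℕ) : ℝ) ≤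
      0 * H' := by
    rw [zero_mul]
    have : (univ.filter fun l => piI H R (σ₂ l) ≠ σ₁ (piI H R l)) = ∅ := by
      ext l
      simp [hdef₂ l]
    rw [this]
    simp
  have hγ₂ := card_nonactive_compl (H := H') hC' hR hH'
  have hG₂ := mem_nonactive hC' hR hH' σ₁
  have I1 : ∀ (ζ : ZMod H → ℕ) (n : ℕ), (eN σ₂ (fun l => ζ (piI H R l)) (n : ZMod H') : ℝ) / H' ≤
      (eN σ₁ ζ (n : ZMod H) : ℝ) / H + (0 + 2 * n * (1 / (R * H))) := fun ζ n =>
    short_real (piI H R) (C * H * R) hH' hbal₂ σ₁ σ₂ ζ n _ 0 hB₂ hδ₂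
  have I2 : ∀ (ζ : ZMod H → ℕ) (N : ℕ), 0 < N → AE σ₂ (fun l => ζ (piI H R l)) N ≤
      (1 + H / N) * (1 / C + QR σ₁ ζ + 3 * H * (1 / (R * H))) := fun ζ N hN =>
    long_real (piI H R) (C * H * R) hH' hbal₂ σ₁ σ₂ ζ _ hG₂ N hN _ _ hB₂ hγ₂
  have I3 : ∀ (ζ : ZMod H → ℕ), QR σ₂ (fun l : ZMod H' => ζ (piI H R l)) ≤
      (1 - 1 / C) * QR σ₁ ζ + 2 / (C * C) + 2 / R := fun ζ => QR_imove hC' hR hH' σ₁ ζ
  have hRH : 1 / ((R : ℝ) * H) ≤ 1 / R := by
    apply one_div_le_one_div_of_le hRp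
    nlinarith
  refine ⟨?_, ?_, ?_, ?_, ?_⟩
  · have := Bset_comp π₁ (piI H R : ZMod H' → ZMod H) (C * H * R) hH' hbal₂ β (1 / (R * H)) hB hB₂
    refine le_trans this (mul_le_mul_of_nonneg_right ?_ hH'p.le)
    linarith
  · have := defect_comp π₁ (piI H R : ZMod H' → ZMod H) (C * H * R) hH' hbal₂ σ σ₁ σ₂ hdef₂
      (2 * h * β) hδ₁
    refine le_trans this (mul_le_mul_of_nonneg_right ?_ hH'p.le)
    nlinarith
  · intro ζ N hN
    have hNr : (N : ℝ) ≤ M := by exact_mod_cast hN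
    apply AE_le_of_pointwise _ _ _ _ _ _ hε.le
    intro n hn
    have hnr : (n : ℝ) ≤ N := by exact_mod_cast hn
    have hnM : (n : ℝ) ≤ M := le_trans hnr hNr
    have a1 := I1 (fun l => ζ (π₁ l)) n
    have a2 := L1 ζ n
    have a3 : 2 * (n : ℝ) * (1 / (R * H)) ≤ ε / 8 := by
      calc 2 * (n : ℝ) * (1 / (R * H)) ≤ 2 * M * (1 / R) :=
            mul_le_mul (by linarith) hRH (by positivity) (by positivity)
        _ = 2 * M / R := by ring
        _ ≤ ε / 8 := hRM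
    have a4 : (n : ℝ) * β ≤ ε / 80 := le_trans (mul_le_mul_of_nonneg_right hnM hβpos.le) hβM
    linarith
  · intro ζ N hN
    have hN0 : 0 < N := lt_of_lt_of_le hM0 hN
    have hNp : (0 : ℝ) < N := by exact_mod_cast hN0
    have hNr : (M : ℝ) ≤ N := by exact_mod_cast hN
    have hQ1 := QR_le_one σ ζ
    have hQ0 := QR_nonneg σ ζ
    rcases le_total N M' with hc | hc
    · have hcr : (N : ℝ) ≤ M' := by exact_mod_cast hc
      have b1 : AE σ₂ (fun l : ZMod H' => ζ (π₁ (piI H R l))) N ≤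
          AE σ₁ (fun l => ζ (π₁ l)) N + ε / 8 := by
        apply AE_le_of_pointwise _ _ _ _ _ _ (by positivity)
        intro n hn
        have hnr : (n : ℝ) ≤ N := by exact_mod_cast hn
        have a1 := I1 (fun l => ζ (π₁ l)) n
        have a3 : 2 * (n : ℝ) * (1 / (R * H)) ≤ ε / 8 := by
          calc 2 * (n : ℝ) * (1 / (R * H)) ≤ 2 * M' * (1 / R) :=
                mul_le_mul (by linarith) hRH (by positivity) (by positivity)
            _ = 2 * M' / R := by ring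
            _ ≤ ε / 8 := hRM'
        linarith
      have b2 := L2 ζ N hN0
      have b3 : (h : ℝ) / N ≤ ε / 4 := by
        rw [div_le_iff₀ hNp]
        calc (h : ℝ) ≤ ε / 4 * M := hM
          _ ≤ ε / 4 * N := mul_le_mul_of_nonneg_left hNr (by positivity)
      have b4 : (1 + (h : ℝ) / N) * (2 * h * β + QR σ ζ + 3 * h * β) ≤
          (1 + ε / 4) * (2 * h * β + QR σ ζ + 3 * h * β) :=
        mul_le_mul_of_nonneg_right (by linarith) (by positivity)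
      have b5 : 2 * h * β + QR σ ζ + 3 * h * β ≤ QR σ ζ + ε / 16 := by linarith
      have b6 : (1 + ε / 4) * (2 * h * β + QR σ ζ + 3 * h * β) ≤
          (1 + ε / 4) * (QR σ ζ + ε / 16) := mul_le_mul_of_nonneg_left b5 (by positivity)
      have b7 : (1 + ε / 4) * (QR σ ζ + ε / 16) ≤ QR σ ζ + ε / 16 + ε / 4 * (1 + 1 / 16) := by
        have : ε / 4 * (QR σ ζ + ε / 16) ≤ ε / 4 * (1 + 1 / 16) :=
          mul_le_mul_of_nonneg_left (by linarith) (by positivity)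
        linarith
      linarith
    · have hcr : (M' : ℝ) ≤ N := by exact_mod_cast hc
      have b2 := I2 (fun l => ζ (π₁ l)) N hN0
      have b3 : (H : ℝ) / N ≤ ε / 4 := by
        rw [div_le_iff₀ hNp]
        rw [div_le_iff₀ hε] at hM'1
        nlinarith
      have b0 := L3 ζ
      have q0 := QR_nonneg σ₁ (fun l => ζ (π₁ l))
      have e3 : 3 * (H : ℝ) * (1 / (R * H)) = 3 / R := by field_simp
      rw [e3] at b2
      have b5 : 1 / C + QR σ₁ (fun l => ζ (π₁ l)) + 3 / R ≤ 1 / C + QR σ ζ + ε / 8 := by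
        linarith
      have b4 : (1 + (H : ℝ) / N) * (1 / C + QR σ₁ (fun l => ζ (π₁ l)) + 3 / R) ≤
          (1 + ε / 4) * (1 / C + QR σ ζ + ε / 8) :=
        mul_le_mul (by linarith) b5 (by positivity) (by positivity)
      have b7 : (1 + ε / 4) * (1 / C + QR σ ζ + ε / 8) ≤
          1 / C + QR σ ζ + ε / 8 + ε / 4 * (1 / 2 + 1 + 1 / 8) := by
        have : ε / 4 * (1 / C + QR σ ζ + ε / 8) ≤ ε / 4 * (1 / 2 + 1 + 1 / 8) :=
          mul_le_mul_of_nonneg_left (by linarith) (by positivity)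
        linarith
      linarith
  · intro ζ
    have a1 := I3 (fun l => ζ (π₁ l))
    have a2 := L3 ζ
    have hQ0 := QR_nonneg σ ζ
    have a3 : (1 - 1 / (C : ℝ)) * QR σ₁ (fun l => ζ (π₁ l)) ≤
        (1 - 1 / C) * (QR σ ζ + ε / 16) :=
      mul_le_mul_of_nonneg_left (by linarith) (by linarith)
    have a4 : (1 - 1 / (C : ℝ)) * (QR σ ζ + ε / 16) ≤ (1 - 1 / C) * QR σ ζ + ε / 16 := by
      have : (1 - 1 / (C : ℝ)) * (ε / 16) ≤ 1 * (ε / 16) :=
        mul_le_mul_of_nonneg_right (by linarith) (by positivity)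
      linarith
    have a5 : 2 / (R : ℝ) ≤ ε / 16 := by
      have : 2 / (R : ℝ) ≤ 3 / R := div_le_div_of_nonneg_right (by norm_num) hRp.le
      linarith
    linarith

end

end Pool.Agent.H44.WH
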