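import Mathlib

/-!
Interval permutations of `[0,1)` as measure preserving automorphisms.
-/

set_option linter.unusedSectionVars false

open MeasureTheory Set
open scoped ENNReal

namespace Pool.Agent.H44.WH

/-- Lebesgue measure on `[0,1]`. -/
noncomputable abbrev mu : Measure ℝ := volume.restrict (Set.Icc (0 : ℝ) 1)

instance : IsProbabilityMeasure mu := ⟨by simp [mu]⟩

section
variable (h : ℕ) [NeZero h]

/-- label of a point: index of the interval of length `1/h` containing it. -/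
noncomputable def lab (x : ℝ) : Fin h := ⟨⌊(h : ℝ) * x⌋₊ % h, Nat.mod_lt _ (NeZero.pos h)⟩

/-- the `i`-th interval -/
def Iv (i : Fin h) : Set ℝ := Set.Ico ((i : ℕ) / (h : ℝ)) (((i : ℕ) + 1) / (h : ℝ))

lemma hpos : (0 : ℝ) < (h : ℝ) := by exact_mod_cast NeZero.pos h

variable {h}

lemma Iv_subset (i : Fin h) : Iv h i ⊆ Set.Ico (0 : ℝ) 1 := by
  intro x hx
  have hh := hpos h
  have hi : ((i : ℕ) : ℝ) + 1 ≤ h := by exact_mod_cast i.2
  refine ⟨le_trans (by positivity) hx.1, lt_of_lt_of_le hx.2 ?_⟩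
  rw [div_le_one hh]
  exact hi

lemma lab_val {x : ℝ} (hx : x ∈ Set.Ico (0 : ℝ) 1) : (lab h x : ℕ) = ⌊(h : ℝ) * x⌋₊ := by
  have hh := hpos h
  apply Nat.mod_eq_of_lt
  rw [Nat.floor_lt (mul_nonneg hh.le hx.1)]
  calc (h : ℝ) * x < h * 1 := mul_lt_mul_of_pos_left hx.2 hh
    _ = h := mul_one _

lemma lab_eq_iff {x : ℝ} (hx : x ∈ Set.Ico (0 : ℝ) 1) (i : Fin h) :
    lab h x = i ↔ x ∈ Iv h i := by
  have hh := hpos h
  rw [Fin.ext_iff, lab_val hx, Nat.floor_eq_iff (mul_nonneg hh.le hx.1)]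
  unfold Iv
  rw [Set.mem_Ico, div_le_iff₀ hh, lt_div_iff₀ hh, mul_comm x]

lemma mem_Iv_lab {x : ℝ} (hx : x ∈ Set.Ico (0 : ℝ) 1) : x ∈ Iv h (lab h x) :=
  (lab_eq_iff hx _).mp rfl

lemma lab_of_mem {x : ℝ} {i : Fin h} (hx : x ∈ Iv h i) : lab h x = i :=
  (lab_eq_iff (Iv_subset i hx) i).mpr hx

lemma measurable_lab : Measurable (lab h) := by
  have h1 : Measurable (fun x : ℝ => ⌊(h : ℝ) * x⌋₊) :=
    Nat.measurable_floor.comp (measurable_const_mul _)
  have h2 : Measurable (fun n : ℕ => (⟨n % h, Nat.mod_lt _ (NeZero.pos h)⟩ : Fin h)) :=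
    measurable_from_nat
  exact h2.comp h1

variable (h)

open Classical in
/-- the interval permutation -/
noncomputable def ivF (ρ : Equiv.Perm (Fin h)) (x : ℝ) : ℝ :=
  if x ∈ Set.Ico (0 : ℝ) 1 then x + (((ρ (lab h x) : ℕ) : ℝ) - ((lab h x : ℕ) : ℝ)) / h else x

variable {h}

lemma ivF_of_mem (ρ : Equiv.Perm (Fin h)) {x : ℝ} (hx : x ∈ Set.Ico (0 : ℝ) 1) :
    ivF h ρ x = x + (((ρ (lab h x) : ℕ) : ℝ) - ((lab h x : ℕ) : ℝ)) / h := by
  simp [ivF, hx.1, hx.2]

lemma ivF_of_not (ρ : Equiv.Perm (Fin h)) {x : ℝ} (hx : x ∉ Set.Ico (0 : ℝ) 1) :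
    ivF h ρ x = x := by
  unfold ivF
  rw [if_neg hx]

lemma ivF_mem_Iv (ρ : Equiv.Perm (Fin h)) {x : ℝ} (hx : x ∈ Set.Ico (0 : ℝ) 1) :
    ivF h ρ x ∈ Iv h (ρ (lab h x)) := by
  have hh := hpos h
  have h1 := mem_Iv_lab (h := h) hx
  rw [ivF_of_mem ρ hx]
  unfold Iv at h1 ⊢
  rw [Set.mem_Ico] at h1 ⊢
  constructor
  · have : ((ρ (lab h x) : ℕ) : ℝ) / h = ((lab h x : ℕ) : ℝ) / h +
        (((ρ (lab h x) : ℕ) : ℝ) - ((lab h x : ℕ) : ℝ)) / h := by ring
    rw [this]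
    linarith [h1.1]
  · have : (((ρ (lab h x) : ℕ) : ℝ) + 1) / h = (((lab h x : ℕ) : ℝ) + 1) / h +
        (((ρ (lab h x) : ℕ) : ℝ) - ((lab h x : ℕ) : ℝ)) / h := by ring
    rw [this]
    linarith [h1.2]

lemma ivF_mem (ρ : Equiv.Perm (Fin h)) {x : ℝ} (hx : x ∈ Set.Ico (0 : ℝ) 1) :
    ivF h ρ x ∈ Set.Ico (0 : ℝ) 1 := Iv_subset _ (ivF_mem_Iv ρ hx)

lemma lab_ivF (ρ : Equiv.Perm (Fin h)) {x : ℝ} (hx : x ∈ Set.Ico (0 : ℝ) 1) :
    lab h (ivF h ρ x) = ρ (lab h x) := lab_of_mem (ivF_mem_Iv ρ hx)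

lemma ivF_comp (ρ₁ ρ₂ : Equiv.Perm (Fin h)) (x : ℝ) :
    ivF h ρ₁ (ivF h ρ₂ x) = ivF h (ρ₁ * ρ₂) x := by
  by_cases hx : x ∈ Set.Ico (0 : ℝ) 1
  · rw [ivF_of_mem ρ₁ (ivF_mem ρ₂ hx), lab_ivF ρ₂ hx, ivF_of_mem ρ₂ hx, ivF_of_mem _ hx]
    rw [Equiv.Perm.mul_apply]
    ring
  · rw [ivF_of_not ρ₂ hx, ivF_of_not ρ₁ hx, ivF_of_not _ hx]

lemma ivF_one (x : ℝ) : ivF h 1 x = x := by
  by_cases hx : x ∈ Set.Ico (0 : ℝ) 1
  · rw [ivF_of_mem _ hx]; simp
  · rw [ivF_of_not _ hx]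

lemma measurable_ivF (ρ : Equiv.Perm (Fin h)) : Measurable (ivF h ρ) := by
  unfold ivF
  apply Measurable.ite measurableSet_Ico
  · apply measurable_id.add
    have h2 : Measurable (fun i : Fin h => (((ρ i : ℕ) : ℝ) - ((i : ℕ) : ℝ)) / h) :=
      measurable_of_countable _
    exact h2.comp measurable_lab
  · exact measurable_id

/-- the interval permutation as a measurable equivalence -/
noncomputable def iv (ρ : Equiv.Perm (Fin h)) : ℝ ≃ᵐ ℝ where
  toFun := ivF h ρ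
  invFun := ivF h ρ⁻¹
  left_inv x := by rw [ivF_comp, inv_mul_cancel, ivF_one]
  right_inv x := by rw [ivF_comp, mul_inv_cancel, ivF_one]
  measurable_toFun := measurable_ivF ρ
  measurable_invFun := measurable_ivF ρ⁻¹

lemma iv_apply (ρ : Equiv.Perm (Fin h)) (x : ℝ) : iv ρ x = ivF h ρ x := rfl

lemma iv_symm (ρ : Equiv.Perm (Fin h)) : (iv ρ).symm = iv ρ⁻¹ := by
  ext x
  rfl

lemma iUnion_Iv : (⋃ i : Fin h, Iv h i) = Set.Ico (0 : ℝ) 1 := by
  ext x
  simp only [mem_iUnion]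
  constructor
  · rintro ⟨i, hi⟩
    exact Iv_subset i hi
  · intro hx
    exact ⟨lab h x, mem_Iv_lab hx⟩

lemma Iv_disjoint : Pairwise (Function.onFun Disjoint fun i : Fin h => Iv h i) := by
  intro i j hij
  rw [Function.onFun, Set.disjoint_left]
  intro x hx hx'
  exact hij ((lab_of_mem hx).symm.trans (lab_of_mem hx'))

lemma measurableSet_Iv (i : Fin h) : MeasurableSet (Iv h i) := measurableSet_Ico

lemma mu_eq_Ico : mu = volume.restrict (Set.Ico (0 : ℝ) 1) :=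
  Measure.restrict_congr_set Ico_ae_eq_Icc.symm

lemma mu_eq_sum (S : Set ℝ) (hS : MeasurableSet S) :
    mu S = ∑ i : Fin h, volume (S ∩ Iv h i) := by
  rw [mu_eq_Ico, Measure.restrict_apply hS, ← iUnion_Iv (h := h), Set.inter_iUnion,
    measure_iUnion]
  · exact tsum_fintype _
  · intro i j hij
    exact (Iv_disjoint hij).mono Set.inter_subset_right Set.inter_subset_right
  · intro i
    exact hS.inter (measurableSet_Iv i)

lemma volume_Iv (i : Fin h) : volume (Iv h i) = ENNReal.ofReal (1 / h) := by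
  unfold Iv
  rw [Real.volume_Ico]
  congr 1
  ring

lemma mp_iv (ρ : Equiv.Perm (Fin h)) : MeasurePreserving (iv ρ : ℝ → ℝ) mu mu := by
  refine ⟨(iv ρ).measurable, ?_⟩
  ext S hS
  rw [Measure.map_apply (iv ρ).measurable hS, mu_eq_sum (h := h) _ ((iv ρ).measurable hS),
    mu_eq_sum (h := h) S hS]
  rw [← Equiv.sum_comp ρ (fun i => volume (S ∩ Iv h i))]
  refine Finset.sum_congr rfl fun i _ => ?_
  have : (iv ρ) ⁻¹' S ∩ Iv h i =
      (fun x => x + (((ρ i : ℕ) : ℝ) - ((i : ℕ) : ℝ)) / h) ⁻¹' (S ∩ Iv h (ρ i)) := by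
    ext x
    simp only [Set.mem_inter_iff, Set.mem_preimage]
    constructor
    · rintro ⟨h1, h2⟩
      have hx := Iv_subset i h2
      have hl := lab_of_mem h2
      have e : iv ρ x = x + (((ρ i : ℕ) : ℝ) - ((i : ℕ) : ℝ)) / h := by
        rw [iv_apply, ivF_of_mem ρ hx, hl]
      have h3 := ivF_mem_Iv ρ hx
      rw [hl, ← iv_apply, e] at h3
      rw [e] at h1
      exact ⟨h1, h3⟩
    · rintro ⟨h1, h2⟩
      have h3 : x ∈ Iv h i := by
        unfold Iv at h2 ⊢
        rw [Set.mem_Ico] at h2 ⊢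
        constructor
        · have : ((ρ i : ℕ) : ℝ) / h = ((i : ℕ) : ℝ) / h +
              (((ρ i : ℕ) : ℝ) - ((i : ℕ) : ℝ)) / h := by ring
          rw [this] at h2
          linarith [h2.1]
        · have : (((ρ i : ℕ) : ℝ) + 1) / h = (((i : ℕ) : ℝ) + 1) / h +
              (((ρ i : ℕ) : ℝ) - ((i : ℕ) : ℝ)) / h := by ring
          rw [this] at h2
          linarith [h2.2]
      have hx := Iv_subset i h3
      have hl := lab_of_mem h3
      have e : iv ρ x = x + (((ρ i : ℕ) : ℝ) - ((i : ℕ) : ℝ)) / h := by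
        rw [iv_apply, ivF_of_mem ρ hx, hl]
      rw [e]
      exact ⟨h1, h3⟩
  rw [this]
  exact measure_preimage_add_right volume _ _

/-- The measure of a union of intervals. -/
lemma mu_lab (p : Fin h → Prop) [DecidablePred p] :
    mu.real {x | p (lab h x)} = ((Finset.univ.filter p).card : ℝ) / h := by
  have hm : MeasurableSet {x | p (lab h x)} := measurable_lab (MeasurableSet.of_discrete (s := {i | p i}))
  have h1 : mu {x | p (lab h x)} = ∑ i : Fin h, if p i then ENNReal.ofReal (1 / h) else 0 := by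
    rw [mu_eq_sum (h := h) _ hm]
    refine Finset.sum_congr rfl fun i _ => ?_
    by_cases hp : p i
    · rw [if_pos hp]
      have : {x | p (lab h x)} ∩ Iv h i = Iv h i := by
        rw [Set.inter_eq_right]
        intro x hx
        have := lab_of_mem hx
        change p (lab h x)
        rw [this]
        exact hp
      rw [this, volume_Iv]
    · rw [if_neg hp]
      have : {x | p (lab h x)} ∩ Iv h i = ∅ := by
        ext x
        simp only [Set.mem_inter_iff, Set.mem_empty_iff_false, iff_false, not_and]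
        intro h1 h2
        apply hp
        rw [← lab_of_mem h2]
        exact h1
      rw [this, measure_empty]
  rw [measureReal_def, h1, ENNReal.toReal_sum]
  · rw [Finset.card_filter]
    push_cast
    rw [Finset.sum_div]
    refine Finset.sum_congr rfl fun i _ => ?_
    have hh := hpos h
    by_cases hp : p i
    · rw [if_pos hp, if_pos hp, ENNReal.toReal_ofReal (by positivity)]
    · rw [if_neg hp, if_neg hp]
      simp
  · intro i _
    by_cases hp : p i
    · rw [if_pos hp]; exact ENNReal.ofReal_ne_top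
    · rw [if_neg hp]; simp

end

end Pool.Agent.H44.WH
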