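import Pool.Agent.H44.WH.Comb

/-!
Lifting a permutation of levels to an extension, by full passes through the tower.
-/

set_option linter.unusedSectionVars false

open Finset

namespace Pool.Agent.H44.WH

section
variable {h H : ℕ} [NeZero h] [NeZero H] (π : ZMod H → ZMod h)

/-- the start of the pass containing `l` -/
def base (l : ZMod H) : ZMod H := l - (((π l).val : ℕ) : ZMod H)

/-- `l` lies in a full pass -/
def good (l : ZMod H) : Prop := ∀ i < h, π (base π l + (i : ZMod H)) = (i : ZMod h)

lemma base_add (l : ZMod H) (hl : good π l) (i : ℕ) (hi : i < h) :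
    base π (base π l + (i : ZMod H)) = base π l := by
  have h1 := hl i hi
  unfold base at h1 ⊢
  rw [h1, ZMod.val_natCast_of_lt hi]
  ring

lemma good_add (l : ZMod H) (hl : good π l) (i : ℕ) (hi : i < h) :
    good π (base π l + (i : ZMod H)) := by
  intro i' hi'
  rw [base_add π l hl i hi]
  exact hl i' hi'

open Classical in
/-- the lifted permutation as a function -/
noncomputable def liftF (σ : Equiv.Perm (ZMod h)) (l : ZMod H) : ZMod H :=
  if good π l then base π l + (((σ (π l)).val : ℕ) : ZMod H) else l

lemma liftF_good (σ : Equiv.Perm (ZMod h)) {l : ZMod H} (hl : good π l) :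
    liftF π σ l = base π l + (((σ (π l)).val : ℕ) : ZMod H) := by
  simp [liftF, hl]

lemma liftF_not (σ : Equiv.Perm (ZMod h)) {l : ZMod H} (hl : ¬ good π l) :
    liftF π σ l = l := by
  simp [liftF, hl]

lemma pi_liftF (σ : Equiv.Perm (ZMod h)) {l : ZMod H} (hl : good π l) :
    π (liftF π σ l) = σ (π l) := by
  rw [liftF_good π σ hl, hl _ (ZMod.val_lt _), ZMod.natCast_zmod_val]

lemma liftF_injective (σ : Equiv.Perm (ZMod h)) : Function.Injective (liftF π σ) := by
  intro l1 l2 heq
  by_cases g1 : good π l1
  · by_cases g2 : good π l2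
    · have hb : base π l1 = base π l2 := by
        have e1 := base_add π l1 g1 _ (ZMod.val_lt (σ (π l1)))
        have e2 := base_add π l2 g2 _ (ZMod.val_lt (σ (π l2)))
        rw [← liftF_good π σ g1] at e1
        rw [← liftF_good π σ g2] at e2
        rw [← e1, ← e2, heq]
      have hp : π l1 = π l2 := by
        have e1 := pi_liftF π σ g1
        have e2 := pi_liftF π σ g2
        rw [heq] at e1
        exact σ.injective (e1.symm.trans e2)
      unfold base at hb
      rw [hp] at hb
      exact sub_left_injective hb
    · exfalso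
      apply g2
      have := good_add π l1 g1 _ (ZMod.val_lt (σ (π l1)))
      rw [← liftF_good π σ g1, heq, liftF_not π σ g2] at this
      exact this
  · by_cases g2 : good π l2
    · exfalso
      apply g1
      have := good_add π l2 g2 _ (ZMod.val_lt (σ (π l2)))
      rw [← liftF_good π σ g2, ← heq, liftF_not π σ g1] at this
      exact this
    · rw [liftF_not π σ g1, liftF_not π σ g2] at heq
      exact heq

/-- the lifted permutation -/
noncomputable def lift (σ : Equiv.Perm (ZMod h)) : Equiv.Perm (ZMod H) :=
  Equiv.ofBijective (liftF π σ) (Finite.injective_iff_bijective.mp (liftF_injective π σ))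

lemma lift_apply (σ : Equiv.Perm (ZMod h)) (l : ZMod H) : lift π σ l = liftF π σ l := rfl

lemma lift_good (σ : Equiv.Perm (ZMod h)) {l : ZMod H} (hl : good π l) :
    lift π σ l = l + ((dsp σ (π l) : ℤ) : ZMod H) := by
  rw [lift_apply, liftF_good π σ hl]
  unfold base dsp
  push_cast
  ring

open Classical in
/-- the set of good levels -/
noncomputable def Gset : Finset (ZMod H) := univ.filter fun l => good π l

lemma card_Gset_compl : (Gset π)ᶜ.card ≤ 2 * h * (Bset π).card := by
  classical
  set A3 := univ.filter fun l : ZMod H => ∃ i < h, l + (i : ZMod H) ∈ Bset π with hA3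
  set A4 := univ.filter fun l : ZMod H => ∃ i < h, l - ((i : ZMod H) + 1) ∈ Bset π with hA4
  have hsub : (Gset π)ᶜ ⊆ A3 ∪ A4 := by
    intro l hl
    by_contra hcon
    simp only [hA3, hA4, mem_union, mem_filter, mem_univ, true_and] at hcon
    push Not at hcon
    obtain ⟨g3, g4⟩ := hcon
    apply mem_compl.mp hl
    simp only [Gset, mem_filter, mem_univ, true_and]
    intro i hi
    have h1 := ZMod.val_lt (π l)
    have := pi_add_int π l h ((i : ℤ) - ((π l).val : ℤ)) (by omega) (by omega) g3 g4
    have e : base π l + (i : ZMod H) = l + (((i : ℤ) - ((π l).val : ℤ) : ℤ) : ZMod H) := by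
      unfold base
      push_cast
      ring
    rw [e, this]
    push_cast
    rw [ZMod.natCast_zmod_val]
    ring
  have c3 : A3.card ≤ h * (Bset π).card :=
    card_exists_le (Bset π) h (fun i l => l + (i : ZMod H)) fun i => add_left_injective _
  have c4 : A4.card ≤ h * (Bset π).card :=
    card_exists_le (Bset π) h (fun i l => l - ((i : ZMod H) + 1)) fun i => sub_left_injective
  have hc := card_le_card hsub
  have u1 := card_union_le A3 A4
  rw [mul_assoc, two_mul]
  omega

lemma mem_Gset {l : ZMod H} : l ∈ Gset π ↔ good π l := by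
  classical
  simp [Gset]

lemma card_defect_lift (σ : Equiv.Perm (ZMod h)) :
    (univ.filter fun l => π (lift π σ l) ≠ σ (π l)).card ≤ 2 * h * (Bset π).card := by
  refine le_trans (card_le_card ?_) (card_Gset_compl π)
  intro l hl
  rw [mem_compl, mem_Gset]
  intro hg
  exact (mem_filter.mp hl).2 (pi_liftF π σ hg)

end

end Pool.Agent.H44.WH
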