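import Pool.Agent.H44.WH.Seq

/-!
The limit of the construction: every countable intersection of dense open sets of automorphisms
contains an automorphism with a nontrivial weakly homoclinic element.
-/

set_option linter.unusedSectionVars false

open MeasureTheory Set Filter Topology
open scoped ENNReal symmDiff

namespace Pool.Agent.H44.WH

/-- equality of labels gives closeness -/
lemma close_of_lab {h : ℕ} [NeZero h] (e₁ e₂ : ℝ → ℝ) (h₁ : MeasurePreserving e₁ mu mu)
    (h₂ : MeasurePreserving e₂ mu mu) (δ : ℝ) (hδ : 1 / (h : ℝ) ≤ δ) :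
    mu.real {x | δ ≤ |e₁ x - e₂ x|} ≤ mu.real {x | lab h (e₁ x) ≠ lab h (e₂ x)} := by
  have hsub : {x | δ ≤ |e₁ x - e₂ x|} ⊆ ({x | lab h (e₁ x) ≠ lab h (e₂ x)} ∪
      e₁ ⁻¹' (Set.Ico (0 : ℝ) 1)ᶜ) ∪ e₂ ⁻¹' (Set.Ico (0 : ℝ) 1)ᶜ := by
    intro x hx
    by_contra hcon
    simp only [mem_union, mem_preimage, mem_compl_iff, not_or, not_not, mem_ofPred_eq] at hcon
    obtain ⟨⟨c1, c2⟩, c3⟩ := hcon
    have := abs_sub_lt_of_lab c2 c3 c1
    exact absurd (lt_of_lt_of_le this hδ) (not_lt.mpr hx)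
  calc _ ≤ _ := measureReal_mono hsub
    _ ≤ mu.real ({x | lab h (e₁ x) ≠ lab h (e₂ x)} ∪ e₁ ⁻¹' (Set.Ico (0 : ℝ) 1)ᶜ) +
        mu.real (e₂ ⁻¹' (Set.Ico (0 : ℝ) 1)ᶜ) := measureReal_union_le _ _
    _ ≤ (mu.real {x | lab h (e₁ x) ≠ lab h (e₂ x)} + mu.real (e₁ ⁻¹' (Set.Ico (0 : ℝ) 1)ᶜ)) +
        mu.real (e₂ ⁻¹' (Set.Ico (0 : ℝ) 1)ᶜ) := by
        gcongr
        exact measureReal_union_le _ _
    _ = _ := by rw [mu_real_preimage_compl_Ico h₁, mu_real_preimage_compl_Ico h₂]; ring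

/-- inverses of maps with close labels -/
lemma lab_inv {h : ℕ} [NeZero h] (ρ : Equiv.Perm (Fin h)) (e₁ : ℝ ≃ᵐ ℝ)
    (h₁ : MeasurePreserving (e₁ : ℝ → ℝ) mu mu) :
    mu.real {x | lab h (e₁.symm x) ≠ lab h ((iv ρ).symm x)} =
      mu.real {x | lab h (e₁ x) ≠ lab h (iv ρ x)} := by
  have hm : MeasurableSet {x | lab h (e₁.symm x) ≠ lab h ((iv ρ).symm x)} := by
    have a1 : Measurable fun x => lab h (e₁.symm x) := measurable_lab.comp e₁.symm.measurable
    have a2 : Measurable fun x => lab h ((iv ρ).symm x) :=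
      measurable_lab.comp (iv ρ).symm.measurable
    exact (measurableSet_eq_fun a1 a2).compl
  rw [← measureReal_preimage h₁ hm]
  apply measureReal_congr
  have hI : ∀ᵐ x ∂mu, e₁ x ∈ Set.Ico (0 : ℝ) 1 := h₁.quasiMeasurePreserving.ae ae_mem_Ico
  filter_upwards [ae_mem_Ico, hI] with x hx hx'
  apply propext
  change (lab h (e₁.symm (e₁ x)) ≠ lab h ((iv ρ).symm (e₁ x))) ↔ (lab h (e₁ x) ≠ lab h (iv ρ x))
  rw [MeasurableEquiv.symm_apply_apply, iv_symm]
  have b1 : lab h (iv ρ⁻¹ (e₁ x)) = ρ⁻¹ (lab h (e₁ x)) := lab_ivF _ hx'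
  have b2 : lab h (iv ρ x) = ρ (lab h x) := lab_ivF _ hx
  rw [b1, b2]
  constructor
  · intro h3 h4
    apply h3
    rw [h4]
    simp
  · intro h3 h4
    apply h3
    rw [h4]
    simp

lemma mp_iv_symm {h : ℕ} [NeZero h] (ρ : Equiv.Perm (Fin h)) :
    MeasurePreserving ((iv ρ).symm : ℝ → ℝ) mu mu := by
  rw [iv_symm]
  exact mp_iv _

/-- iterates of an interval permutation -/
lemma iter_iv {h : ℕ} [NeZero h] (ρ : Equiv.Perm (Fin h)) (m : ℕ) {x : ℝ}
    (hx : x ∈ Set.Ico (0 : ℝ) 1) :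
    (iv ρ : ℝ → ℝ)^[m] x ∈ Set.Ico (0 : ℝ) 1 ∧
      lab h ((iv ρ : ℝ → ℝ)^[m] x) = (ρ ^ m) (lab h x) := by
  induction m with
  | zero => exact ⟨hx, rfl⟩
  | succ m ih =>
    rw [Function.iterate_succ_apply']
    refine ⟨ivF_mem ρ ih.1, ?_⟩
    have : lab h (iv ρ ((iv ρ : ℝ → ℝ)^[m] x)) = ρ (lab h ((iv ρ : ℝ → ℝ)^[m] x)) :=
      lab_ivF ρ ih.1
    rw [this, ih.2, pow_succ', Equiv.Perm.mul_apply]

lemma cyc_pow {H : ℕ} (e : ZMod H ≃ Fin H) (m : ℕ) (i : Fin H) :
    ((cyc e) ^ m) i = e (e.symm i + m) := by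
  induction m with
  | zero => simp
  | succ m ih =>
    rw [pow_succ', Equiv.Perm.mul_apply, ih, cyc_apply, Equiv.symm_apply_apply]
    push_cast
    rw [add_assoc]

lemma cyc_inv_pow {H : ℕ} (e : ZMod H ≃ Fin H) (m : ℕ) (i : Fin H) :
    ((cyc e)⁻¹ ^ m) i = e (e.symm i - m) := by
  have h1 := cyc_pow e m (e (e.symm i - m))
  rw [Equiv.symm_apply_apply, sub_add_cancel, Equiv.apply_symm_apply] at h1
  rw [inv_pow, Equiv.Perm.inv_eq_iff_eq]
  exact h1.symm

/-- the conjugated second automorphism -/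
noncomputable def conj (T S : ℝ ≃ᵐ ℝ) (m : ℕ) : ℝ → ℝ :=
  (T.symm : ℝ → ℝ)^[m] ∘ (S : ℝ → ℝ) ∘ (T : ℝ → ℝ)^[m]

/-- labels of the conjugated second automorphism at a stage -/
lemma lab_conj (s : Stage) (m : ℕ) {x : ℝ} (hx : x ∈ Set.Ico (0 : ℝ) 1) :
    conj s.T.1 s.Sm.1 m x ∈ Set.Ico (0 : ℝ) 1 ∧
    lab s.h (conj s.T.1 s.Sm.1 m x) = s.e (s.σ (s.e.symm (lab s.h x) + m) - m) := by
  have h1 := iter_iv (cyc s.e) m hx
  have h2m : iv (s.e.permCongr s.σ) ((iv (cyc s.e) : ℝ → ℝ)^[m] x) ∈ Set.Ico (0 : ℝ) 1 :=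
    ivF_mem _ h1.1
  have h2 : lab s.h (iv (s.e.permCongr s.σ) ((iv (cyc s.e) : ℝ → ℝ)^[m] x)) =
      (s.e.permCongr s.σ) (lab s.h ((iv (cyc s.e) : ℝ → ℝ)^[m] x)) := lab_ivF _ h1.1
  have h3 := iter_iv (cyc s.e)⁻¹ m h2m
  have e : conj s.T.1 s.Sm.1 m x = (iv (cyc s.e)⁻¹ : ℝ → ℝ)^[m]
      (iv (s.e.permCongr s.σ) ((iv (cyc s.e) : ℝ → ℝ)^[m] x)) := rfl
  rw [e]
  refine ⟨h3.1, ?_⟩
  rw [h3.2, h2, h1.2, cyc_inv_pow, cyc_pow, Equiv.permCongr_apply, Equiv.symm_apply_apply,
    Equiv.symm_apply_apply]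

section
variable {U : ℕ → Set AutT} {st : ℕ → St} {q : ℕ → ℕ}
  (hR : ∀ k, Rel (U k) k (st k) (st (k + 1)) (q k))
include hR

lemma prod_pos (p j : ℕ) : 0 < ∏ i ∈ Finset.range j, q (p + i) := by
  apply Finset.prod_pos
  intro i _
  have := (hR (p + i)).hq
  omega

/-- measure of the set where the conjugate moves a step set -/
lemma conj_measure (p j m : ℕ) (g : Fin (st p).s.h → Prop) :
    mu.real (((conj (st (p + j)).s.T.1 (st (p + j)).s.Sm.1 m) ⁻¹'
        {x | g (lab (st p).s.h x)}) ∆ {x | g (lab (st p).s.h x)}) ≤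
      (eN (st (p + j)).s.σ (zet st q p j) (m : ZMod (st (p + j)).s.h) : ℝ) /
        (st (p + j)).s.h := by
  classical
  set s := (st (p + j)).s with hs
  set Q := ∏ i ∈ Finset.range j, q (p + i) with hQ
  have hQpos : 0 < Q := prod_pos hR p j
  have hprod : s.h = (st p).s.h * Q := h_prod hR p j
  set P : Fin s.h → Prop := fun i =>
    zet st q p j (s.σ (s.e.symm i + m) - m) ≠ zet st q p j (s.e.symm i) with hP
  have hsub : (((conj s.T.1 s.Sm.1 m) ⁻¹' {x | g (lab (st p).s.h x)}) ∆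
      {x | g (lab (st p).s.h x)}) ⊆ {x | P (lab s.h x)} ∪ (Set.Ico (0 : ℝ) 1)ᶜ := by
    intro x hx
    by_contra hcon
    simp only [mem_union, mem_compl_iff, not_or, not_not, mem_ofPred_eq] at hcon
    obtain ⟨c1, c2⟩ := hcon
    have c1' : zet st q p j (s.σ (s.e.symm (lab s.h x) + m) - m) =
        zet st q p j (s.e.symm (lab s.h x)) := not_not.mp c1
    obtain ⟨d1, d2⟩ := lab_conj s m c2
    have e1 : lab (st p).s.h (conj s.T.1 s.Sm.1 m x) = lab (st p).s.h x := by
      apply Fin.ext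
      rw [lab_div hprod hQpos d1, lab_div hprod hQpos c2, d2]
      have c1'' : (s.e (s.σ (s.e.symm (lab s.h x) + m) - m)).val / Q =
        (s.e (s.e.symm (lab s.h x))).val / Q := c1'
      rw [Equiv.apply_symm_apply] at c1''
      exact c1''
    rw [Set.mem_symmDiff] at hx
    rcases hx with ⟨a, b⟩ | ⟨a, b⟩
    · apply b
      have a' : g (lab (st p).s.h (conj s.T.1 s.Sm.1 m x)) := a
      rw [e1] at a'
      exact a'
    · apply b
      change g (lab (st p).s.h (conj s.T.1 s.Sm.1 m x))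
      rw [e1]
      exact a
  have hcard : (Finset.univ.filter P).card =
      eN s.σ (zet st q p j) (m : ZMod s.h) := by
    unfold eN
    apply Finset.card_bij (fun i _ => s.e.symm i + m)
    · intro i hi
      have h1 := (Finset.mem_filter.mp hi).2
      refine Finset.mem_filter.mpr ⟨Finset.mem_univ _, ?_⟩
      rw [add_sub_cancel_right]
      exact h1
    · intro i _ i' _ hii
      exact s.e.symm.injective (add_right_cancel hii)
    · intro l hl
      refine ⟨s.e (l - m), ?_, ?_⟩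
      · refine Finset.mem_filter.mpr ⟨Finset.mem_univ _, ?_⟩
        have h1 := (Finset.mem_filter.mp hl).2
        simp only [hP, Equiv.symm_apply_apply, sub_add_cancel]
        exact h1
      · rw [Equiv.symm_apply_apply, sub_add_cancel]
  calc _ ≤ _ := measureReal_mono hsub
    _ ≤ mu.real {x | P (lab s.h x)} + mu.real (Set.Ico (0 : ℝ) 1)ᶜ := measureReal_union_le _ _
    _ = _ := by rw [mu_real_compl_Ico, add_zero, mu_lab P, hcard]

end

/-- sums over times at a stage -/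
lemma sum_eN_eq {H : ℕ} [NeZero H] (σ : Equiv.Perm (ZMod H)) (ζ : ZMod H → ℕ) (N : ℕ)
    (hN : 0 < N) :
    ∑ m ∈ Finset.Icc 1 N, (eN σ ζ (m : ZMod H) : ℝ) / H = AE σ ζ N * N := by
  have hNr : (0 : ℝ) < N := by exact_mod_cast hN
  have hH := hpos H
  unfold AE
  rw [← Finset.sum_div]
  field_simp

lemma conj_wconv {T S : ℕ → ℝ ≃ᵐ ℝ} {T' S' : ℝ ≃ᵐ ℝ}
    (hT : WConv (fun n => (T n : ℝ → ℝ)) T') (hTs : WConv (fun n => ((T n).symm : ℝ → ℝ)) T'.symm)
    (hS : WConv (fun n => (S n : ℝ → ℝ)) S')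
    (hTm : ∀ n, MeasurePreserving (T n : ℝ → ℝ) mu mu)
    (hTsm : ∀ n, MeasurePreserving ((T n).symm : ℝ → ℝ) mu mu)
    (hSm : ∀ n, MeasurePreserving (S n : ℝ → ℝ) mu mu) (m : ℕ) :
    WConv (fun n => conj (T n) (S n) m) (conj T' S' m) := by
  unfold conj
  have h1 := hT.iterate hTm T'.measurable m
  have h2 := hTs.iterate hTsm T'.symm.measurable m
  have h3 : WConv (fun n => (S n : ℝ → ℝ) ∘ (T n : ℝ → ℝ)^[m]) ((S' : ℝ → ℝ) ∘ (T' : ℝ → ℝ)^[m]) :=
    hS.comp h1 (fun n => (hTm n).iterate m) (fun n => (S n).measurable) S'.measurable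
  exact h2.comp h3 (fun n => (hSm n).comp ((hTm n).iterate m))
    (fun n => (T n).symm.measurable.iterate m) (T'.symm.measurable.iterate m)

/-- Main construction. -/
theorem main_exists (U : ℕ → Set AutT) (hU : ∀ k, IsOpen[weakTop] (U k))
    (hUd : ∀ k, @Dense _ weakTop (U k)) :
    ∃ T : AutT, (∀ k, T ∈ U k) ∧ ∃ S : ℝ ≃ᵐ ℝ, MeasurePreserving (S : ℝ → ℝ) mu mu ∧
      (¬ ∀ᵐ x ∂mu, S x = x) ∧
      ∀ A : Set ℝ, MeasurableSet A → ∀ η : ℝ, 0 < η → ∃ M : ℕ, ∀ N ≥ M,
        ∑ m ∈ Finset.Icc 1 N, mu.real (((conj T.1 S m) ⁻¹' A) ∆ A) ≤ η * N := by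
  classical
  obtain ⟨st, q, h0, hR⟩ := exists_seq U hU hUd
  have hinv : ∀ k, 1 / ((st k).s.h : ℝ) ≤ (1 / 2 : ℝ) ^ k := by
    intro k
    have := h_ge hR h0 k
    rw [one_div_pow]
    apply one_div_le_one_div_of_le (by positivity)
    exact_mod_cast this
  -- limits
  obtain ⟨T', hT'm, hT'c, hT's⟩ := exists_limit (fun n => (st n).s.T.1) (fun n => (st n).s.T.2)
    (fun n => mp_iv_symm (cyc (st n).s.e)) eps summable_eps (fun n => (eps_pos n).le)
    (fun n => le_trans (close_of_lab _ _ (st (n + 1)).s.T.2 (st n).s.T.2 _ (hinv n)) (hR n).hTT)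
    (fun n => le_trans (close_of_lab (h := (st n).s.h) _ _
        (mp_iv_symm (cyc (st (n + 1)).s.e)) (mp_iv_symm (cyc (st n).s.e)) _ (hinv n))
      ((lab_inv (cyc (st n).s.e) (st (n + 1)).s.T.1 (st (n + 1)).s.T.2).trans_le (hR n).hTT))
  obtain ⟨S', hS'm, hS'c, -⟩ := exists_limit (fun n => (st n).s.Sm.1) (fun n => (st n).s.Sm.2)
    (fun n => mp_iv_symm _) eps summable_eps (fun n => (eps_pos n).le)
    (fun n => le_trans (close_of_lab _ _ (st (n + 1)).s.Sm.2 (st n).s.Sm.2 _ (hinv n))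
      (hR n).hSS)
    (fun n => le_trans (close_of_lab (h := (st n).s.h) _ _
        (mp_iv_symm _) (mp_iv_symm _) _ (hinv n))
      ((lab_inv ((st n).s.e.permCongr (st n).s.σ) (st (n + 1)).s.Sm.1
        (st (n + 1)).s.Sm.2).trans_le (hR n).hSS))
  refine ⟨⟨T', hT'm⟩, ?_, S', hS'm, ?_, ?_⟩
  · -- membership in the open sets
    intro k
    have hanti : ∀ n, (st (k + 1 + n)).V ⊆ (st (k + 1)).V := by
      intro n
      induction n with
      | zero => exact subset_rfl
      | succ n ih => exact (hR (k + 1 + n)).hVV.trans ih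
    apply (hR k).hlim (fun n => (st n).s.T) ⟨T', hT'm⟩ hT'c
    refine ⟨k + 1, fun n hn => ?_⟩
    obtain ⟨i, rfl⟩ := Nat.exists_eq_add_of_le hn
    exact hanti i (st (k + 1 + i)).hT
  · -- the limit is not the identity
    intro hid
    have hK : ∀ n, ∃ K, 0 < K ∧ (st n).s.h = 2 * K := by
      intro n
      refine ⟨_, prod_pos hR 0 n, ?_⟩
      have h1 := h_prod hR 0 n
      have e1 : (st 0).s.h = 2 := by rw [h0]; rfl
      rw [e1, zero_add] at h1
      exact h1
    have hstep : ∀ n, mu.real {x | lab 2 ((st (n + 1)).s.Sm.1 x) ≠ lab 2 ((st n).s.Sm.1 x)} ≤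
        eps n := by
      intro n
      obtain ⟨K, hKpos, hK2⟩ := hK n
      refine le_trans ?_ (hR n).hSS
      have hsub : {x | lab 2 ((st (n + 1)).s.Sm.1 x) ≠ lab 2 ((st n).s.Sm.1 x)} ⊆
          ({x | lab (st n).s.h ((st (n + 1)).s.Sm.1 x) ≠ lab (st n).s.h ((st n).s.Sm.1 x)} ∪
            (st (n + 1)).s.Sm.1 ⁻¹' (Set.Ico (0 : ℝ) 1)ᶜ) ∪
            (st n).s.Sm.1 ⁻¹' (Set.Ico (0 : ℝ) 1)ᶜ := by
        intro x hx
        by_contra hcon
        simp only [mem_union, mem_preimage, mem_compl_iff, not_or, not_not,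
          mem_ofPred_eq] at hcon
        obtain ⟨⟨c1, c2⟩, c3⟩ := hcon
        have c1' := c1
        apply hx
        apply Fin.ext
        rw [lab_div hK2 hKpos c2, lab_div hK2 hKpos c3, c1']
      calc _ ≤ _ := measureReal_mono hsub
        _ ≤ mu.real ({x | lab (st n).s.h ((st (n + 1)).s.Sm.1 x) ≠
              lab (st n).s.h ((st n).s.Sm.1 x)} ∪
            (st (n + 1)).s.Sm.1 ⁻¹' (Set.Ico (0 : ℝ) 1)ᶜ) +
            mu.real ((st n).s.Sm.1 ⁻¹' (Set.Ico (0 : ℝ) 1)ᶜ) := measureReal_union_le _ _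
        _ ≤ (mu.real {x | lab (st n).s.h ((st (n + 1)).s.Sm.1 x) ≠
              lab (st n).s.h ((st n).s.Sm.1 x)} +
            mu.real ((st (n + 1)).s.Sm.1 ⁻¹' (Set.Ico (0 : ℝ) 1)ᶜ)) +
            mu.real ((st n).s.Sm.1 ⁻¹' (Set.Ico (0 : ℝ) 1)ᶜ) := by
            gcongr
            exact measureReal_union_le _ _
        _ = _ := by
          rw [mu_real_preimage_compl_Ico (st (n + 1)).s.Sm.2,
            mu_real_preimage_compl_Ico (st n).s.Sm.2]
          ring
    have hbase : mu.real {x | lab 2 ((st 0).s.Sm.1 x) ≠ lab 2 x} = 1 := by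
      have e1 : (st 0).s.Sm = s0.Sm := by rw [h0]; rfl
      rw [e1]
      have e2 : mu.real {x | lab 2 (s0.Sm.1 x) ≠ lab 2 x} = mu.real Set.univ := by
        apply measureReal_congr
        filter_upwards [ae_mem_Ico] with x hx
        apply propext
        constructor
        · intro _
          trivial
        · intro _
          have h1 : lab 2 (s0.Sm.1 x) = ((zf 2).permCongr (Equiv.addRight 1)) (lab 2 x) :=
            lab_ivF _ hx
          change lab 2 (s0.Sm.1 x) ≠ lab 2 x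
          rw [h1, Equiv.permCongr_apply]
          intro hc
          have h2 := congrArg (zf 2).symm hc
          rw [Equiv.symm_apply_apply, Equiv.coe_addRight] at h2
          have h3 : (1 : ZMod 2) = 0 := by
            have := add_eq_left.mp h2
            exact this
          exact absurd h3 (by decide)
      rw [e2]
      simp
    have hlow : ∀ n, 1 - ∑ i ∈ Finset.range n, eps i ≤
        mu.real {x | lab 2 ((st n).s.Sm.1 x) ≠ lab 2 x} := by
      intro n
      induction n with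
      | zero => rw [hbase]; simp
      | succ n ih =>
        rw [Finset.sum_range_succ]
        have h1 : mu.real {x | lab 2 ((st n).s.Sm.1 x) ≠ lab 2 x} ≤
            mu.real {x | lab 2 ((st (n + 1)).s.Sm.1 x) ≠ lab 2 x} +
            mu.real {x | lab 2 ((st (n + 1)).s.Sm.1 x) ≠ lab 2 ((st n).s.Sm.1 x)} := by
          refine le_trans (measureReal_mono ?_) (measureReal_union_le _ _)
          intro x hx
          by_cases hc : lab 2 ((st (n + 1)).s.Sm.1 x) = lab 2 ((st n).s.Sm.1 x)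
          · left
            change lab 2 ((st (n + 1)).s.Sm.1 x) ≠ lab 2 x
            rw [hc]
            exact hx
          · right
            exact hc
        have h2 := hstep n
        linarith
    have hsum : ∀ n, ∑ i ∈ Finset.range n, eps i ≤ 1 / 4 := by
      intro n
      have h1 := sum_eps 0 n
      have h2 : eps 0 = 1 / 8 := by unfold eps; norm_num
      rw [h2] at h1
      simp only [zero_add] at h1
      linarith
    -- the limit
    set A : Set ℝ := {x | lab 2 x = 0} with hA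
    have hAm : MeasurableSet A := measurable_lab (measurableSet_singleton 0)
    have hc := hS'c A hAm
    have hle : ∀ n, 3 / 4 ≤ mu.real (((st n).s.Sm.1 ⁻¹' A) ∆ ((S' : ℝ → ℝ) ⁻¹' A)) := by
      intro n
      have h1 : mu.real {x | lab 2 ((st n).s.Sm.1 x) ≠ lab 2 x} ≤
          mu.real (((st n).s.Sm.1 ⁻¹' A) ∆ ((S' : ℝ → ℝ) ⁻¹' A)) := by
        have h2 : mu.real (((st n).s.Sm.1 ⁻¹' A) ∆ ((S' : ℝ → ℝ) ⁻¹' A)) =
            mu.real (((st n).s.Sm.1 ⁻¹' A) ∆ A) := by
          apply measureReal_congr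
          filter_upwards [hid] with x hx
          apply propext
          change x ∈ ((st n).s.Sm.1 ⁻¹' A) ∆ ((S' : ℝ → ℝ) ⁻¹' A) ↔
            x ∈ ((st n).s.Sm.1 ⁻¹' A) ∆ A
          rw [Set.mem_symmDiff, Set.mem_symmDiff, Set.mem_preimage (f := (S' : ℝ → ℝ)), hx]
        rw [h2]
        refine measureReal_mono ?_
        intro x hx
        rw [Set.mem_symmDiff]
        have hx' : lab 2 ((st n).s.Sm.1 x) ≠ lab 2 x := hx
        by_cases h3 : lab 2 x = 0
        · right
          refine ⟨h3, ?_⟩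
          intro h4
          have h4' : lab 2 ((st n).s.Sm.1 x) = 0 := h4
          exact hx' (h4'.trans h3.symm)
        · left
          refine ⟨?_, h3⟩
          change lab 2 ((st n).s.Sm.1 x) = 0
          have h5 : ∀ a b : Fin 2, a ≠ b → b ≠ 0 → a = 0 := by decide
          exact h5 _ _ hx' h3
      have h2 := hlow n
      have h3 := hsum n
      linarith
    have := ge_of_tendsto hc (Filter.Eventually.of_forall hle)
    linarith
  · -- weak homoclinicity
    intro A hA η hη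
    -- approximate A
    set L : ℝ → Fin 2 := fun x => if x ∈ A then 1 else 0 with hL
    have hLm : Measurable L := Measurable.ite hA measurable_const measurable_const
    obtain ⟨p, hN₀⟩ := exists_step_approx L hLm (η / 4) (by positivity)
    have hp : p ≤ (st p).s.h := le_trans (Nat.lt_two_pow_self).le (h_ge hR h0 p)
    obtain ⟨g, hg⟩ := hN₀ (st p).s.h hp
    set A' : Set ℝ := {x | g (lab (st p).s.h x) = 1} with hA'
    have hA'm : MeasurableSet A' :=
      measurable_lab (MeasurableSet.of_discrete (s := {i | g i = 1}))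
    have hAA' : mu.real (A ∆ A') ≤ η / 4 := by
      refine le_trans (measureReal_mono ?_) hg
      intro x hx
      rw [Set.mem_symmDiff] at hx
      change g (lab (st p).s.h x) ≠ L x
      rcases hx with ⟨a, b⟩ | ⟨a, b⟩
      · intro hc
        apply b
        change g (lab (st p).s.h x) = 1
        rw [hc, hL]
        simp [a]
      · intro hc
        have a' : g (lab (st p).s.h x) = 1 := a
        rw [hc, hL] at a'
        simp [b] at a'
    obtain ⟨M, j₀, hMj⟩ := uniform_small hR p (η / 4) (by positivity)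
    refine ⟨max M 1, fun N hN => ?_⟩
    have hNM : M ≤ N := le_trans (le_max_left _ _) hN
    have hN1 : 0 < N := lt_of_lt_of_le one_pos (le_trans (le_max_right _ _) hN)
    have hNr : (0 : ℝ) < N := by exact_mod_cast hN1
    -- estimate for A'
    have hconj : ∀ m, MeasurePreserving (conj T' S' m) mu mu := by
      intro m
      have hT's : MeasurePreserving (T'.symm : ℝ → ℝ) mu mu :=
        MeasurePreserving.symm T' hT'm
      exact (hT's.iterate m).comp (hS'm.comp (hT'm.iterate m))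
    have hw : ∀ m, WConv (fun n => conj (st n).s.T.1 (st n).s.Sm.1 m) (conj T' S' m) := by
      intro m
      exact conj_wconv hT'c hT's hS'c (fun n => (st n).s.T.2)
        (fun n => mp_iv_symm (cyc (st n).s.e)) (fun n => (st n).s.Sm.2) m
    have hA'est : ∑ m ∈ Finset.Icc 1 N, mu.real (((conj T' S' m) ⁻¹' A') ∆ A') ≤
        η / 4 * N := by
      have hj : ∀ j, j₀ ≤ j → ∑ m ∈ Finset.Icc 1 N, mu.real (((conj T' S' m) ⁻¹' A') ∆ A') ≤
          (∑ m ∈ Finset.Icc 1 N, mu.real (((conj (st (p + j)).s.T.1 (st (p + j)).s.Sm.1 m) ⁻¹' A')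
            ∆ ((conj T' S' m) ⁻¹' A'))) + η / 4 * N := by
        intro j hjj
        have h1 : ∀ m ∈ Finset.Icc 1 N, mu.real (((conj T' S' m) ⁻¹' A') ∆ A') ≤
            mu.real (((conj (st (p + j)).s.T.1 (st (p + j)).s.Sm.1 m) ⁻¹' A')
              ∆ ((conj T' S' m) ⁻¹' A')) +
            (eN (st (p + j)).s.σ (zet st q p j) (m : ZMod (st (p + j)).s.h) : ℝ) /
              (st (p + j)).s.h := by
          intro m _
          have h2 := symmDiff_triangle_real ((conj T' S' m) ⁻¹' A')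
            ((conj (st (p + j)).s.T.1 (st (p + j)).s.Sm.1 m) ⁻¹' A') A'
          have h3 := conj_measure hR p j m (fun i => g i = 1)
          rw [symmDiff_comm ((conj T' S' m) ⁻¹' A')
            ((conj (st (p + j)).s.T.1 (st (p + j)).s.Sm.1 m) ⁻¹' A')] at h2
          have h3' : mu.real (((conj (st (p + j)).s.T.1 (st (p + j)).s.Sm.1 m) ⁻¹' A') ∆ A') ≤
            (eN (st (p + j)).s.σ (zet st q p j) (m : ZMod (st (p + j)).s.h) : ℝ) /
              (st (p + j)).s.h := h3
          linarith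
        refine le_trans (Finset.sum_le_sum h1) ?_
        rw [Finset.sum_add_distrib, sum_eN_eq _ _ _ hN1]
        have h4 := mul_le_mul_of_nonneg_right (hMj N hNM j hjj) hNr.le
        linarith
      have hlim : Tendsto (fun j : ℕ => (∑ m ∈ Finset.Icc 1 N,
          mu.real (((conj (st (p + j)).s.T.1 (st (p + j)).s.Sm.1 m) ⁻¹' A')
            ∆ ((conj T' S' m) ⁻¹' A'))) + η / 4 * N) atTop
          (𝓝 ((∑ _m ∈ Finset.Icc 1 N, (0 : ℝ)) + η / 4 * N)) := by
        apply Tendsto.add_const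
        apply tendsto_finsetSum
        intro m _
        have h2 : Tendsto (fun j : ℕ => p + j) atTop atTop := by
          apply tendsto_atTop_mono (fun j => _) tendsto_id
          intro j; simp only [id]; omega
        exact (hw m A' hA'm).comp h2
      have hfin := ge_of_tendsto hlim (eventually_atTop.mpr ⟨j₀, fun j hjj => hj j hjj⟩)
      simpa using hfin
    have hterm : ∀ m ∈ Finset.Icc 1 N, mu.real (((conj T' S' m) ⁻¹' A) ∆ A) ≤
        mu.real (((conj T' S' m) ⁻¹' A') ∆ A') + η / 2 := by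
      intro m _
      have h1 := symmDiff_triangle_real ((conj T' S' m) ⁻¹' A) ((conj T' S' m) ⁻¹' A') A
      have h2 := symmDiff_triangle_real ((conj T' S' m) ⁻¹' A') A' A
      have h3 : mu.real (((conj T' S' m) ⁻¹' A) ∆ ((conj T' S' m) ⁻¹' A')) ≤ η / 4 := by
        rw [← preimage_symmDiff', measureReal_preimage (hconj m) (hA.symmDiff hA'm)]
        exact hAA'
      rw [symmDiff_comm A' A] at h2
      linarith
    refine le_trans (Finset.sum_le_sum hterm) ?_
    rw [Finset.sum_add_distrib, Finset.sum_const, Nat.card_Icc, nsmul_eq_mul]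
    have : ((N + 1 - 1 : ℕ) : ℝ) = N := by simp
    rw [this]
    nlinarith

end Pool.Agent.H44.WH
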