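import Pool.Agent.H44.WH.Step

/-!
The recursive construction.
-/

set_option linter.unusedSectionVars false

open MeasureTheory Set Filter Topology
open scoped ENNReal symmDiff

namespace Pool.Agent.H44.WH

/-- the error at step `k` -/
noncomputable def eps (k : ℕ) : ℝ := (1 / 2 : ℝ) ^ (k + 3)

lemma eps_pos (k : ℕ) : 0 < eps k := by unfold eps; positivity

lemma eps_le_one (k : ℕ) : eps k ≤ 1 := by
  unfold eps
  exact pow_le_one₀ (by norm_num) (by norm_num)

lemma eps_eq (k : ℕ) : eps k = (1 / 8) * (1 / 2 : ℝ) ^ k := by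
  unfold eps
  rw [pow_add]
  ring

lemma summable_eps : Summable eps := by
  have : eps = fun k => (1 / 8) * (1 / 2 : ℝ) ^ k := by
    funext k
    exact eps_eq k
  rw [this]
  exact (summable_geometric_of_lt_one (by norm_num) (by norm_num)).mul_left _

/-- finite sums of errors -/
lemma sum_eps (a n : ℕ) : ∑ i ∈ Finset.range n, eps (a + i) ≤ 2 * eps a := by
  have h : ∀ n, ∑ i ∈ Finset.range n, eps (a + i) = 2 * eps a - 2 * eps (a + n) := by
    intro n
    induction n with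
    | zero => simp
    | succ n ih =>
      rw [Finset.sum_range_succ, ih]
      have : eps (a + (n + 1)) = (1 / 2) * eps (a + n) := by
        rw [eps_eq, eps_eq, ← add_assoc, pow_succ]
        ring
      rw [this]
      ring
  rw [h]
  linarith [eps_pos (a + n)]

/-- the time threshold at step `k` -/
noncomputable def thr (k h : ℕ) : ℕ := ⌈4 * (h : ℝ) / eps k⌉₊

/-- a stage with a neighbourhood -/
structure St where
  s : Stage
  V : Set AutT
  hV : IsOpen[weakTop] V
  hT : s.T ∈ V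

/-- relation between consecutive stages -/
structure Rel (U : Set AutT) (k : ℕ) (a b : St) (q : ℕ) : Prop where
  hh : b.s.h = a.s.h * q
  hq : 2 ≤ q
  hVV : b.V ⊆ a.V
  hlim : ∀ (S : ℕ → AutT) (S' : AutT), WConv (fun n => (S n).1) S'.1 →
    (∃ N, ∀ n ≥ N, S n ∈ b.V) → S' ∈ U
  hTT : mu.real {x | lab a.s.h (b.s.T.1 x) ≠ lab a.s.h (a.s.T.1 x)} ≤ eps k
  hSS : mu.real {x | lab a.s.h (b.s.Sm.1 x) ≠ lab a.s.h (a.s.Sm.1 x)} ≤ eps k
  hc : ∀ (ξ : ℕ → ℕ) (N : ℕ), N ≤ thr k a.s.h → AE b.s.σ (fun l => ξ ((b.s.e l).val / q)) N ≤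
        AE a.s.σ (fun j => ξ (a.s.e j).val) N + eps k
  hd : ∀ (ξ : ℕ → ℕ) (N : ℕ), thr k a.s.h ≤ N → AE b.s.σ (fun l => ξ ((b.s.e l).val / q)) N ≤
        1 / ((k + 2 : ℕ) : ℝ) + QR a.s.σ (fun j => ξ (a.s.e j).val) + eps k
  he : ∀ (ξ : ℕ → ℕ), QR b.s.σ (fun l => ξ ((b.s.e l).val / q)) ≤
        (1 - 1 / ((k + 2 : ℕ) : ℝ)) * QR a.s.σ (fun j => ξ (a.s.e j).val) +
          2 / (((k + 2 : ℕ) : ℝ) * ((k + 2 : ℕ) : ℝ)) + eps k

lemma exists_next (U : Set AutT) (hU : IsOpen[weakTop] U) (hUd : @Dense _ weakTop U) (k : ℕ)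
    (a : St) : ∃ (b : St) (q : ℕ), Rel U k a b q := by
  have hhr := hpos a.s.h
  have hep := eps_pos k
  have hM : (a.s.h : ℝ) ≤ (eps k / 4) * (thr k a.s.h : ℕ) := by
    have h1 : 4 * (a.s.h : ℝ) / eps k ≤ (thr k a.s.h : ℕ) := Nat.le_ceil _
    rw [div_le_iff₀ hep] at h1
    linarith
  have hM0 : 0 < thr k a.s.h := by
    unfold thr
    rw [Nat.ceil_pos]
    positivity
  obtain ⟨s', q, h1, h2, h3, h4, h5, h6, h7, h8, h9⟩ := step a.s a.V U a.hV a.hT hU hUd (k + 2)
    (by omega) (eps k) hep (eps_le_one k) (thr k a.s.h) hM0 hM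
  have hO : IsOpen[weakTop] (a.V ∩ U) := by
    let _ := weakTop
    exact IsOpen.inter a.hV hU
  obtain ⟨V', hV'1, hV'2, hV'3, hV'4⟩ := exists_regular (a.V ∩ U) hO s'.T ⟨h3, h4⟩
  refine ⟨⟨s', V', hV'1, hV'2⟩, q, ?_⟩
  exact
    { hh := h1
      hq := h2
      hVV := fun x hx => (hV'3 hx).1
      hlim := fun S S' hS hN => (hV'4 S S' hS hN).2
      hTT := h5
      hSS := h6
      hc := h7
      hd := h8
      he := h9 }

/-- initial stage: two intervals, swapped -/
def s0 : Stage := ⟨2, ⟨by norm_num⟩, Equiv.addRight 1, zf 2⟩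

/-- initial state -/
def st0 : St := ⟨s0, Set.univ, by let _ := weakTop; exact isOpen_univ, trivial⟩

/-- The sequence of stages. -/
theorem exists_seq (U : ℕ → Set AutT) (hU : ∀ k, IsOpen[weakTop] (U k))
    (hUd : ∀ k, @Dense _ weakTop (U k)) :
    ∃ (st : ℕ → St) (q : ℕ → ℕ), st 0 = st0 ∧ ∀ k, Rel (U k) k (st k) (st (k + 1)) (q k) := by
  choose b q hbq using fun (k : ℕ) (a : St) => exists_next (U k) (hU k) (hUd k) k a
  let st : ℕ → St := fun n => Nat.rec st0 (fun k a => b k a) n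
  exact ⟨st, fun k => q k (st k), rfl, fun k => hbq k (st k)⟩

section
variable {U : ℕ → Set AutT} {st : ℕ → St} {q : ℕ → ℕ}
  (hR : ∀ k, Rel (U k) k (st k) (st (k + 1)) (q k))
include hR

lemma h_ge (h0 : st 0 = st0) (k : ℕ) : 2 ^ k ≤ (st k).s.h := by
  induction k with
  | zero => rw [h0]; simp [st0, s0]
  | succ k ih =>
    rw [(hR k).hh, pow_succ]
    exact Nat.mul_le_mul ih (hR k).hq

/-- product of the ratios -/
lemma h_prod (p j : ℕ) : (st (p + j)).s.h = (st p).s.h * ∏ i ∈ Finset.range j, q (p + i) := by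
  induction j with
  | zero => simp
  | succ j ih =>
    rw [← add_assoc, (hR (p + j)).hh, ih, Finset.prod_range_succ, mul_assoc]

end

/-- label of level `p` at stage `p + j` -/
def zet (st : ℕ → St) (q : ℕ → ℕ) (p j : ℕ) (l : ZMod (st (p + j)).s.h) : ℕ :=
  ((st (p + j)).s.e l).val / ∏ i ∈ Finset.range j, q (p + i)

section
variable {U : ℕ → Set AutT} {st : ℕ → St} {q : ℕ → ℕ}
  (hR : ∀ k, Rel (U k) k (st k) (st (k + 1)) (q k))
include hR

lemma F_short (p j N : ℕ) (hN : N ≤ thr (p + j) (st (p + j)).s.h) :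
    AE (st (p + (j + 1))).s.σ (zet st q p (j + 1)) N ≤
      AE (st (p + j)).s.σ (zet st q p j) N + eps (p + j) := by
  have := (hR (p + j)).hc (fun v => v / ∏ i ∈ Finset.range j, q (p + i)) N hN
  have e : (zet st q p (j + 1)) = fun l : ZMod (st (p + j + 1)).s.h =>
      (((st (p + j + 1)).s.e l).val / q (p + j)) / ∏ i ∈ Finset.range j, q (p + i) := by
    funext l
    unfold zet
    rw [Finset.prod_range_succ, Nat.div_div_eq_div_mul, mul_comm (q (p + j))]
    rfl
  rw [e]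
  exact this

lemma F_long (p j N : ℕ) (hN : thr (p + j) (st (p + j)).s.h ≤ N) :
    AE (st (p + (j + 1))).s.σ (zet st q p (j + 1)) N ≤
      1 / ((p + j + 2 : ℕ) : ℝ) + QR (st (p + j)).s.σ (zet st q p j) + eps (p + j) := by
  have := (hR (p + j)).hd (fun v => v / ∏ i ∈ Finset.range j, q (p + i)) N hN
  have e : (zet st q p (j + 1)) = fun l : ZMod (st (p + j + 1)).s.h =>
      (((st (p + j + 1)).s.e l).val / q (p + j)) / ∏ i ∈ Finset.range j, q (p + i) := by
    funext l
    unfold zet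
    rw [Finset.prod_range_succ, Nat.div_div_eq_div_mul, mul_comm (q (p + j))]
    rfl
  rw [e]
  exact this

lemma G_step (p j : ℕ) :
    QR (st (p + (j + 1))).s.σ (zet st q p (j + 1)) ≤
      (1 - 1 / ((p + j + 2 : ℕ) : ℝ)) * QR (st (p + j)).s.σ (zet st q p j) +
        2 / (((p + j + 2 : ℕ) : ℝ) * ((p + j + 2 : ℕ) : ℝ)) + eps (p + j) := by
  have := (hR (p + j)).he (fun v => v / ∏ i ∈ Finset.range j, q (p + i))
  have e : (zet st q p (j + 1)) = fun l : ZMod (st (p + j + 1)).s.h =>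
      (((st (p + j + 1)).s.e l).val / q (p + j)) / ∏ i ∈ Finset.range j, q (p + i) := by
    funext l
    unfold zet
    rw [Finset.prod_range_succ, Nat.div_div_eq_div_mul, mul_comm (q (p + j))]
    rfl
  rw [e]
  exact this

end

/-- a recursive inequality forcing convergence to zero -/
lemma tendsto_of_rec (G : ℕ → ℝ) (p : ℕ) (hG0 : ∀ j, 0 ≤ G j)
    (hrec : ∀ j, G (j + 1) ≤ (1 - 1 / ((p + j + 2 : ℕ) : ℝ)) * G j +
        2 / (((p + j + 2 : ℕ) : ℝ) * ((p + j + 2 : ℕ) : ℝ)) + eps (p + j)) :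
    Tendsto G atTop (𝓝 0) := by
  -- r j = (p + j + 1) * G j
  set u : ℕ → ℝ := fun j => 2 / ((p + j + 2 : ℕ) : ℝ) + ((p + j + 2 : ℕ) : ℝ) * eps (p + j) with hu
  have hu0 : Tendsto u atTop (𝓝 (0 + 0)) := by
    apply Tendsto.add
    · have h1 : Tendsto (fun n : ℕ => (2 : ℝ) / (n : ℝ)) atTop (𝓝 0) :=
        tendsto_const_div_atTop_nhds_zero_nat 2
      have h2 : Tendsto (fun j : ℕ => p + j + 2) atTop atTop := by
        apply tendsto_atTop_mono (fun j => _) tendsto_id
        intro j; simp only [id]; omega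
      exact h1.comp h2
    · have h1 : Tendsto (fun n : ℕ => (n : ℝ) * (1 / 2 : ℝ) ^ n) atTop (𝓝 0) :=
        tendsto_self_mul_const_pow_of_lt_one (by norm_num) (by norm_num)
      have h2 : Tendsto (fun j : ℕ => p + j + 2) atTop atTop := by
        apply tendsto_atTop_mono (fun j => _) tendsto_id
        intro j; simp only [id]; omega
      have h3 := (h1.comp h2).mul_const (1 / 2 : ℝ)
      rw [zero_mul] at h3
      refine h3.congr fun j => ?_
      simp only [Function.comp]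
      unfold eps
      have e3 : (1 / 2 : ℝ) ^ (p + j + 3) = (1 / 2 : ℝ) ^ (p + j + 2) * (1 / 2) := by
        rw [← pow_succ]
      rw [e3]
      ring
  rw [add_zero] at hu0
  have hr : ∀ j, ((p + j + 1 : ℕ) : ℝ) * G j ≤ (p + 1 : ℕ) * G 0 + ∑ i ∈ Finset.range j, u i := by
    intro j
    induction j with
    | zero => simp
    | succ j ih =>
      rw [Finset.sum_range_succ]
      have hp : (0 : ℝ) < ((p + j + 2 : ℕ) : ℝ) := by positivity
      have h1 := mul_le_mul_of_nonneg_left (hrec j) hp.le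
      have e1 : ((p + j + 2 : ℕ) : ℝ) * ((1 - 1 / ((p + j + 2 : ℕ) : ℝ)) * G j +
        2 / (((p + j + 2 : ℕ) : ℝ) * ((p + j + 2 : ℕ) : ℝ)) + eps (p + j)) =
        (((p + j + 2 : ℕ) : ℝ) - 1) * G j + u j := by
        simp only [hu]
        field_simp
        ring
      rw [e1] at h1
      have e2 : ((p + j + 2 : ℕ) : ℝ) - 1 = ((p + j + 1 : ℕ) : ℝ) := by push_cast; ring
      rw [e2] at h1
      have e3 : p + (j + 1) + 1 = p + j + 2 := by ring
      rw [e3]
      linarith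
  have hces : Tendsto (fun j : ℕ => ((j : ℝ))⁻¹ * ∑ i ∈ Finset.range j, u i) atTop (𝓝 0) :=
    hu0.cesaro
  have hc2 : Tendsto (fun j : ℕ => ((j : ℝ))⁻¹ * ((p + 1 : ℕ) * G 0)) atTop (𝓝 0) := by
    have := (tendsto_inv_atTop_nhds_zero_nat (𝕜 := ℝ)).mul_const (((p + 1 : ℕ) : ℝ) * G 0)
    rwa [zero_mul] at this
  have hsum := hc2.add hces
  rw [add_zero] at hsum
  refine squeeze_zero' (Filter.Eventually.of_forall hG0) ?_ hsum
  filter_upwards [eventually_gt_atTop 0] with j hj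
  have hjr : (0 : ℝ) < j := by exact_mod_cast hj
  rw [← mul_add]
  have h1 := hr j
  have h2 : (j : ℝ) * G j ≤ ((p + j + 1 : ℕ) : ℝ) * G j := by
    apply mul_le_mul_of_nonneg_right _ (hG0 j)
    push_cast
    have : (0 : ℝ) ≤ p := Nat.cast_nonneg p
    linarith
  rw [inv_mul_eq_div, le_div_iff₀ hjr]
  linarith

/-- the key uniform estimate -/
lemma uniform_small {U : ℕ → Set AutT} {st : ℕ → St} {q : ℕ → ℕ}
    (hR : ∀ k, Rel (U k) k (st k) (st (k + 1)) (q k)) (p : ℕ) (η : ℝ) (hη : 0 < η) :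
    ∃ (M j₀ : ℕ), ∀ N, M ≤ N → ∀ j, j₀ ≤ j →
      AE (st (p + j)).s.σ (zet st q p j) N ≤ η := by
  set G : ℕ → ℝ := fun j => QR (st (p + j)).s.σ (zet st q p j) with hG
  have hG0 : Tendsto G atTop (𝓝 0) :=
    tendsto_of_rec G p (fun j => QR_nonneg _ _) (fun j => G_step hR p j)
  have hb : Tendsto (fun j : ℕ => 1 / ((p + j + 2 : ℕ) : ℝ) + G j + eps (p + j)) atTop (𝓝 0) := by
    have h1 : Tendsto (fun n : ℕ => (1 : ℝ) / (n : ℝ)) atTop (𝓝 0) :=
      tendsto_one_div_atTop_nhds_zero_nat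
    have h2 : Tendsto (fun j : ℕ => p + j + 2) atTop atTop := by
      apply tendsto_atTop_mono (fun j => _) tendsto_id
      intro j; simp only [id]; omega
    have h3 : Tendsto (fun j : ℕ => p + j) atTop atTop := by
      apply tendsto_atTop_mono (fun j => _) tendsto_id
      intro j; simp only [id]; omega
    have h4 : Tendsto (fun j : ℕ => eps (p + j)) atTop (𝓝 0) :=
      summable_eps.tendsto_atTop_zero.comp h3
    have := ((h1.comp h2).add hG0).add h4
    simpa using this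
  have he : Tendsto (fun j : ℕ => 2 * eps (p + j)) atTop (𝓝 0) := by
    have h3 : Tendsto (fun j : ℕ => p + j) atTop atTop := by
      apply tendsto_atTop_mono (fun j => _) tendsto_id
      intro j; simp only [id]; omega
    have h4 : Tendsto (fun j : ℕ => eps (p + j)) atTop (𝓝 0) :=
      summable_eps.tendsto_atTop_zero.comp h3
    have := h4.const_mul 2
    simpa using this
  have hb' := (hb.eventually (gt_mem_nhds (show (0 : ℝ) < η / 2 by positivity)))
  have he' := (he.eventually (gt_mem_nhds (show (0 : ℝ) < η / 2 by positivity)))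
  obtain ⟨j₁, hj₁⟩ := eventually_atTop.mp (hb'.and he')
  refine ⟨thr (p + j₁) (st (p + j₁)).s.h, j₁ + 1, ?_⟩
  intro N hN
  have key : ∀ i : ℕ, AE (st (p + (j₁ + 1 + i))).s.σ (zet st q p (j₁ + 1 + i)) N ≤
      η / 2 + ∑ t ∈ Finset.range i, eps (p + j₁ + 1 + t) := by
    intro i
    induction i with
    | zero =>
      simp only [add_zero, Finset.range_zero, Finset.sum_empty]
      have := F_long hR p j₁ N hN
      have h2 := (hj₁ j₁ le_rfl).1
      linarith
    | succ i ih =>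
      rw [Finset.sum_range_succ]
      rcases le_total N (thr (p + (j₁ + 1 + i)) (st (p + (j₁ + 1 + i))).s.h) with hc | hc
      · have := F_short hR p (j₁ + 1 + i) N hc
        have e1 : p + (j₁ + 1 + i) = p + j₁ + 1 + i := by ring
        have e2 : eps (p + (j₁ + 1 + i)) = eps (p + j₁ + 1 + i) := by rw [e1]
        rw [← e2]
        have h3 : AE (st (p + (j₁ + 1 + (i + 1)))).s.σ (zet st q p (j₁ + 1 + (i + 1))) N ≤
          AE (st (p + (j₁ + 1 + i))).s.σ (zet st q p (j₁ + 1 + i)) N + eps (p + (j₁ + 1 + i)) :=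
          this
        linarith
      · have := F_long hR p (j₁ + 1 + i) N hc
        have h2 := (hj₁ (j₁ + 1 + i) (by omega)).1
        have h3 : AE (st (p + (j₁ + 1 + (i + 1)))).s.σ (zet st q p (j₁ + 1 + (i + 1))) N ≤
          1 / ((p + (j₁ + 1 + i) + 2 : ℕ) : ℝ) +
            QR (st (p + (j₁ + 1 + i))).s.σ (zet st q p (j₁ + 1 + i)) +
            eps (p + (j₁ + 1 + i)) := this
        have h4 : 0 ≤ ∑ t ∈ Finset.range i, eps (p + j₁ + 1 + t) :=
          Finset.sum_nonneg fun t _ => (eps_pos _).le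
        have h5 := eps_pos (p + j₁ + 1 + i)
        have h6 : G (j₁ + 1 + i) = QR (st (p + (j₁ + 1 + i))).s.σ (zet st q p (j₁ + 1 + i)) := rfl
        linarith
  intro j hj
  obtain ⟨i, rfl⟩ := Nat.exists_eq_add_of_le hj
  have h1 := key i
  have h2 := sum_eps (p + j₁ + 1) i
  have h3 := (hj₁ (j₁ + 1) (by omega)).2
  have h4 : eps (p + (j₁ + 1)) = eps (p + j₁ + 1) := by rw [← add_assoc]
  rw [h4] at h3
  linarith

end Pool.Agent.H44.WH
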