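import Pool.Agent.H44.WH.Density
import Pool.Agent.H44.WH.Est

/-!
One step of the construction.
-/

set_option linter.unusedSectionVars false

open MeasureTheory Set Filter Topology
open scoped ENNReal symmDiff

namespace Pool.Agent.H44.WH

/-- comparison of two interval permutations through a label map -/
lemma lab_compare {h H q : ℕ} [NeZero h] [NeZero H] (hH : H = h * q) (hq : 0 < q)
    (e : ZMod h ≃ Fin h) (e' : ZMod H ≃ Fin H) (π : ZMod H → ZMod h)
    (hc : ∀ l, (e' l).val / q = (e (π l)).val) (τ : Equiv.Perm (ZMod h))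
    (τ' : Equiv.Perm (ZMod H)) :
    mu.real {x | lab h (iv (e'.permCongr τ') x) ≠ lab h (iv (e.permCongr τ) x)} =
      ((Finset.univ.filter fun l => π (τ' l) ≠ τ (π l)).card : ℝ) / H := by
  classical
  have h1 : mu.real {x | lab h (iv (e'.permCongr τ') x) ≠ lab h (iv (e.permCongr τ) x)} =
      mu.real {x | π (τ' (e'.symm (lab H x))) ≠ τ (π (e'.symm (lab H x)))} := by
    apply measureReal_congr
    filter_upwards [ae_mem_Ico] with x hx
    apply propext
    have hy : iv (e'.permCongr τ') x ∈ Set.Ico (0 : ℝ) 1 := ivF_mem (e'.permCongr τ') hx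
    have a1 : (lab h (iv (e'.permCongr τ') x)).val = (e (π (τ' (e'.symm (lab H x))))).val := by
      rw [lab_div hH hq hy, ← hc]
      congr 2
      exact lab_ivF (e'.permCongr τ') hx
    have a2 : lab h x = e (π (e'.symm (lab H x))) := by
      apply Fin.ext
      rw [lab_div hH hq hx, ← hc, Equiv.apply_symm_apply]
    have a3 : lab h (iv (e.permCongr τ) x) = e (τ (π (e'.symm (lab H x)))) := by
      have h3 : lab h (iv (e.permCongr τ) x) = (e.permCongr τ) (lab h x) :=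
        lab_ivF (e.permCongr τ) hx
      rw [h3, a2, Equiv.permCongr_apply, Equiv.symm_apply_apply]
    have a4 : lab h (iv (e'.permCongr τ') x) = e (π (τ' (e'.symm (lab H x)))) := Fin.ext a1
    change (lab h (iv (e'.permCongr τ') x) ≠ lab h (iv (e.permCongr τ) x)) ↔
      (π (τ' (e'.symm (lab H x))) ≠ τ (π (e'.symm (lab H x))))
    rw [a3, a4]
    exact (e.injective.eq_iff).not
  rw [h1, mu_lab (fun i : Fin H => π (τ' (e'.symm i)) ≠ τ (π (e'.symm i)))]
  congr 2
  apply Finset.card_bij (fun i _ => e'.symm i)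
  · intro i hi
    exact Finset.mem_filter.mpr ⟨Finset.mem_univ _, (Finset.mem_filter.mp hi).2⟩
  · intro i _ j _ hij
    exact e'.symm.injective hij
  · intro l hl
    refine ⟨e' l, Finset.mem_filter.mpr ⟨Finset.mem_univ _, ?_⟩, Equiv.symm_apply_apply _ _⟩
    rw [Equiv.symm_apply_apply]
    exact (Finset.mem_filter.mp hl).2

/-- a compatible enumeration -/
lemma exists_compat {h H q : ℕ} [NeZero h] [NeZero H] (hH : H = h * q) (hq : 0 < q)
    (e : ZMod h ≃ Fin h) (π : ZMod H → ZMod h)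
    (hbal : ∀ j, (Finset.univ.filter fun l => π l = j).card = q) :
    ∃ e' : ZMod H ≃ Fin H, ∀ l, (e' l).val / q = (e (π l)).val := by
  classical
  have hf : ∀ j, Nonempty ({l // π l = j} ≃ Fin q) := by
    intro j
    rw [← Fintype.card_eq, Fintype.card_fin, Fintype.card_subtype]
    exact hbal j
  let f : ∀ j, {l // π l = j} ≃ Fin q := fun j => (hf j).some
  let E : ZMod H ≃ Fin (h * q) :=
    (((Equiv.sigmaFiberEquiv π).symm.trans (Equiv.sigmaCongrRight f)).trans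
      (Equiv.sigmaEquivProd _ _)).trans
      ((Equiv.prodCongr e (Equiv.refl (Fin q))).trans finProdFinEquiv)
  refine ⟨E.trans (finCongr hH.symm), ?_⟩
  intro l
  have : (E l).val = (f (π l) ⟨l, rfl⟩).val + q * (e (π l)).val := rfl
  change (E l).val / q = _
  rw [this, Nat.add_mul_div_left _ _ hq, Nat.div_eq_of_lt (f (π l) ⟨l, rfl⟩).2, zero_add]

/-- the label map induced by two enumerations -/
def indPi {h H q : ℕ} (hH : H = h * q) (hq : 0 < q) (e : ZMod h ≃ Fin h) (e' : ZMod H ≃ Fin H)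
    (l : ZMod H) : ZMod h :=
  e.symm ⟨(e' l).val / q, by rw [Nat.div_lt_iff_lt_mul hq, ← hH]; exact (e' l).2⟩

lemma indPi_compat {h H q : ℕ} (hH : H = h * q) (hq : 0 < q) (e : ZMod h ≃ Fin h)
    (e' : ZMod H ≃ Fin H) (l : ZMod H) : (e' l).val / q = (e (indPi hH hq e e' l)).val := by
  unfold indPi
  rw [Equiv.apply_symm_apply]

lemma indPi_balanced {h H q : ℕ} [NeZero h] [NeZero H] (hH : H = h * q) (hq : 0 < q)
    (e : ZMod h ≃ Fin h) (e' : ZMod H ≃ Fin H) (j : ZMod h) :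
    (Finset.univ.filter fun l => indPi hH hq e e' l = j).card = q := by
  classical
  have hle : ∀ j ∈ (Finset.univ : Finset (ZMod h)),
      (Finset.univ.filter fun l => indPi hH hq e e' l = j).card ≤ q := by
    intro j _
    have : (Finset.univ.filter fun l => indPi hH hq e e' l = j).card ≤ (Finset.range q).card := by
      apply Finset.card_le_card_of_injOn (fun l => (e' l).val % q)
      · intro l _
        simp only [Finset.coe_range, Set.mem_Iio]
        exact Nat.mod_lt _ hq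
      · intro l1 hl1 l2 hl2 heq
        have b1 := (Finset.mem_filter.mp (Finset.mem_coe.mp hl1)).2
        have b2 := (Finset.mem_filter.mp (Finset.mem_coe.mp hl2)).2
        have c1 := indPi_compat hH hq e e' l1
        have c2 := indPi_compat hH hq e e' l2
        rw [b1] at c1
        rw [b2] at c2
        have heq' : (e' l1).val % q = (e' l2).val % q := heq
        apply e'.injective
        apply Fin.ext
        rw [← Nat.div_add_mod (e' l1).val q, ← Nat.div_add_mod (e' l2).val q, c1, c2, heq']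
    simpa using this
  have hsum : ∑ j : ZMod h, (Finset.univ.filter fun l => indPi hH hq e e' l = j).card =
      ∑ _j : ZMod h, q := by
    rw [← Finset.card_eq_sum_card_fiberwise (f := fun l => indPi hH hq e e' l)
      (s := Finset.univ) (t := Finset.univ) (fun _ _ => Finset.mem_univ _)]
    rw [Finset.card_univ, ZMod.card, Finset.sum_const, Finset.card_univ, ZMod.card, smul_eq_mul,
      hH]
  exact (Finset.sum_eq_sum_iff_of_le hle).mp hsum j (Finset.mem_univ j)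

/-- a stage of the construction -/
structure Stage where
  h : ℕ
  ne : NeZero h
  σ : Equiv.Perm (ZMod h)
  e : ZMod h ≃ Fin h

instance (s : Stage) : NeZero s.h := s.ne

/-- the transformation of a stage -/
noncomputable def Stage.T (s : Stage) : AutT := ⟨iv (cyc s.e), mp_iv _⟩

/-- the second automorphism of a stage -/
noncomputable def Stage.Sm (s : Stage) : AutT := ⟨iv (s.e.permCongr s.σ), mp_iv _⟩

/-- One step of the construction. -/
theorem step (s : Stage) (V U : Set AutT) (hV : IsOpen[weakTop] V) (hTV : s.T ∈ V)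
    (hU : IsOpen[weakTop] U) (hUd : @Dense _ weakTop U) (C : ℕ) (hC : 2 ≤ C) (ε : ℝ)
    (hε : 0 < ε) (hε1 : ε ≤ 1) (M : ℕ) (hM0 : 0 < M) (hM : (s.h : ℝ) ≤ (ε / 4) * M) :
    ∃ (s' : Stage) (q : ℕ), s'.h = s.h * q ∧ 2 ≤ q ∧ s'.T ∈ V ∧ s'.T ∈ U ∧
      mu.real {x | lab s.h (s'.T.1 x) ≠ lab s.h (s.T.1 x)} ≤ ε ∧
      mu.real {x | lab s.h (s'.Sm.1 x) ≠ lab s.h (s.Sm.1 x)} ≤ ε ∧
      (∀ (ξ : ℕ → ℕ) (N : ℕ), N ≤ M → AE s'.σ (fun l => ξ ((s'.e l).val / q)) N ≤
        AE s.σ (fun j => ξ (s.e j).val) N + ε) ∧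
      (∀ (ξ : ℕ → ℕ) (N : ℕ), M ≤ N → AE s'.σ (fun l => ξ ((s'.e l).val / q)) N ≤
        1 / C + QR s.σ (fun j => ξ (s.e j).val) + ε) ∧
      (∀ (ξ : ℕ → ℕ), QR s'.σ (fun l => ξ ((s'.e l).val / q)) ≤
        (1 - 1 / C) * QR s.σ (fun j => ξ (s.e j).val) + 2 / (C * C) + ε) := by
  classical
  have hhpos := hpos s.h
  obtain ⟨β, hβ, hstep⟩ := comb_step s.h s.σ C hC ε hε hε1 M hM0 hM
  -- the neighbourhood of `s.T`
  set Ib : Fin s.h → Set ℝ := fun b => {y | lab s.h y = b} with hIb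
  have hIbm : ∀ b, MeasurableSet (Ib b) := fun b => measurable_lab (measurableSet_singleton b)
  set Ns : Set AutT := ⋂ b : Fin s.h,
    {T' : AutT | mu.real ((T'.1 ⁻¹' (Ib b)) ∆ (s.T.1 ⁻¹' (Ib b))) < β / s.h} with hNs
  have hβh : 0 < β / s.h := by positivity
  have hNso : IsOpen[weakTop] Ns := by
    let _ := weakTop
    apply isOpen_iInter_of_finite
    intro b
    exact isOpen_basic s.T (Ib b) (hIbm b) _ hβh
  have hTNs : s.T ∈ Ns := by
    simp only [hNs, mem_iInter, mem_ofPred_eq]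
    intro b
    rw [symmDiff_self]
    simpa using hβh
  have hNs_close : ∀ T' ∈ Ns, mu.real {x | lab s.h (T'.1 x) ≠ lab s.h (s.T.1 x)} ≤ β := by
    intro T' hT'
    simp only [hNs, mem_iInter, mem_ofPred_eq] at hT'
    have hsub : {x | lab s.h (T'.1 x) ≠ lab s.h (s.T.1 x)} ⊆
        ⋃ b : Fin s.h, (T'.1 ⁻¹' (Ib b)) ∆ (s.T.1 ⁻¹' (Ib b)) := by
      intro x hx
      rw [mem_iUnion]
      refine ⟨lab s.h (T'.1 x), ?_⟩
      rw [Set.mem_symmDiff]
      left
      exact ⟨rfl, fun hc => hx (Eq.symm hc)⟩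
    calc _ ≤ _ := measureReal_mono hsub
      _ ≤ ∑ b : Fin s.h, mu.real ((T'.1 ⁻¹' (Ib b)) ∆ (s.T.1 ⁻¹' (Ib b))) :=
          measureReal_iUnion_fintype_le _
      _ ≤ ∑ _b : Fin s.h, β / s.h := Finset.sum_le_sum fun b _ => (hT' b).le
      _ = β := by
          rw [Finset.sum_const, Finset.card_univ, Fintype.card_fin, nsmul_eq_mul]
          field_simp
  -- pick a point of the dense open set
  obtain ⟨T₀, hT₀1, hT₀U⟩ : ∃ T₀ : AutT, T₀ ∈ V ∩ Ns ∧ T₀ ∈ U := by
    let _ := weakTop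
    have hopen : IsOpen (V ∩ Ns) := IsOpen.inter hV hNso
    obtain ⟨x, hx⟩ := hUd.inter_open_nonempty (V ∩ Ns) hopen ⟨s.T, hTV, hTNs⟩
    exact ⟨x, hx.1, hx.2⟩
  have hWo : IsOpen[weakTop] ((V ∩ Ns) ∩ U) := by
    let _ := weakTop
    exact IsOpen.inter (IsOpen.inter hV hNso) hU
  obtain ⟨η, hη, hηW⟩ := exists_eta ((V ∩ Ns) ∩ U) hWo T₀ ⟨hT₀1, hT₀U⟩
  -- cyclic approximation
  obtain ⟨m, hm⟩ := exists_nat_gt (2 / η)
  have hmr : (0 : ℝ) < m := lt_trans (by positivity) hm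
  have hmpos : 0 < m := by exact_mod_cast hmr
  have hspos : 0 < s.h := NeZero.pos s.h
  obtain ⟨H, hHne, e₁, hdvd, hclose⟩ := density T₀ (η / 2) (by positivity) (s.h * m)
    (Nat.mul_pos hspos hmpos)
  have hHpos : 0 < H := NeZero.pos H
  have hHr := hpos H
  obtain ⟨r, hr⟩ := hdvd
  have hrpos : 0 < r := by
    rcases Nat.eq_zero_or_pos r with h0 | h0
    · rw [h0, mul_zero] at hr; omega
    · exact h0
  set q₁ := m * r with hq₁
  have hq₁pos : 0 < q₁ := Nat.mul_pos hmpos hrpos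
  have hHq₁ : H = s.h * q₁ := by rw [hr, hq₁]; ring
  have h1H : 1 / (H : ℝ) < η / 2 := by
    have h1 : (m : ℝ) ≤ H := by
      have : m ≤ H := by
        rw [hHq₁, hq₁]
        calc m ≤ m * r := Nat.le_mul_of_pos_right m hrpos
          _ ≤ s.h * (m * r) := Nat.le_mul_of_pos_left _ hspos
      exact_mod_cast this
    rw [div_lt_iff₀ hHr]
    rw [div_lt_iff₀ hη] at hm
    nlinarith
  set T₁ : AutT := ⟨iv (cyc e₁), mp_iv _⟩ with hT₁
  have hT₁W : T₁ ∈ (V ∩ Ns) ∩ U := by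
    apply hηW
    refine le_trans (measureReal_mono ?_) (le_trans hclose (by linarith))
    intro x hx
    exact le_trans (by linarith) (show η ≤ _ from hx)
  set π₁ := indPi hHq₁ hq₁pos s.e e₁ with hπ₁
  have hbal₁ : ∀ j, (Finset.univ.filter fun l => π₁ l = j).card = q₁ :=
    indPi_balanced hHq₁ hq₁pos s.e e₁
  have hcomp₁ : ∀ l, (e₁ l).val / q₁ = (s.e (π₁ l)).val := indPi_compat hHq₁ hq₁pos s.e e₁
  have hB₁ : ((Bset π₁).card : ℝ) ≤ β * H := by
    have h1 := hNs_close T₁ hT₁W.1.2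
    have h2 := lab_compare hHq₁ hq₁pos s.e e₁ π₁ hcomp₁ (Equiv.addRight 1) (Equiv.addRight 1)
    have h3 : mu.real {x | lab s.h (T₁.1 x) ≠ lab s.h (s.T.1 x)} =
        ((Bset π₁).card : ℝ) / H := h2
    rw [h3, div_le_iff₀ hHr] at h1
    exact h1
  -- the improvement move
  obtain ⟨R₀, hR₀⟩ := hstep H q₁ (by rw [hHq₁]; ring) π₁ hbal₁ hB₁
  obtain ⟨R₁, hR₁⟩ := exists_nat_gt (2 / η)
  set R := max R₀ (R₁ + 1) with hR
  have hRpos : 0 < R := lt_of_lt_of_le (Nat.succ_pos _) (le_max_right _ _)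
  have hRr : (0 : ℝ) < R := by exact_mod_cast hRpos
  have hRη : 1 / (R : ℝ) ≤ η / 2 := by
    have h1 : (R₁ : ℝ) ≤ R := by
      have : R₁ ≤ R := le_trans (Nat.le_succ _) (le_max_right _ _)
      exact_mod_cast this
    rw [div_le_iff₀ hRr]
    rw [div_lt_iff₀ hη] at hR₁
    nlinarith
  have hCpos : 0 < C := by omega
  have hH'pos : 0 < (C * H * R) * H := by positivity
  have hneH' : NeZero ((C * H * R) * H) := ⟨hH'pos.ne'⟩
  obtain ⟨g1, g2, g3, g4, g5⟩ := hR₀ R (le_max_left _ _) hRpos ((C * H * R) * H) hCpos rfl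
  set H' := (C * H * R) * H with hH'
  have hH'r := hpos H'
  have hbal₂ : ∀ j, (Finset.univ.filter fun l : ZMod H' => piI H R l = j).card = C * H * R :=
    piI_balanced rfl
  have hCHR : 0 < C * H * R := by positivity
  obtain ⟨e₂, hcomp₂⟩ := exists_compat (h := H) (H := H') (q := C * H * R)
    (by rw [hH', mul_comm]) hCHR e₁ (piI H R) hbal₂
  set σ₂ := sIperm (H := H') hCpos hRpos rfl (lift π₁ s.σ) with hσ₂
  set s' : Stage := ⟨H', hneH', σ₂, e₂⟩ with hs'
  have hqpos : 0 < (C * H * R) * q₁ := Nat.mul_pos hCHR hq₁pos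
  have hH'q : H' = s.h * ((C * H * R) * q₁) := by
    rw [hH']
    conv_lhs => rw [mul_comm]
    rw [hHq₁]
    ring
  have hcomp : ∀ l : ZMod H', (e₂ l).val / ((C * H * R) * q₁) =
      (s.e (π₁ (piI H R l))).val := by
    intro l
    rw [← Nat.div_div_eq_div_mul, hcomp₂, hcomp₁]
  -- closeness of the new transformation to `T₁`
  have hT₂W : s'.T ∈ (V ∩ Ns) ∩ U := by
    apply hηW
    have h2 := lab_compare (h := H) (H := H') (q := C * H * R) (by rw [hH', mul_comm]) hCHR e₁ e₂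
      (piI H R) hcomp₂ (Equiv.addRight 1) (Equiv.addRight 1)
    have h3 : mu.real {x | lab H (s'.T.1 x) ≠ lab H (T₁.1 x)} =
        ((Bset (piI H R : ZMod H' → ZMod H)).card : ℝ) / H' := h2
    have h4 := Bset_piI_real (h := H) (H := H') hCpos hRpos rfl
    have h5 : mu.real {x | lab H (s'.T.1 x) ≠ lab H (T₁.1 x)} ≤ η / 2 := by
      rw [h3, div_le_iff₀ hH'r]
      refine le_trans h4 (mul_le_mul_of_nonneg_right ?_ hH'r.le)
      refine le_trans ?_ hRη
      apply one_div_le_one_div_of_le hRr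
      have : (1 : ℝ) ≤ H := by exact_mod_cast hHpos
      nlinarith
    have hsub : {x | η ≤ |s'.T.1 x - T₀.1 x|} ⊆
        (({x | lab H (s'.T.1 x) ≠ lab H (T₁.1 x)} ∪ {x | η / 2 ≤ |iv (cyc e₁) x - T₀.1 x|}) ∪
          (s'.T.1 ⁻¹' (Set.Ico (0 : ℝ) 1)ᶜ)) ∪ (T₁.1 ⁻¹' (Set.Ico (0 : ℝ) 1)ᶜ) := by
      intro x hx
      by_contra hcon
      simp only [mem_union, mem_compl_iff, mem_preimage, not_or, not_not] at hcon
      obtain ⟨⟨⟨a1, a2⟩, a3⟩, a4⟩ := hcon
      have a1' : lab H (s'.T.1 x) = lab H (T₁.1 x) := not_not.mp a1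
      have a2' : |iv (cyc e₁) x - T₀.1 x| < η / 2 := not_le.mp a2
      have b1 := abs_sub_lt_of_lab a3 a4 a1'
      have b2 : |s'.T.1 x - T₀.1 x| ≤ |s'.T.1 x - T₁.1 x| + |T₁.1 x - T₀.1 x| :=
        abs_sub_le _ _ _
      have b3 : |T₁.1 x - T₀.1 x| < η / 2 := a2'
      have b4 : η ≤ |s'.T.1 x - T₀.1 x| := hx
      linarith
    calc mu.real {x | η ≤ |s'.T.1 x - T₀.1 x|} ≤ _ := measureReal_mono hsub
      _ ≤ mu.real (({x | lab H (s'.T.1 x) ≠ lab H (T₁.1 x)} ∪
            {x | η / 2 ≤ |iv (cyc e₁) x - T₀.1 x|}) ∪ (s'.T.1 ⁻¹' (Set.Ico (0 : ℝ) 1)ᶜ)) +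
          mu.real (T₁.1 ⁻¹' (Set.Ico (0 : ℝ) 1)ᶜ) := measureReal_union_le _ _
      _ ≤ (mu.real ({x | lab H (s'.T.1 x) ≠ lab H (T₁.1 x)} ∪
            {x | η / 2 ≤ |iv (cyc e₁) x - T₀.1 x|}) +
          mu.real (s'.T.1 ⁻¹' (Set.Ico (0 : ℝ) 1)ᶜ)) + 0 := by
          rw [mu_real_preimage_compl_Ico T₁.2]
          gcongr
          exact measureReal_union_le _ _
      _ ≤ ((mu.real {x | lab H (s'.T.1 x) ≠ lab H (T₁.1 x)} +
            mu.real {x | η / 2 ≤ |iv (cyc e₁) x - T₀.1 x|}) + 0) + 0 := by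
          rw [mu_real_preimage_compl_Ico s'.T.2]
          gcongr
          exact measureReal_union_le _ _
      _ ≤ η := by linarith
  refine ⟨s', (C * H * R) * q₁, hH'q, ?_, hT₂W.1.1, hT₂W.2, ?_, ?_, ?_, ?_, ?_⟩
  · calc 2 ≤ C := hC
      _ ≤ C * (H * R * q₁) := Nat.le_mul_of_pos_right C (by positivity)
      _ = (C * H * R) * q₁ := by ring
  · have h2 := lab_compare hH'q hqpos s.e e₂ (fun l => π₁ (piI H R l)) hcomp
      (Equiv.addRight 1) (Equiv.addRight 1)
    have h3 : mu.real {x | lab s.h (s'.T.1 x) ≠ lab s.h (s.T.1 x)} =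
        ((Bset (fun l : ZMod H' => π₁ (piI H R l))).card : ℝ) / H' := h2
    rw [h3, div_le_iff₀ hH'r]
    exact g1
  · have h2 := lab_compare hH'q hqpos s.e e₂ (fun l => π₁ (piI H R l)) hcomp s.σ σ₂
    have h3 : mu.real {x | lab s.h (s'.Sm.1 x) ≠ lab s.h (s.Sm.1 x)} =
        ((Finset.univ.filter fun l : ZMod H' =>
          π₁ (piI H R (σ₂ l)) ≠ s.σ (π₁ (piI H R l))).card : ℝ) / H' := h2
    rw [h3, div_le_iff₀ hH'r]
    exact g2
  · intro ξ N hN
    have := g3 (fun j => ξ (s.e j).val) N hN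
    have e1 : (fun l : ZMod H' => ξ ((e₂ l).val / ((C * H * R) * q₁))) =
        fun l : ZMod H' => (fun j => ξ (s.e j).val) (π₁ (piI H R l)) := by
      funext l
      rw [hcomp]
    change AE σ₂ (fun l : ZMod H' => ξ ((e₂ l).val / ((C * H * R) * q₁))) N ≤ _
    rw [e1]
    exact this
  · intro ξ N hN
    have := g4 (fun j => ξ (s.e j).val) N hN
    have e1 : (fun l : ZMod H' => ξ ((e₂ l).val / ((C * H * R) * q₁))) =
        fun l : ZMod H' => (fun j => ξ (s.e j).val) (π₁ (piI H R l)) := by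
      funext l
      rw [hcomp]
    change AE σ₂ (fun l : ZMod H' => ξ ((e₂ l).val / ((C * H * R) * q₁))) N ≤ _
    rw [e1]
    exact this
  · intro ξ
    have := g5 (fun j => ξ (s.e j).val)
    have e1 : (fun l : ZMod H' => ξ ((e₂ l).val / ((C * H * R) * q₁))) =
        fun l : ZMod H' => (fun j => ξ (s.e j).val) (π₁ (piI H R l)) := by
      funext l
      rw [hcomp]
    change QR σ₂ (fun l : ZMod H' => ξ ((e₂ l).val / ((C * H * R) * q₁))) ≤ _
    rw [e1]
    exact this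

end Pool.Agent.H44.WH
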