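import Pool.Agent.H44.WH.Weak

/-!
The weak topology on automorphisms of `[0,1]`.
-/

set_option linter.unusedSectionVars false

open MeasureTheory Set Filter Topology
open scoped ENNReal symmDiff

namespace Pool.Agent.H44.WH

/-- automorphisms of `([0,1], Lebesgue)` -/
abbrev AutT := {T : ℝ ≃ᵐ ℝ // MeasurePreserving (T : ℝ → ℝ) (volume.restrict (Set.Icc (0:ℝ) 1))
            (volume.restrict (Set.Icc (0:ℝ) 1))}

/-- the weak topology -/
@[reducible] def weakTop : TopologicalSpace AutT :=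
  TopologicalSpace.generateFrom
    {U | ∃ T₀ : AutT, ∃ A : Set ℝ, MeasurableSet A ∧ ∃ δ : ℝ, 0 < δ ∧
      U = {S : AutT | (volume.restrict (Set.Icc (0:ℝ) 1))
        (symmDiff (((S.1 : ℝ ≃ᵐ ℝ) : ℝ → ℝ) ⁻¹' A)
          (((T₀.1 : ℝ ≃ᵐ ℝ) : ℝ → ℝ) ⁻¹' A)) < ENNReal.ofReal δ}}

lemma lt_ofReal_iff (S : Set ℝ) (δ : ℝ) : mu S < ENNReal.ofReal δ ↔ mu.real S < δ := by
  rw [measureReal_def]
  exact ENNReal.lt_ofReal_iff_toReal_lt (measure_ne_top _ _)

/-- neighbourhoods in the weak topology -/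
lemma exists_nhd (O : Set AutT) (hO : IsOpen[weakTop] O) (T : AutT) (hT : T ∈ O) :
    ∃ F : Finset (Set ℝ), (∀ A ∈ F, MeasurableSet A) ∧ ∃ δ : ℝ, 0 < δ ∧
      ∀ T' : AutT, (∀ A ∈ F, mu.real ((T'.1 ⁻¹' A) ∆ (T.1 ⁻¹' A)) < δ) → T' ∈ O := by
  classical
  change TopologicalSpace.GenerateOpen _ O at hO
  induction hO with
  | basic s hs =>
    obtain ⟨T₀, A, hA, δ, hδ, rfl⟩ := hs
    have h1 : mu.real ((T.1 ⁻¹' A) ∆ (T₀.1 ⁻¹' A)) < δ := (lt_ofReal_iff _ _).mp hT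
    refine ⟨{A}, by simpa using hA, δ - mu.real ((T.1 ⁻¹' A) ∆ (T₀.1 ⁻¹' A)), by linarith, ?_⟩
    intro T' hT'
    have h2 := hT' A (Finset.mem_singleton_self A)
    apply (lt_ofReal_iff _ _).mpr
    have h3 := symmDiff_triangle_real (T'.1 ⁻¹' A) (T.1 ⁻¹' A) (T₀.1 ⁻¹' A)
    linarith
  | univ => exact ⟨∅, by simp, 1, one_pos, fun _ _ => trivial⟩
  | inter s t _ _ ihs iht =>
    obtain ⟨F₁, hF₁, δ₁, hδ₁, h₁⟩ := ihs hT.1
    obtain ⟨F₂, hF₂, δ₂, hδ₂, h₂⟩ := iht hT.2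
    refine ⟨F₁ ∪ F₂, ?_, min δ₁ δ₂, lt_min hδ₁ hδ₂, ?_⟩
    · intro A hA
      rcases Finset.mem_union.mp hA with h | h
      · exact hF₁ A h
      · exact hF₂ A h
    · intro T' hT'
      refine ⟨h₁ T' fun A hA => ?_, h₂ T' fun A hA => ?_⟩
      · exact lt_of_lt_of_le (hT' A (Finset.mem_union_left _ hA)) (min_le_left _ _)
      · exact lt_of_lt_of_le (hT' A (Finset.mem_union_right _ hA)) (min_le_right _ _)
  | sUnion S _ ih =>
    obtain ⟨s, hs, hTs⟩ := hT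
    obtain ⟨F, hF, δ, hδ, h⟩ := ih s hs hTs
    exact ⟨F, hF, δ, hδ, fun T' hT' => ⟨s, hs, h T' hT'⟩⟩

/-- basic open sets -/
lemma isOpen_basic (T₀ : AutT) (A : Set ℝ) (hA : MeasurableSet A) (δ : ℝ) (hδ : 0 < δ) :
    IsOpen[weakTop] {T : AutT | mu.real ((T.1 ⁻¹' A) ∆ (T₀.1 ⁻¹' A)) < δ} := by
  apply TopologicalSpace.GenerateOpen.basic
  refine ⟨T₀, A, hA, δ, hδ, ?_⟩
  ext T
  simp only [mem_ofPred_eq]
  exact (lt_ofReal_iff _ _).symm

/-- closeness in measure to a point of an open set -/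
lemma exists_eta (O : Set AutT) (hO : IsOpen[weakTop] O) (T : AutT) (hT : T ∈ O) :
    ∃ η : ℝ, 0 < η ∧ ∀ T' : AutT, mu.real {x | η ≤ |T'.1 x - T.1 x|} ≤ η → T' ∈ O := by
  classical
  obtain ⟨F, hF, δ, hδ, h⟩ := exists_nhd O hO T hT
  have key : ∀ F' : Finset (Set ℝ), (∀ A ∈ F', MeasurableSet A) → ∃ η : ℝ, 0 < η ∧
      ∀ T' : AutT, mu.real {x | η ≤ |T'.1 x - T.1 x|} ≤ η →
        ∀ A ∈ F', mu.real ((T'.1 ⁻¹' A) ∆ (T.1 ⁻¹' A)) < δ := by
    intro F'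
    induction F' using Finset.induction_on with
    | empty => exact fun _ => ⟨1, one_pos, by simp⟩
    | insert A F'' _ ih =>
      intro hF'
      obtain ⟨η₁, hη₁, h₁⟩ := ih fun B hB => hF' B (Finset.mem_insert_of_mem hB)
      obtain ⟨η₂, hη₂, h₂⟩ := close_of_measure A (hF' A (Finset.mem_insert_self _ _)) δ hδ
      refine ⟨min η₁ η₂, lt_min hη₁ hη₂, ?_⟩
      intro T' hT' B hB
      have hmono : ∀ η', min η₁ η₂ ≤ η' →
          mu.real {x | η' ≤ |T'.1 x - T.1 x|} ≤ η' := by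
        intro η' hη'
        refine le_trans (measureReal_mono ?_) (le_trans hT' hη')
        intro x hx
        exact le_trans hη' hx
      rcases Finset.mem_insert.mp hB with hBA | hBF
      · subst hBA
        exact h₂ T.1 T'.1 T.2 T'.2 (hmono η₂ (min_le_right _ _))
      · exact h₁ T' (hmono η₁ (min_le_left _ _)) B hBF
  obtain ⟨η, hη, h'⟩ := key F hF
  exact ⟨η, hη, fun T' hT' => h T' (h' T' hT')⟩

/-- regularity: a smaller neighbourhood whose weak limits stay in the open set -/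
lemma exists_regular (O : Set AutT) (hO : IsOpen[weakTop] O) (T : AutT) (hT : T ∈ O) :
    ∃ V : Set AutT, IsOpen[weakTop] V ∧ T ∈ V ∧ V ⊆ O ∧
      ∀ (S : ℕ → AutT) (S' : AutT), WConv (fun n => (S n).1) S'.1 → (∃ N, ∀ n ≥ N, S n ∈ V) →
        S' ∈ O := by
  classical
  obtain ⟨F, hF, δ, hδ, h⟩ := exists_nhd O hO T hT
  refine ⟨⋂ A ∈ F, {T' : AutT | mu.real ((T'.1 ⁻¹' A) ∆ (T.1 ⁻¹' A)) < δ / 2}, ?_, ?_, ?_, ?_⟩
  · let _ := weakTop
    apply isOpen_biInter_finset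
    intro A hA
    exact isOpen_basic T A (hF A hA) (δ / 2) (by positivity)
  · simp only [mem_iInter, mem_ofPred_eq]
    intro A _
    rw [symmDiff_self]
    simp only [Set.bot_eq_empty, measureReal_empty]
    positivity
  · intro T' hT'
    apply h
    intro A hA
    simp only [mem_iInter, mem_ofPred_eq] at hT'
    linarith [hT' A hA]
  · intro S S' hS hN
    obtain ⟨N, hN⟩ := hN
    apply h
    intro A hA
    have h1 := hS A (hF A hA)
    rw [Metric.tendsto_atTop] at h1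
    obtain ⟨N', hN'⟩ := h1 (δ / 2) (by positivity)
    have h2 := hN' (max N N') (le_max_right _ _)
    rw [Real.dist_eq, sub_zero, abs_of_nonneg measureReal_nonneg] at h2
    have h3 := hN (max N N') (le_max_left _ _)
    simp only [mem_iInter, mem_ofPred_eq] at h3
    have h4 := h3 A hA
    have h5 := symmDiff_triangle_real (S'.1 ⁻¹' A) ((S (max N N')).1 ⁻¹' A) (T.1 ⁻¹' A)
    have h2' : mu.real (((S (max N N')).1 ⁻¹' A) ∆ (S'.1 ⁻¹' A)) < δ / 2 := h2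
    rw [symmDiff_comm (S'.1 ⁻¹' A) ((S (max N N')).1 ⁻¹' A)] at h5
    linarith

end Pool.Agent.H44.WH
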