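import Pool.Agent.H44.WH.Interval

/-!
Weak convergence of measure preserving maps of `[0,1]`.
-/

set_option linter.unusedSectionVars false

open MeasureTheory Set Filter Topology
open scoped ENNReal symmDiff BoundedContinuousFunction

namespace Pool.Agent.H44.WH

lemma measureReal_preimage {T : ℝ → ℝ} (hT : MeasurePreserving T mu mu) {A : Set ℝ}
    (hA : MeasurableSet A) : mu.real (T ⁻¹' A) = mu.real A := by
  rw [measureReal_def, measureReal_def, hT.measure_preimage hA.nullMeasurableSet]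

/-- Closeness in measure implies weak closeness. -/
lemma close_of_measure (A : Set ℝ) (hA : MeasurableSet A) (δ : ℝ) (hδ : 0 < δ) :
    ∃ η : ℝ, 0 < η ∧ ∀ T T' : ℝ → ℝ, MeasurePreserving T mu mu → MeasurePreserving T' mu mu →
      mu.real {x | η ≤ |T' x - T x|} ≤ η → mu.real ((T' ⁻¹' A) ∆ (T ⁻¹' A)) < δ := by
  have hδ' : ENNReal.ofReal (δ / 8) ≠ 0 := by
    rw [ne_eq, ENNReal.ofReal_eq_zero, not_le]; positivity
  obtain ⟨O, hAO, hO, -, hOA⟩ := hA.exists_isOpen_sdiff_lt (μ := mu) (measure_ne_top _ _) hδ'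
  obtain ⟨K, hKA, hK, hAK⟩ := hA.exists_isCompact_sdiff_lt (μ := mu) (measure_ne_top _ _) hδ'
  obtain ⟨r, hr, hrO⟩ := hK.exists_thickening_subset_open hO (hKA.trans hAO)
  have hOA' : mu.real (O \ A) < δ / 8 := by
    rw [measureReal_def]
    exact (ENNReal.lt_ofReal_iff_toReal_lt (measure_ne_top _ _)).mp hOA
  have hAK' : mu.real (A \ K) < δ / 8 := by
    rw [measureReal_def]
    exact (ENNReal.lt_ofReal_iff_toReal_lt (measure_ne_top _ _)).mp hAK
  refine ⟨min r (δ / 8), lt_min hr (by positivity), ?_⟩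
  intro T T' hT hT' hclose
  set η := min r (δ / 8) with hη
  have hηr : η ≤ r := min_le_left _ _
  have hηδ : η ≤ δ / 8 := min_le_right _ _
  -- one sided estimate
  have key : ∀ S S' : ℝ → ℝ, MeasurePreserving S mu mu → MeasurePreserving S' mu mu →
      mu.real {x | η ≤ |S' x - S x|} ≤ η →
      mu.real ((S ⁻¹' A) \ (S' ⁻¹' A)) ≤ mu.real (A \ K) + η + mu.real (O \ A) := by
    intro S S' hS hS' hc
    have hsub : (S ⁻¹' A) \ (S' ⁻¹' A) ⊆
        ((S ⁻¹' (A \ K)) ∪ {x | η ≤ |S' x - S x|}) ∪ (S' ⁻¹' (O \ A)) := by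
      rintro x ⟨hx1, hx2⟩
      by_contra hcon
      simp only [mem_union, mem_preimage, Set.mem_sdiff, not_or, not_and, not_not] at hcon
      obtain ⟨⟨h1, h2⟩, h3⟩ := hcon
      have hxK : S x ∈ K := h1 hx1
      have h2' : |S' x - S x| < η := not_le.mp h2
      have hO' : S' x ∈ O := by
        apply hrO
        rw [Metric.mem_thickening_iff]
        exact ⟨S x, hxK, by rw [Real.dist_eq]; exact lt_of_lt_of_le h2' hηr⟩
      exact hx2 (h3 hO')
    calc mu.real ((S ⁻¹' A) \ (S' ⁻¹' A)) ≤ _ := measureReal_mono hsub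
      _ ≤ mu.real ((S ⁻¹' (A \ K)) ∪ {x | η ≤ |S' x - S x|}) + mu.real (S' ⁻¹' (O \ A)) :=
          measureReal_union_le _ _
      _ ≤ mu.real (S ⁻¹' (A \ K)) + mu.real {x | η ≤ |S' x - S x|} +
          mu.real (S' ⁻¹' (O \ A)) := by
          gcongr
          exact measureReal_union_le _ _
      _ ≤ mu.real (A \ K) + η + mu.real (O \ A) := by
          rw [measureReal_preimage hS (hA.diff hK.measurableSet),
            measureReal_preimage hS' (hO.measurableSet.diff hA)]
          gcongr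
  have k1 := key T T' hT hT' hclose
  have k2 := key T' T hT' hT (by simpa [abs_sub_comm] using hclose)
  have : mu.real ((T' ⁻¹' A) ∆ (T ⁻¹' A)) ≤
      mu.real ((T' ⁻¹' A) \ (T ⁻¹' A)) + mu.real ((T ⁻¹' A) \ (T' ⁻¹' A)) := by
    rw [Set.symmDiff_def]
    exact measureReal_union_le _ _
  linarith

/-- weak convergence of a sequence of maps -/
def WConv (T : ℕ → ℝ → ℝ) (T' : ℝ → ℝ) : Prop :=
  ∀ A : Set ℝ, MeasurableSet A →
    Tendsto (fun n => mu.real (((T n) ⁻¹' A) ∆ (T' ⁻¹' A))) atTop (𝓝 0)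

lemma preimage_symmDiff' (T : ℝ → ℝ) (A B : Set ℝ) :
    T ⁻¹' (A ∆ B) = (T ⁻¹' A) ∆ (T ⁻¹' B) := by
  rw [Set.symmDiff_def, Set.symmDiff_def]
  rfl

lemma symmDiff_triangle_real (A B C : Set ℝ) :
    mu.real (A ∆ C) ≤ mu.real (A ∆ B) + mu.real (B ∆ C) := by
  refine le_trans (measureReal_mono ?_) (measureReal_union_le _ _)
  exact symmDiff_triangle A B C

lemma WConv.comp {S T : ℕ → ℝ → ℝ} {S' T' : ℝ → ℝ} (hS : WConv S S') (hT : WConv T T')
    (hTm : ∀ n, MeasurePreserving (T n) mu mu) (hSm : ∀ n, Measurable (S n))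
    (hS'm : Measurable S') : WConv (fun n => S n ∘ T n) (S' ∘ T') := by
  intro A hA
  have h1 := hS A hA
  have h2 := hT (S' ⁻¹' A) (hS'm hA)
  have h3 := h1.add h2
  rw [add_zero] at h3
  refine squeeze_zero (fun n => measureReal_nonneg) (fun n => ?_) h3
  rw [Set.preimage_comp, Set.preimage_comp]
  refine le_trans (symmDiff_triangle_real _ ((T n) ⁻¹' (S' ⁻¹' A)) _) ?_
  have e : mu.real (((T n) ⁻¹' ((S n) ⁻¹' A)) ∆ ((T n) ⁻¹' (S' ⁻¹' A))) =
      mu.real (((S n) ⁻¹' A) ∆ (S' ⁻¹' A)) := by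
    rw [← preimage_symmDiff', measureReal_preimage (hTm n)]
    exact (hSm n hA).symmDiff (hS'm hA)
  rw [e]

lemma WConv.id : WConv (fun _ => _root_.id) _root_.id := by
  intro A _
  simp

lemma WConv.iterate {T : ℕ → ℝ → ℝ} {T' : ℝ → ℝ} (hT : WConv T T')
    (hTm : ∀ n, MeasurePreserving (T n) mu mu) (hT'm : Measurable T') (k : ℕ) :
    WConv (fun n => (T n)^[k]) (T'^[k]) := by
  induction k with
  | zero => exact WConv.id
  | succ k ih =>
    simp only [Function.iterate_succ]
    exact ih.comp hT hTm (fun n => (hTm n).measurable.iterate k) (hT'm.iterate k)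

/-- a.e. convergence implies weak convergence, and the limit is measure preserving. -/
lemma limit_of_ae {T : ℕ → ℝ → ℝ} (hTm : ∀ n, MeasurePreserving (T n) mu mu)
    (hlim : ∀ᵐ x ∂mu, ∃ l : ℝ, Tendsto (fun n => T n x) atTop (𝓝 l)) :
    ∃ T' : ℝ → ℝ, MeasurePreserving T' mu mu ∧ WConv T T' := by
  obtain ⟨T', hT'm, hT'⟩ := measurable_limit_of_tendsto_metrizable_ae
    (fun n => (hTm n).measurable.aemeasurable) hlim
  have hmp : MeasurePreserving T' mu mu := by
    refine ⟨hT'm, ?_⟩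
    have : IsFiniteMeasure (mu.map T') := by infer_instance
    apply ext_of_forall_integral_eq_of_IsFiniteMeasure
    intro f
    rw [integral_map hT'm.aemeasurable f.continuous.aestronglyMeasurable]
    have h1 : Tendsto (fun n => ∫ x, f (T n x) ∂mu) atTop (𝓝 (∫ x, f (T' x) ∂mu)) := by
      apply tendsto_integral_of_dominated_convergence (fun _ => ‖f‖)
      · intro n
        exact (f.continuous.measurable.comp (hTm n).measurable).aestronglyMeasurable
      · exact integrable_const _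
      · intro n
        exact Filter.Eventually.of_forall fun x => f.norm_coe_le_norm _
      · filter_upwards [hT'] with x hx
        exact (f.continuous.tendsto _).comp hx
    have h2 : ∀ n, ∫ x, f (T n x) ∂mu = ∫ x, f x ∂mu := by
      intro n
      rw [← integral_map (hTm n).measurable.aemeasurable f.continuous.aestronglyMeasurable,
        (hTm n).map_eq]
    simp_rw [h2] at h1
    exact tendsto_nhds_unique h1 tendsto_const_nhds |>.symm ▸ rfl
  refine ⟨T', hmp, ?_⟩
  intro A hA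
  have him : TendstoInMeasure mu T atTop T' :=
    tendstoInMeasure_of_tendsto_ae (fun n => (hTm n).measurable.aestronglyMeasurable) hT'
  rw [tendstoInMeasure_iff_measureReal_norm] at him
  rw [Metric.tendsto_atTop]
  intro δ hδ
  obtain ⟨η, hη, hclose⟩ := close_of_measure A hA δ hδ
  have h1 := him η hη
  rw [Metric.tendsto_atTop] at h1
  obtain ⟨N, hN⟩ := h1 η hη
  refine ⟨N, fun n hn => ?_⟩
  have h2 := hN n hn
  rw [Real.dist_eq, sub_zero, abs_of_nonneg measureReal_nonneg] at h2 ⊢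
  apply hclose T' (T n) hmp (hTm n)
  simpa only [Real.norm_eq_abs] using h2.le

/-- convergence a.e. from summable closeness -/
lemma ae_tendsto_of_summable {T : ℕ → ℝ → ℝ} (_hTm : ∀ n, Measurable (T n)) (c : ℕ → ℝ)
    (hc : Summable c) (hc0 : ∀ n, 0 ≤ c n)
    (hclose : ∀ n, mu.real {x | (1 / 2 : ℝ) ^ n ≤ |T (n + 1) x - T n x|} ≤ c n) :
    ∀ᵐ x ∂mu, ∃ l : ℝ, Tendsto (fun n => T n x) atTop (𝓝 l) := by
  have h1 : (∑' n, mu {x | (1 / 2 : ℝ) ^ n ≤ |T (n + 1) x - T n x|}) ≠ ∞ := by
    have h2 : ∀ n, mu {x | (1 / 2 : ℝ) ^ n ≤ |T (n + 1) x - T n x|} ≤ ENNReal.ofReal (c n) := by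
      intro n
      rw [← ENNReal.ofReal_toReal (measure_ne_top mu _)]
      exact ENNReal.ofReal_le_ofReal (hclose n)
    refine ne_top_of_le_ne_top ?_ (ENNReal.tsum_le_tsum h2)
    rw [← ENNReal.ofReal_tsum_of_nonneg hc0 hc]
    exact ENNReal.ofReal_ne_top
  filter_upwards [ae_eventually_notMem h1] with x hx
  rw [eventually_atTop] at hx
  obtain ⟨N, hN⟩ := hx
  apply cauchySeq_tendsto_of_complete
  have hsh : CauchySeq (fun n => T (n + N) x) := by
    apply cauchySeq_of_le_geometric (1 / 2) ((1 / 2) ^ N) (by norm_num)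
    intro n
    have := hN (n + N) (by omega)
    have this := not_le.mp this
    rw [dist_comm, Real.dist_eq, ← pow_add, add_comm N n]
    have e : n + 1 + N = n + N + 1 := by ring
    rw [e]
    exact this.le
  exact (cauchySeq_shift N).mp hsh

/-- composition with the inverse -/
lemma ae_eq_id_of_wconv {T : ℝ → ℝ} (_hT : Measurable T) (h : WConv (fun _ => id) T) :
    ∀ᵐ x ∂mu, T x = x := by
  have h1 : ∀ q : ℚ, ∀ᵐ x ∂mu, (x ≤ (q : ℝ) ↔ T x ≤ q) := by
    intro q
    have h2 := h (Set.Iic (q : ℝ)) measurableSet_Iic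
    have h3 : mu.real ((id ⁻¹' (Set.Iic (q : ℝ))) ∆ (T ⁻¹' (Set.Iic (q : ℝ)))) = 0 :=
      tendsto_nhds_unique tendsto_const_nhds h2
    rw [measureReal_eq_zero_iff, measure_symmDiff_eq_zero_iff] at h3
    filter_upwards [h3] with x hx
    exact Eq.to_iff hx
  have h2 : ∀ᵐ x ∂mu, ∀ q : ℚ, (x ≤ (q : ℝ) ↔ T x ≤ q) := ae_all_iff.mpr h1
  filter_upwards [h2] with x hx
  apply le_antisymm
  · by_contra hc
    push Not at hc
    obtain ⟨q, hq1, hq2⟩ := exists_rat_btwn hc
    exact absurd ((hx q).mp hq1.le) (not_le.mpr hq2)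
  · by_contra hc
    push Not at hc
    obtain ⟨q, hq1, hq2⟩ := exists_rat_btwn hc
    exact absurd ((hx q).mpr hq1.le) (not_le.mpr hq2)

/-- realisation of an almost everywhere invertible map by a measurable equivalence -/
lemma realise {P P' : ℝ → ℝ} (hP : MeasurePreserving P mu mu) (hP' : MeasurePreserving P' mu mu)
    (h1 : ∀ᵐ x ∂mu, P' (P x) = x) (h2 : ∀ᵐ x ∂mu, P (P' x) = x) :
    ∃ e : ℝ ≃ᵐ ℝ, (∀ᵐ x ∂mu, e x = P x) ∧ (∀ᵐ x ∂mu, e.symm x = P' x) ∧
      MeasurePreserving (e : ℝ → ℝ) mu mu := by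
  classical
  set G : Set ℝ := {x | P' (P x) = x ∧ P (P' x) = x} with hG
  have hGm : MeasurableSet G := by
    apply MeasurableSet.inter
    · exact measurableSet_eq_fun (hP'.measurable.comp hP.measurable) measurable_id
    · exact measurableSet_eq_fun (hP.measurable.comp hP'.measurable) measurable_id
  have hGae : ∀ᵐ x ∂mu, x ∈ G := by
    filter_upwards [h1, h2] with x hx1 hx2
    exact ⟨hx1, hx2⟩
  set Y : Set ℝ := {x | ∀ n : ℕ, P^[n] x ∈ G ∧ P'^[n] x ∈ G} with hY
  have hYm : MeasurableSet Y := by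
    have : Y = ⋂ n : ℕ, ((P^[n]) ⁻¹' G ∩ (P'^[n]) ⁻¹' G) := by
      ext x
      simp [hY]
    rw [this]
    exact MeasurableSet.iInter fun n => ((hP.measurable.iterate n) hGm).inter
      ((hP'.measurable.iterate n) hGm)
  have hYae : ∀ᵐ x ∂mu, x ∈ Y := by
    have : ∀ n : ℕ, ∀ᵐ x ∂mu, P^[n] x ∈ G ∧ P'^[n] x ∈ G := by
      intro n
      have a := (hP.iterate n).quasiMeasurePreserving.ae hGae
      have b := (hP'.iterate n).quasiMeasurePreserving.ae hGae
      filter_upwards [a, b] with x ha hb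
      exact ⟨ha, hb⟩
    exact ae_all_iff.mpr this
  have hYG : ∀ x ∈ Y, x ∈ G := fun x hx => (hx 0).1
  have hPY : ∀ x ∈ Y, P x ∈ Y := by
    intro x hx n
    constructor
    · have := (hx (n + 1)).1
      rwa [Function.iterate_succ_apply] at this
    · cases n with
      | zero =>
        have := (hx 1).1
        simpa using this
      | succ n =>
        rw [Function.iterate_succ_apply, (hYG x hx).1]
        exact (hx n).2
  have hP'Y : ∀ x ∈ Y, P' x ∈ Y := by
    intro x hx n
    constructor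
    · cases n with
      | zero =>
        have := (hx 1).2
        simpa using this
      | succ n =>
        rw [Function.iterate_succ_apply, (hYG x hx).2]
        exact (hx n).1
    · have := (hx (n + 1)).2
      rwa [Function.iterate_succ_apply] at this
  let e : ℝ ≃ᵐ ℝ :=
    { toFun := fun x => if x ∈ Y then P x else x
      invFun := fun x => if x ∈ Y then P' x else x
      left_inv := by
        intro x
        by_cases hx : x ∈ Y
        · simp only [hx, if_true, hPY x hx]
          exact (hYG x hx).1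
        · simp [hx]
      right_inv := by
        intro x
        by_cases hx : x ∈ Y
        · simp only [hx, if_true, hP'Y x hx]
          exact (hYG x hx).2
        · simp [hx]
      measurable_toFun := Measurable.ite hYm hP.measurable measurable_id
      measurable_invFun := Measurable.ite hYm hP'.measurable measurable_id }
  have he : ∀ᵐ x ∂mu, e x = P x := by
    filter_upwards [hYae] with x hx
    change (if x ∈ Y then P x else x) = P x
    rw [if_pos hx]
  have he' : ∀ᵐ x ∂mu, e.symm x = P' x := by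
    filter_upwards [hYae] with x hx
    change (if x ∈ Y then P' x else x) = P' x
    rw [if_pos hx]
  refine ⟨e, he, he', e.measurable, ?_⟩
  rw [Measure.map_congr he]
  exact hP.map_eq

lemma WConv.congr {T : ℕ → ℝ → ℝ} {T' T'' : ℝ → ℝ} (hT : WConv T T')
    (h : ∀ᵐ x ∂mu, T'' x = T' x) : WConv T T'' := by
  intro A hA
  refine (hT A hA).congr fun n => ?_
  apply measureReal_congr
  filter_upwards [h] with x hx
  have e : (x ∈ ((T n) ⁻¹' A) ∆ (T' ⁻¹' A)) = (x ∈ ((T n) ⁻¹' A) ∆ (T'' ⁻¹' A)) := by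
    simp only [Set.mem_symmDiff, Set.mem_preimage, hx]
  exact e

/-- The limit of a sequence of automorphisms which is Cauchy together with its inverses. -/
theorem exists_limit (e : ℕ → ℝ ≃ᵐ ℝ) (he : ∀ n, MeasurePreserving (e n : ℝ → ℝ) mu mu)
    (he' : ∀ n, MeasurePreserving ((e n).symm : ℝ → ℝ) mu mu) (c : ℕ → ℝ)
    (hc : Summable c) (hc0 : ∀ n, 0 ≤ c n)
    (hclose : ∀ n, mu.real {x | (1 / 2 : ℝ) ^ n ≤ |e (n + 1) x - e n x|} ≤ c n)
    (hclose' : ∀ n, mu.real {x | (1 / 2 : ℝ) ^ n ≤ |(e (n + 1)).symm x - (e n).symm x|} ≤ c n) :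
    ∃ E : ℝ ≃ᵐ ℝ, MeasurePreserving (E : ℝ → ℝ) mu mu ∧
      WConv (fun n => (e n : ℝ → ℝ)) (E : ℝ → ℝ) ∧
      WConv (fun n => ((e n).symm : ℝ → ℝ)) (E.symm : ℝ → ℝ) := by
  obtain ⟨P, hP, hPc⟩ := limit_of_ae he
    (ae_tendsto_of_summable (fun n => (e n).measurable) c hc hc0 hclose)
  obtain ⟨P', hP', hP'c⟩ := limit_of_ae he'
    (ae_tendsto_of_summable (fun n => (e n).symm.measurable) c hc hc0 hclose')
  have h1 : ∀ᵐ x ∂mu, P' (P x) = x := by
    apply ae_eq_id_of_wconv (hP'.measurable.comp hP.measurable)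
    have := hP'c.comp hPc he (fun n => (e n).symm.measurable) hP'.measurable
    have e1 : (fun n => ((e n).symm : ℝ → ℝ) ∘ (e n : ℝ → ℝ)) = fun _ => id := by
      funext n x
      simp
    rw [e1] at this
    exact this
  have h2 : ∀ᵐ x ∂mu, P (P' x) = x := by
    apply ae_eq_id_of_wconv (hP.measurable.comp hP'.measurable)
    have := hPc.comp hP'c he' (fun n => (e n).measurable) hP.measurable
    have e1 : (fun n => (e n : ℝ → ℝ) ∘ ((e n).symm : ℝ → ℝ)) = fun _ => id := by
      funext n x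
      simp
    rw [e1] at this
    exact this
  obtain ⟨E, hE, hE', hEm⟩ := realise hP hP' h1 h2
  exact ⟨E, hEm, hPc.congr hE, hP'c.congr hE'⟩

end Pool.Agent.H44.WH
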